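import Pool.Agent.H27.G.R_pool_sql_team_seeded_620a6dc7.helper24_UT_.Stm4

set_option autoImplicit false

namespace Pool.Agent.helper24_UT.Frl2

open Finset
open Pool.Agent.helper24_UT
open Pool.Agent.H376R2.MR (ch er DP FK)

open ArithmeticFunction in
/-- the Moebius function cut at `U` -/
noncomputable def m1 (U : ℕ) : ArithmeticFunction ℝ :=
  ⟨fun b => if b ≤ U then ((moebius b : ℤ) : ℝ) else 0, by simp⟩

open ArithmeticFunction in
/-- the von Mangoldt function cut at `V` -/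
noncomputable def L1 (V : ℕ) : ArithmeticFunction ℝ :=
  ⟨fun b => if b ≤ V then vonMangoldt b else 0, by simp⟩

theorem m1_apply (U b : ℕ) : m1 U b =
    if b ≤ U then ((ArithmeticFunction.moebius b : ℤ) : ℝ) else 0 := rfl

theorem L1_apply (V b : ℕ) : L1 V b =
    if b ≤ V then ArithmeticFunction.vonMangoldt b else 0 := rfl

theorem m1_zeta (U m : ℕ) : (m1 U * (ArithmeticFunction.zeta : ArithmeticFunction ℝ)) m =
    ((alU U m : ℤ) : ℝ) := by
  rw [ArithmeticFunction.coe_mul_zeta_apply]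
  unfold alU
  push_cast
  rw [Finset.sum_filter]
  rfl

theorem alU_one (U : ℕ) (hU : 1 ≤ U) : alU U 1 = 1 := by
  unfold alU
  rw [Nat.divisors_one, Finset.filter_singleton, if_pos hU]
  simp

theorem alU_small (U m : ℕ) (h1 : 1 < m) (hU : m ≤ U) : alU U m = 0 := by
  unfold alU
  have h : m.divisors.filter (fun b => b ≤ U) = m.divisors := by
    refine Finset.filter_true_of_mem fun b hb => ?_
    exact (Nat.divisor_le hb).trans hU
  rw [h]
  have h2 := ArithmeticFunction.coe_mul_zeta_apply (R := ℤ) (f := ArithmeticFunction.moebius) (x := m)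
  rw [ArithmeticFunction.moebius_mul_coe_zeta] at h2
  rw [← h2, ArithmeticFunction.one_apply_ne h1.ne']

/-- Vaughan's identity -/
theorem vaughan (U V n : ℕ) (hU : 1 ≤ U) (hn : V < n) :
    ArithmeticFunction.vonMangoldt n =
      (∑ b ∈ n.divisors.filter (fun b => b ≤ U),
        ((ArithmeticFunction.moebius b : ℤ) : ℝ) * Real.log ((n / b : ℕ) : ℝ)) -
      (∑ b ∈ n.divisors.filter (fun b => b ≤ U * V), (L1 V * m1 U) b) -
      ∑ x ∈ n.divisorsAntidiagonal.filter (fun x => U < x.1 ∧ V < x.2),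
        ((alU U x.1 : ℤ) : ℝ) * ArithmeticFunction.vonMangoldt x.2 := by
  have hn0 : n ≠ 0 := by omega
  -- the full sum
  have hall : ∑ x ∈ n.divisorsAntidiagonal, ((alU U x.1 : ℤ) : ℝ) *
      ArithmeticFunction.vonMangoldt x.2 = ∑ b ∈ n.divisors.filter (fun b => b ≤ U),
        ((ArithmeticFunction.moebius b : ℤ) : ℝ) * Real.log ((n / b : ℕ) : ℝ) := by
    have h1 : ∑ x ∈ n.divisorsAntidiagonal, ((alU U x.1 : ℤ) : ℝ) *
        ArithmeticFunction.vonMangoldt x.2 =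
        ((m1 U * (ArithmeticFunction.zeta : ArithmeticFunction ℝ)) *
          ArithmeticFunction.vonMangoldt) n := by
      rw [ArithmeticFunction.mul_apply]
      refine Finset.sum_congr rfl fun x _ => ?_
      rw [m1_zeta]
    have h2 : (m1 U * (ArithmeticFunction.zeta : ArithmeticFunction ℝ)) *
          ArithmeticFunction.vonMangoldt = m1 U * ArithmeticFunction.log := by
      rw [mul_assoc, mul_comm (ArithmeticFunction.zeta : ArithmeticFunction ℝ),
        ArithmeticFunction.vonMangoldt_mul_zeta]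
    rw [h1, h2, ArithmeticFunction.mul_apply,
      Nat.sum_divisorsAntidiagonal (fun a b => m1 U a * ArithmeticFunction.log b),
      Finset.sum_filter]
    refine Finset.sum_congr rfl fun b _ => ?_
    rw [m1_apply, ArithmeticFunction.log_apply]
    split_ifs <;> simp
  -- the part with small second factor
  have hsmall : ∑ x ∈ n.divisorsAntidiagonal.filter (fun x => x.2 ≤ V), ((alU U x.1 : ℤ) : ℝ) *
      ArithmeticFunction.vonMangoldt x.2 =
      ∑ b ∈ n.divisors.filter (fun b => b ≤ U * V), (L1 V * m1 U) b := by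
    have h1 : ∑ x ∈ n.divisorsAntidiagonal.filter (fun x => x.2 ≤ V), ((alU U x.1 : ℤ) : ℝ) *
        ArithmeticFunction.vonMangoldt x.2 =
        ((m1 U * (ArithmeticFunction.zeta : ArithmeticFunction ℝ)) * L1 V) n := by
      rw [ArithmeticFunction.mul_apply, Finset.sum_filter]
      refine Finset.sum_congr rfl fun x _ => ?_
      rw [m1_zeta, L1_apply]
      split_ifs <;> simp
    have h2 : (m1 U * (ArithmeticFunction.zeta : ArithmeticFunction ℝ)) * L1 V =
        (L1 V * m1 U) * (ArithmeticFunction.zeta : ArithmeticFunction ℝ) := by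
      ring
    rw [h1, h2, ArithmeticFunction.coe_mul_zeta_apply, Finset.sum_filter]
    refine Finset.sum_congr rfl fun b _ => ?_
    split_ifs with hb
    · rfl
    · rw [ArithmeticFunction.mul_apply]
      refine Finset.sum_eq_zero fun x hx => ?_
      rw [L1_apply, m1_apply]
      by_cases hx1 : x.1 ≤ V
      · by_cases hx2 : x.2 ≤ U
        · exfalso
          apply hb
          rw [← (Nat.mem_divisorsAntidiagonal.1 hx).1, mul_comm U V]
          exact Nat.mul_le_mul hx1 hx2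
        · rw [if_neg hx2, mul_zero]
      · rw [if_neg hx1, zero_mul]
  -- the part with large second factor
  have hlarge : ∑ x ∈ n.divisorsAntidiagonal.filter (fun x => ¬ x.2 ≤ V), ((alU U x.1 : ℤ) : ℝ) *
      ArithmeticFunction.vonMangoldt x.2 = ArithmeticFunction.vonMangoldt n +
      ∑ x ∈ n.divisorsAntidiagonal.filter (fun x => U < x.1 ∧ V < x.2),
        ((alU U x.1 : ℤ) : ℝ) * ArithmeticFunction.vonMangoldt x.2 := by
    have hmem : (1, n) ∈ n.divisorsAntidiagonal.filter (fun x => ¬ x.2 ≤ V) := by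
      rw [Finset.mem_filter, Nat.mem_divisorsAntidiagonal]
      exact ⟨⟨one_mul n, hn0⟩, by simpa using hn⟩
    rw [← Finset.add_sum_erase _ _ hmem]
    congr 1
    · rw [alU_one U hU]; simp
    · symm
      refine Finset.sum_subset ?_ ?_
      · intro x hx
        rw [Finset.mem_filter] at hx
        rw [Finset.mem_erase, Finset.mem_filter]
        refine ⟨?_, hx.1, not_le.2 hx.2.2⟩
        rintro rfl
        exact absurd hx.2.1 (not_lt.2 hU)
      · intro x hx hx2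
        rw [Finset.mem_erase, Finset.mem_filter] at hx
        obtain ⟨hne, hx1, hxV⟩ := hx
        have hx1' := Nat.mem_divisorsAntidiagonal.1 hx1
        have hxU : x.1 ≤ U := by
          by_contra hcon
          exact hx2 (Finset.mem_filter.2 ⟨hx1, not_le.1 hcon, not_le.1 hxV⟩)
        have hx11 : x.1 ≠ 1 := by
          intro h
          apply hne
          have : x.2 = n := by rw [← hx1'.1, h, one_mul]
          exact Prod.ext h this
        have hx10 : x.1 ≠ 0 := by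
          intro h
          rw [h, zero_mul] at hx1'
          exact hn0 hx1'.1.symm
        rw [alU_small U x.1 (by omega) hxU]
        simp
  have hsplit := Finset.sum_filter_add_sum_filter_not n.divisorsAntidiagonal (fun x => x.2 ≤ V)
    (fun x => ((alU U x.1 : ℤ) : ℝ) * ArithmeticFunction.vonMangoldt x.2)
  rw [hsmall, hlarge, hall] at hsplit
  linarith

theorem gamma_bound (U V b : ℕ) : |(L1 V * m1 U) b| ≤ Real.log ((b : ℝ) + 3) := by
  have h1 : |(L1 V * m1 U) b| ≤ Real.log b := by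
    rw [ArithmeticFunction.mul_apply]
    refine (Finset.abs_sum_le_sum_abs _ _).trans ?_
    have h2 : ∑ x ∈ b.divisorsAntidiagonal, |L1 V x.1 * m1 U x.2| ≤
        ∑ x ∈ b.divisorsAntidiagonal, ArithmeticFunction.vonMangoldt x.1 := by
      refine Finset.sum_le_sum fun x _ => ?_
      rw [abs_mul]
      have ha : |L1 V x.1| ≤ ArithmeticFunction.vonMangoldt x.1 := by
        rw [L1_apply]
        split_ifs
        · rw [abs_of_nonneg ArithmeticFunction.vonMangoldt_nonneg]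
        · rw [abs_zero]; exact ArithmeticFunction.vonMangoldt_nonneg
      have hb : |m1 U x.2| ≤ 1 := by
        rw [m1_apply]
        split_ifs
        · rw [← Int.cast_abs]
          exact_mod_cast ArithmeticFunction.abs_moebius_le_one
        · simp
      calc |L1 V x.1| * |m1 U x.2| ≤ ArithmeticFunction.vonMangoldt x.1 * 1 :=
            mul_le_mul ha hb (abs_nonneg _) ArithmeticFunction.vonMangoldt_nonneg
        _ = _ := mul_one _
    refine h2.trans ?_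
    rw [Nat.sum_divisorsAntidiagonal (fun a _ => ArithmeticFunction.vonMangoldt a),
      ArithmeticFunction.vonMangoldt_sum]
  refine h1.trans ?_
  rcases Nat.eq_zero_or_pos b with rfl | hb
  · simp only [Nat.cast_zero, Real.log_zero, zero_add]
    exact Real.log_nonneg (by norm_num)
  · exact Real.log_le_log (by exact_mod_cast hb) (by linarith)

/-- the Dirichlet polynomials of the three parts -/
theorem dp_split (s : Finset ℕ) (F F1 F2 F3 : ℕ → ℂ) (h : ∀ n ∈ s, F n = F1 n - F2 n - F3 n)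
    (k : ℤ) : ‖DP s F k‖ ^ 2 ≤ 3 * (‖DP s F1 k‖ ^ 2 + ‖DP s F2 k‖ ^ 2 + ‖DP s F3 k‖ ^ 2) := by
  have h1 : DP s F k = DP s F1 k - DP s F2 k - DP s F3 k := by
    unfold DP
    rw [← Finset.sum_sub_distrib, ← Finset.sum_sub_distrib]
    refine Finset.sum_congr rfl fun n hn => ?_
    rw [h n hn]
    ring
  have h2 : ‖DP s F k‖ ≤ ‖DP s F1 k‖ + ‖DP s F2 k‖ + ‖DP s F3 k‖ := by
    rw [h1]
    calc ‖DP s F1 k - DP s F2 k - DP s F3 k‖ ≤ ‖DP s F1 k - DP s F2 k‖ + ‖DP s F3 k‖ :=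
          norm_sub_le _ _
      _ ≤ ‖DP s F1 k‖ + ‖DP s F2 k‖ + ‖DP s F3 k‖ := by
          have := norm_sub_le (DP s F1 k) (DP s F2 k)
          linarith
  have h0 : 0 ≤ ‖DP s F k‖ := norm_nonneg _
  have h3 : ‖DP s F k‖ ^ 2 ≤ (‖DP s F1 k‖ + ‖DP s F2 k‖ + ‖DP s F3 k‖) ^ 2 :=
    pow_le_pow_left₀ h0 h2 2
  refine h3.trans ?_
  nlinarith [sq_nonneg (‖DP s F1 k‖ - ‖DP s F2 k‖), sq_nonneg (‖DP s F1 k‖ - ‖DP s F3 k‖),
    sq_nonneg (‖DP s F2 k‖ - ‖DP s F3 k‖)]

/-- the size of the cut -/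
theorem ceil_bound (Y : ℝ) (hY : (2 : ℝ) ^ 48 ≤ Y) :
    (⌈Y ^ (1 / 24 : ℝ)⌉₊ : ℝ) ≤ Y ^ (1 / 16 : ℝ) ∧ 1 ≤ Y ^ (1 / 24 : ℝ) := by
  have hY1 : (1 : ℝ) ≤ Y := by
    have : (1 : ℝ) ≤ (2 : ℝ) ^ 48 := one_le_pow₀ (by norm_num)
    linarith
  have hYpos : (0 : ℝ) < Y := by linarith
  have h2 : (2 : ℝ) ≤ Y ^ (1 / 48 : ℝ) := by
    have h3 : ((2 : ℝ) ^ 48) ^ (1 / 48 : ℝ) ≤ Y ^ (1 / 48 : ℝ) :=
      Real.rpow_le_rpow (by positivity) hY (by positivity)
    have h4 : ((2 : ℝ) ^ 48) ^ (1 / 48 : ℝ) = 2 := by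
      rw [← Real.rpow_natCast, ← Real.rpow_mul (by norm_num)]
      norm_num
    linarith
  have h1 : 1 ≤ Y ^ (1 / 24 : ℝ) := Real.one_le_rpow hY1 (by norm_num)
  have h5 : Y ^ (1 / 16 : ℝ) = Y ^ (1 / 48 : ℝ) * Y ^ (1 / 24 : ℝ) := by
    rw [← Real.rpow_add hYpos]
    norm_num
  refine ⟨?_, h1⟩
  have := Nat.ceil_lt_add_one (show (0:ℝ) ≤ Y ^ (1 / 24 : ℝ) by linarith)
  rw [h5]
  nlinarith

theorem main : S_II → S_TI2 → S_FRL2 := by
  intro hII hTI A B
  obtain ⟨K2, Y2, h2⟩ := hII 3 (A + 1) B (by norm_num)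
  obtain ⟨K3, Y3, h3⟩ := hTI (A + 1) B
  refine ⟨max K2 K3, max (max Y2 Y3) (max (2 ^ 48) ⌈Real.exp 9⌉₊), ?_⟩
  intro Y hY q r hq hqB hr K₁ hK
  have hYY2 : Y2 ≤ Y := (le_max_left _ _).trans ((le_max_left _ _).trans hY)
  have hYY3 : Y3 ≤ Y := (le_max_right _ _).trans ((le_max_left _ _).trans hY)
  have hYe : 2 ^ 48 ≤ Y := (le_max_left _ _).trans ((le_max_right _ _).trans hY)
  have hY9 : ⌈Real.exp 9⌉₊ ≤ Y := (le_max_right _ _).trans ((le_max_right _ _).trans hY)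
  have hYeR : (2 : ℝ) ^ 48 ≤ (Y : ℝ) := by exact_mod_cast hYe
  have hexp : Real.exp 9 ≤ (Y : ℝ) := Nat.ceil_le.1 hY9
  have hYpos : (0 : ℝ) < Y := (Real.exp_pos 9).trans_le hexp
  have hY1 : (1 : ℝ) ≤ Y := by
    have : (1 : ℝ) ≤ (2 : ℝ) ^ 48 := one_le_pow₀ (by norm_num)
    linarith
  have hlog : 9 ≤ Real.log Y := (Real.le_log_iff_exp_le hYpos).2 hexp
  obtain ⟨hceil, hone⟩ := ceil_bound (Y : ℝ) hYeR
  set U : ℕ := ⌈(Y : ℝ) ^ (1 / 24 : ℝ)⌉₊ with hUdef
  have hUlow0 : (Y : ℝ) ^ (1 / 24 : ℝ) ≤ U := Nat.le_ceil _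
  have hU1 : 1 ≤ U := by
    have : (1 : ℝ) ≤ U := by linarith
    exact_mod_cast this
  have hexpo : (1 / (8 * ((3 : ℕ) : ℝ)) : ℝ) = 1 / 24 := by norm_num
  have hUlow : (Y : ℝ) ^ (1 / (8 * ((3 : ℕ) : ℝ)) : ℝ) ≤ U := by
    rw [hexpo]; exact hUlow0
  -- upper bounds for the cut
  have hsq2 : (Y : ℝ) ^ (1 / 16 : ℝ) * (Y : ℝ) ^ (1 / 16 : ℝ) =
      (Y : ℝ) ^ (1 / 8 : ℝ) := by
    rw [← Real.rpow_add hYpos]
    norm_num
  have hUquarter : (U : ℝ) ≤ (Y : ℝ) ^ (1 / 4 : ℝ) :=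
    hceil.trans (Real.rpow_le_rpow_of_exponent_le hY1 (by norm_num))
  have hUtwo : (U : ℝ) ≤ (Y : ℝ) ^ (1 / 8 : ℝ) :=
    hceil.trans (Real.rpow_le_rpow_of_exponent_le hY1 (by norm_num))
  have hUU : ((U * U : ℕ) : ℝ) ≤ (Y : ℝ) ^ (1 / 8 : ℝ) := by
    rw [← hsq2]
    push_cast
    exact mul_le_mul hceil hceil (by positivity) (by positivity)
  have hUltY : U ≤ Y := by
    have h5 : (U : ℝ) ≤ (Y : ℝ) ^ (1 : ℝ) :=
      hUquarter.trans (Real.rpow_le_rpow_of_exponent_le hY1 (by norm_num))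
    rw [Real.rpow_one] at h5
    exact_mod_cast h5
  -- the three statements
  have e3 := h2 Y hYY2 q r hq hqB hr K₁ hK U U hUlow hUquarter hUlow hUquarter
  have e1 := h3 Y hYY3 q r hq hqB hr K₁ hK U
    (fun b => (((ArithmeticFunction.moebius b : ℤ) : ℝ) : ℂ)) 1 hUtwo
    (by
      intro b
      rw [Complex.norm_real, Real.norm_eq_abs]
      have h6 : |((ArithmeticFunction.moebius b : ℤ) : ℝ)| ≤ 1 := by
        rw [← Int.cast_abs]
        exact_mod_cast ArithmeticFunction.abs_moebius_le_one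
      refine h6.trans ?_
      rw [Real.le_log_iff_exp_le (by positivity)]
      have := Real.exp_one_lt_d9
      have hb : (0 : ℝ) ≤ b := Nat.cast_nonneg b
      linarith) le_rfl
  have e2 := h3 Y hYY3 q r hq hqB hr K₁ hK (U * U)
    (fun b => (((L1 U * m1 U) b : ℝ) : ℂ)) 0 hUU
    (by
      intro b
      rw [Complex.norm_real, Real.norm_eq_abs]
      exact gamma_bound U U b) (by norm_num)
  set s : Finset ℕ := (Ioc Y (3 * Y)).filter (fun n => n % q = r % q) with hs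
  set F1 : ℕ → ℂ := fun n => ∑ b ∈ n.divisors.filter (fun b => b ≤ U),
      (((ArithmeticFunction.moebius b : ℤ) : ℝ) : ℂ) *
        (((Real.log ((n / b : ℕ) : ℝ)) ^ 1 : ℝ) : ℂ) with hF1
  set F2 : ℕ → ℂ := fun n => ∑ b ∈ n.divisors.filter (fun b => b ≤ U * U),
      (((L1 U * m1 U) b : ℝ) : ℂ) * (((Real.log ((n / b : ℕ) : ℝ)) ^ 0 : ℝ) : ℂ) with hF2
  set F3 : ℕ → ℂ := fun n => ∑ x ∈ n.divisorsAntidiagonal.filter
      (fun x => U < x.1 ∧ U < x.2), (alU U x.1 : ℂ) * (ArithmeticFunction.vonMangoldt x.2 : ℂ)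
    with hF3
  have hid : ∀ n ∈ s, (ArithmeticFunction.vonMangoldt n : ℂ) = F1 n - F2 n - F3 n := by
    intro n hn
    have hn1 : Y < n := (Finset.mem_Ioc.1 (Finset.mem_filter.1 hn).1).1
    have hv := vaughan U U n hU1 (lt_of_le_of_lt hUltY hn1)
    rw [hF1, hF2, hF3]
    simp only [pow_one, pow_zero, Complex.ofReal_one, mul_one]
    have hv2 := congrArg (fun x : ℝ => (x : ℂ)) hv
    simp only [Complex.ofReal_sub, Complex.ofReal_sum, Complex.ofReal_mul,
      Complex.ofReal_intCast] at hv2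
    simp only [Complex.ofReal_intCast]
    exact hv2
  -- larger threshold
  have hmono : ∀ (K' : ℕ), K' ≤ max K2 K3 →
      (FK K₁).filter (fun k : ℤ => (Real.log Y) ^ (max K2 K3) ≤ |(k : ℝ)|) ⊆
      (FK K₁).filter (fun k : ℤ => (Real.log Y) ^ K' ≤ |(k : ℝ)|) := by
    intro K' hK' k hk
    rw [Finset.mem_filter] at hk ⊢
    exact ⟨hk.1, (pow_le_pow_right₀ (by linarith) hK').trans hk.2⟩
  have b1 : ∑ k ∈ (FK K₁).filter (fun k : ℤ => (Real.log Y) ^ (max K2 K3) ≤ |(k : ℝ)|),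
      ‖DP s F1 k‖ ^ 2 ≤ (Y : ℝ) ^ 2 / (Real.log Y) ^ (A + 1) :=
    (Finset.sum_le_sum_of_subset_of_nonneg (hmono K3 (le_max_right _ _))
      (fun _ _ _ => by positivity)).trans e1
  have b2 : ∑ k ∈ (FK K₁).filter (fun k : ℤ => (Real.log Y) ^ (max K2 K3) ≤ |(k : ℝ)|),
      ‖DP s F2 k‖ ^ 2 ≤ (Y : ℝ) ^ 2 / (Real.log Y) ^ (A + 1) :=
    (Finset.sum_le_sum_of_subset_of_nonneg (hmono K3 (le_max_right _ _))
      (fun _ _ _ => by positivity)).trans e2
  have b3 : ∑ k ∈ (FK K₁).filter (fun k : ℤ => (Real.log Y) ^ (max K2 K3) ≤ |(k : ℝ)|),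
      ‖DP s F3 k‖ ^ 2 ≤ (Y : ℝ) ^ 2 / (Real.log Y) ^ (A + 1) :=
    (Finset.sum_le_sum_of_subset_of_nonneg (hmono K2 (le_max_left _ _))
      (fun _ _ _ => by positivity)).trans e3
  calc ∑ k ∈ (FK K₁).filter (fun k : ℤ => (Real.log Y) ^ (max K2 K3) ≤ |(k : ℝ)|),
        ‖DP s (fun n => (ArithmeticFunction.vonMangoldt n : ℂ)) k‖ ^ 2
      ≤ ∑ k ∈ (FK K₁).filter (fun k : ℤ => (Real.log Y) ^ (max K2 K3) ≤ |(k : ℝ)|),
        3 * (‖DP s F1 k‖ ^ 2 + ‖DP s F2 k‖ ^ 2 + ‖DP s F3 k‖ ^ 2) :=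
        Finset.sum_le_sum fun k _ => dp_split s _ F1 F2 F3 hid k
    _ = 3 * ((∑ k ∈ (FK K₁).filter (fun k : ℤ => (Real.log Y) ^ (max K2 K3) ≤ |(k : ℝ)|),
          ‖DP s F1 k‖ ^ 2) + (∑ k ∈ (FK K₁).filter (fun k : ℤ => (Real.log Y) ^ (max K2 K3) ≤
          |(k : ℝ)|), ‖DP s F2 k‖ ^ 2) + ∑ k ∈ (FK K₁).filter (fun k : ℤ =>
          (Real.log Y) ^ (max K2 K3) ≤ |(k : ℝ)|), ‖DP s F3 k‖ ^ 2) := by
        rw [← Finset.mul_sum, Finset.sum_add_distrib, Finset.sum_add_distrib]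
    _ ≤ 9 * ((Y : ℝ) ^ 2 / (Real.log Y) ^ (A + 1)) := by linarith
    _ ≤ (Y : ℝ) ^ 2 / (Real.log Y) ^ A := by
        have hpos : (0 : ℝ) < (Real.log Y) ^ A := by positivity
        rw [pow_succ (Real.log Y) A, ← mul_div_assoc, div_le_div_iff₀ (by positivity) hpos]
        have : 9 * (Y : ℝ) ^ 2 * (Real.log Y) ^ A ≤ Real.log Y * ((Y : ℝ) ^ 2 * (Real.log Y) ^ A) := by
          have h7 : 0 ≤ (Y : ℝ) ^ 2 * (Real.log Y) ^ A := by positivity
          nlinarith
        linarith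

end Pool.Agent.helper24_UT.Frl2
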