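import Pool.Agent.H27.G.R_pool_sql_team_seeded_620a6dc7.helper24_UT_.Stm

set_option autoImplicit false

namespace Pool.Agent.helper24_UT.Gb

open Finset
open Pool.Agent.helper24_UT
open Pool.Agent.H376R2.MR (ch er DP FK)

theorem cmsq {f : ℕ → ℂ} (hf : CM f) : CM (fun n => f n ^ 2) where
  one := by simp [hf.one]
  mul := by
    intro m n hm hn
    simp only [hf.mul m n hm hn]
    ring
  norm_le := by
    intro n
    rw [norm_pow]
    exact pow_le_one₀ (norm_nonneg _) (hf.norm_le n)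

/-- the recursion, abstract form -/
theorem recBound (A : ℝ) (hA : 1 ≤ A) (J : ℕ) : ∃ D : ℝ, 1 ≤ D ∧ ∀ (Q : ℝ) (F G : ℕ → ℂ), 0 ≤ Q →
    F 0 ≠ 0 → (∀ j, 1 ≤ j → j ≤ J + 1 → ‖F j‖ ≤ A * Q ^ j * ‖F 0‖) →
    (∀ j, j ≤ J → F (j + 1) = ∑ i ∈ range (j + 1), (j.choose i : ℂ) * G i * F (j - i)) →
    ∀ j, j ≤ J → ‖G j‖ ≤ D * Q ^ (j + 1) := by
  induction J with
  | zero =>
    refine ⟨A, hA, ?_⟩
    intro Q F G hQ hF0 hF hrec j hj
    obtain rfl : j = 0 := by omega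
    have h1 := hrec 0 le_rfl
    simp only [zero_add, range_one, sum_singleton, Nat.choose_self, Nat.cast_one, one_mul,
      Nat.sub_self] at h1
    have h2 := hF 1 le_rfl le_rfl
    rw [h1, norm_mul] at h2
    have hpos : 0 < ‖F 0‖ := norm_pos_iff.2 hF0
    simpa using le_of_mul_le_mul_right h2 hpos
  | succ J ih =>
    obtain ⟨D, hD, h⟩ := ih
    refine ⟨D + A + (J + 1 : ℕ) * 2 ^ (J + 1) * D * A, ?_, ?_⟩
    · have : (0 : ℝ) ≤ (J + 1 : ℕ) * 2 ^ (J + 1) * D * A := by positivity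
      linarith
    intro Q F G hQ hF0 hF hrec j hj
    have hpos : 0 < ‖F 0‖ := norm_pos_iff.2 hF0
    have hold := h Q F G hQ hF0 (fun j h1 h2 => hF j h1 (by omega)) (fun j h1 => hrec j (by omega))
    have hD0 : 0 ≤ D := by linarith
    have hA0 : 0 ≤ A := by linarith
    rcases Nat.lt_or_ge j (J + 1) with hlt | hge
    · refine (hold j (by omega)).trans ?_
      apply mul_le_mul_of_nonneg_right _ (pow_nonneg hQ _)
      have : (0 : ℝ) ≤ (J + 1 : ℕ) * 2 ^ (J + 1) * D * A := by positivity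
      linarith
    · obtain rfl : j = J + 1 := by omega
      have h1 := hrec (J + 1) le_rfl
      rw [sum_range_succ] at h1
      simp only [Nat.choose_self, Nat.cast_one, one_mul, Nat.sub_self] at h1
      have h2 : G (J + 1) * F 0 = F (J + 1 + 1) -
          ∑ i ∈ range (J + 1), ((J + 1).choose i : ℂ) * G i * F (J + 1 - i) := by
        rw [h1]; ring
      have h3 : ‖G (J + 1)‖ * ‖F 0‖ ≤ A * Q ^ (J + 1 + 1) * ‖F 0‖ +
          ∑ i ∈ range (J + 1), (2 ^ (J + 1) * D * A) * Q ^ (J + 1 + 1) * ‖F 0‖ := by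
        rw [← norm_mul, h2]
        refine (norm_sub_le _ _).trans (add_le_add (hF _ (by omega) (by omega)) ?_)
        refine (norm_sum_le _ _).trans (sum_le_sum ?_)
        intro i hi
        rw [mem_range] at hi
        rw [norm_mul, norm_mul]
        have e1 : ‖((J + 1).choose i : ℂ)‖ ≤ 2 ^ (J + 1) := by
          rw [Complex.norm_natCast]
          exact_mod_cast Nat.choose_le_two_pow (J + 1) i
        have e2 := hold i (by omega)
        have e3 := hF (J + 1 - i) (by omega) (by omega)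
        have e4 : Q ^ (J + 1 + 1) = Q ^ (i + 1) * Q ^ (J + 1 - i) := by
          rw [← pow_add]; congr 1; omega
        calc ‖((J + 1).choose i : ℂ)‖ * ‖G i‖ * ‖F (J + 1 - i)‖
            ≤ 2 ^ (J + 1) * (D * Q ^ (i + 1)) * (A * Q ^ (J + 1 - i) * ‖F 0‖) := by
              gcongr
          _ = (2 ^ (J + 1) * D * A) * Q ^ (J + 1 + 1) * ‖F 0‖ := by rw [e4]; ring
      rw [sum_const, card_range, nsmul_eq_mul] at h3
      have h4 : ‖G (J + 1)‖ * ‖F 0‖ ≤
          ((A + (J + 1 : ℕ) * 2 ^ (J + 1) * D * A) * Q ^ (J + 1 + 1)) * ‖F 0‖ := by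
        refine h3.trans (le_of_eq ?_)
        ring
      have h5 := le_of_mul_le_mul_right h4 hpos
      refine h5.trans ?_
      apply mul_le_mul_of_nonneg_right _ (pow_nonneg hQ _)
      linarith

theorem main : S_RS → S_RZ → S_FB → S_341 → S_CONV → S_GB := by
  intro hRS hRZ hFB h341 hCONV η hη0 hη1 J
  obtain ⟨L1, hL1, hRS'⟩ := hRS η hη0 hη1 (J + 4)
  obtain ⟨CZ, hCZ, hRZ'⟩ := hRZ
  obtain ⟨CF, L2, hCF, hL2, hFB'⟩ := hFB η hη0 hη1 (J + 1)
  set M : ℝ := 2 * CZ * CF with hM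
  have hM1 : 1 ≤ M := by
    rw [hM]; nlinarith
  obtain ⟨D, hD, hrec⟩ := recBound (CF * M) (by nlinarith) J
  refine ⟨J + 4 + 2, D, max L1 L2, hD, le_max_of_le_left hL1, ?_⟩
  intro L hL U f hf hT1 hT2 σ u hσ1 hσ2 hu
  have hLL1 : L1 ≤ L := (le_max_left _ _).trans hL
  have hLL2 : L2 ≤ L := (le_max_right _ _).trans hL
  have hLpos : (0 : ℝ) < L := by linarith
  have hLone : (1 : ℝ) ≤ L := by linarith
  have hR1 := hRS' L hLL1 U f hf hT1
  have hR2 := hRS' L hLL1 (2 * U) _ (cmsq hf) hT2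
  have hB1 := hFB' L hLL2 U f hf hR1 σ u hσ1 hσ2 hu
  have hB2 := hFB' L hLL2 (2 * U) _ (cmsq hf) hR2 σ (2 * u) hσ1 hσ2
    (by rw [abs_mul, abs_two]; linarith) 0 (by omega)
  set y : ℝ := yy L η with hy
  have hLinv : 0 < 1 / L := by positivity
  have hσ : 1 < σ := by linarith
  have hexp0 : (0 : ℝ) ≤ 1 - 17 * η / 32 := by linarith
  have hlogy : Real.log y = L ^ (1 - 17 * η / 32) := by
    rw [hy, yy, Real.log_exp]
  have hlogy1 : (1 : ℝ) ≤ L ^ (1 - 17 * η / 32) := Real.one_le_rpow hLone hexp0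
  have hy2 : 2 ≤ y := by
    rw [hy, yy]
    have := Real.add_one_le_exp (L ^ (1 - 17 * η / 32))
    linarith
  have hZ := hRZ' y σ hy2 hσ hσ2
  have hZ' : ‖LSeries (ro y (fun _ => 1)) (σ : ℂ)‖ ≤ 2 * CZ * L ^ (17 * η / 32) := by
    refine hZ.trans ?_
    have e1 : 1 / ((σ - 1) * Real.log y) ≤ L ^ (17 * η / 32) := by
      rw [hlogy, div_le_iff₀ (by
        apply mul_pos
        · linarith
        · linarith)]
      have e2 : 1 / L ≤ σ - 1 := by linarith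
      calc (1 : ℝ) = L ^ (17 * η / 32) * (1 / L * L ^ (1 - 17 * η / 32)) := by
            rw [Real.rpow_sub hLpos, Real.rpow_one]
            have : L ^ (17 * η / 32) ≠ 0 := (Real.rpow_pos_of_pos hLpos _).ne'
            field_simp
        _ ≤ L ^ (17 * η / 32) * ((σ - 1) * L ^ (1 - 17 * η / 32)) := by
            gcongr
    have e3 : (1 : ℝ) ≤ L ^ (17 * η / 32) := Real.one_le_rpow hLone (by positivity)
    have : CZ * (1 + 1 / ((σ - 1) * Real.log y)) ≤ CZ * (2 * L ^ (17 * η / 32)) := by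
      apply mul_le_mul_of_nonneg_left _ (by linarith)
      linarith
    linarith
  set s : ℂ := (σ : ℂ) + (u : ℂ) * Complex.I with hs
  have hsre : s.re = σ := by
    simp [hs]
  set F : ℕ → ℂ := fun j => LSeries (fun n => ro y f n * (((Real.log n) ^ j : ℝ) : ℂ)) s with hF
  set G : ℕ → ℂ := fun j => LSeries (fun n => (ArithmeticFunction.vonMangoldt n : ℂ) * ro y f n *
    (((Real.log n) ^ j : ℝ) : ℂ)) s with hG
  have hF0 : LSeries (ro y f) s = F 0 := by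
    rw [hF]
    simp only [pow_zero, Complex.ofReal_one, mul_one]
  have hE0 : LSeries (fun n => ro y (fun n => f n ^ 2) n * (((Real.log n) ^ 0 : ℝ) : ℂ))
      ((σ : ℂ) + ((2 * u : ℝ) : ℂ) * Complex.I) =
      LSeries (ro y (fun n => f n ^ 2)) ((σ : ℂ) + (2 * u : ℂ) * Complex.I) := by
    simp only [pow_zero, Complex.ofReal_one, mul_one]
    push_cast
    rfl
  have h341' := h341 y σ u f hf hσ
  rw [← hs, hF0] at h341'
  rw [hE0] at hB2
  have hB2' : ‖LSeries (ro y (fun n => f n ^ 2)) ((σ : ℂ) + (2 * u : ℂ) * Complex.I)‖ ≤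
      CF * L ^ (η / 32) := by
    refine hB2.trans (le_of_eq ?_)
    simp
  have hFM : 1 ≤ M * L ^ (13 * η / 32) * ‖F 0‖ := by
    have hp17 : 0 < L ^ (17 * η / 32) := Real.rpow_pos_of_pos hLpos _
    have hp1 : 0 < L ^ (η / 32) := Real.rpow_pos_of_pos hLpos _
    have hp13 : 0 < L ^ (13 * η / 32) := Real.rpow_pos_of_pos hLpos _
    have e1 : (1 : ℝ) ≤ (2 * CZ * L ^ (17 * η / 32)) ^ 3 * ‖F 0‖ ^ 4 * (CF * L ^ (η / 32)) := by
      refine h341'.trans ?_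
      gcongr
    have e2 : (L ^ (17 * η / 32)) ^ 3 * L ^ (η / 32) = (L ^ (13 * η / 32)) ^ 4 := by
      rw [← Real.rpow_natCast, ← Real.rpow_natCast, ← Real.rpow_mul hLpos.le,
        ← Real.rpow_mul hLpos.le, ← Real.rpow_add hLpos]
      congr 1
      push_cast
      ring
    have e3 : (2 * CZ) ^ 3 * CF ≤ M ^ 4 := by
      rw [hM]
      have a1 : (1 : ℝ) ≤ (2 * CZ) := by linarith
      have a2 : (1 : ℝ) ≤ CF ^ 3 := one_le_pow₀ hCF
      have a3 : (0 : ℝ) < (2 * CZ) ^ 3 * CF := by positivity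
      have a4 : (1 : ℝ) ≤ (2 * CZ) * CF ^ 3 := by nlinarith
      calc (2 * CZ) ^ 3 * CF = ((2 * CZ) ^ 3 * CF) * 1 := by ring
        _ ≤ ((2 * CZ) ^ 3 * CF) * ((2 * CZ) * CF ^ 3) := by gcongr
        _ = (2 * CZ * CF) ^ 4 := by ring
    have e4 : (1 : ℝ) ≤ (M * L ^ (13 * η / 32) * ‖F 0‖) ^ 4 := by
      calc (1 : ℝ) ≤ (2 * CZ * L ^ (17 * η / 32)) ^ 3 * ‖F 0‖ ^ 4 * (CF * L ^ (η / 32)) := e1
        _ = ((2 * CZ) ^ 3 * CF) * (((L ^ (17 * η / 32)) ^ 3 * L ^ (η / 32)) * ‖F 0‖ ^ 4) := by ring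
        _ = ((2 * CZ) ^ 3 * CF) * (((L ^ (13 * η / 32)) ^ 4) * ‖F 0‖ ^ 4) := by rw [e2]
        _ ≤ M ^ 4 * (((L ^ (13 * η / 32)) ^ 4) * ‖F 0‖ ^ 4) := by gcongr
        _ = (M * L ^ (13 * η / 32) * ‖F 0‖) ^ 4 := by ring
    have e5 : 0 ≤ M * L ^ (13 * η / 32) * ‖F 0‖ := by positivity
    by_contra hlt
    push Not at hlt
    have := pow_lt_one₀ e5 hlt (n := 4) (by norm_num)
    linarith
  have hF0ne : F 0 ≠ 0 := by
    intro h0
    rw [h0, norm_zero, mul_zero] at hFM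
    linarith
  set Q : ℝ := L ^ (1 - η / 16) with hQ
  have hQ0 : 0 ≤ Q := (Real.rpow_pos_of_pos hLpos _).le
  have hFb : ∀ j, 1 ≤ j → j ≤ J + 1 → ‖F j‖ ≤ CF * M * Q ^ j * ‖F 0‖ := by
    intro j hj1 hj2
    have e1 := hB1 j hj2
    have e2 : ‖F j‖ ≤ CF * L ^ ((1 - η / 2) * j + η / 32 : ℝ) := e1
    have hj1' : (1 : ℝ) ≤ j := by exact_mod_cast hj1
    have e3 : L ^ ((1 - η / 2) * j + η / 32 : ℝ) * L ^ (13 * η / 32) ≤ Q ^ j := by
      rw [hQ, ← Real.rpow_natCast, ← Real.rpow_mul hLpos.le, ← Real.rpow_add hLpos]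
      apply Real.rpow_le_rpow_of_exponent_le hLone
      nlinarith
    have hpos : 0 < L ^ ((1 - η / 2) * j + η / 32 : ℝ) := Real.rpow_pos_of_pos hLpos _
    calc ‖F j‖ ≤ CF * L ^ ((1 - η / 2) * j + η / 32 : ℝ) * 1 := by rw [mul_one]; exact e2
      _ ≤ CF * L ^ ((1 - η / 2) * j + η / 32 : ℝ) * (M * L ^ (13 * η / 32) * ‖F 0‖) := by
          gcongr
      _ = CF * M * (L ^ ((1 - η / 2) * j + η / 32 : ℝ) * L ^ (13 * η / 32)) * ‖F 0‖ := by ring
      _ ≤ CF * M * Q ^ j * ‖F 0‖ := by gcongr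
  have hGb := hrec Q F G hQ0 hF0ne hFb (fun j _ => hCONV y s f j hf (by rw [hsre]; exact hσ)) J le_rfl
  refine hGb.trans (le_of_eq ?_)
  rw [hQ, ← Real.rpow_natCast, ← Real.rpow_mul hLpos.le]
  push_cast
  rfl

end Pool.Agent.helper24_UT.Gb
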