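import Pool.Agent.H27.G.R_pool_sql_team_seeded_620a6dc7.helper24_UT_.Stm

set_option autoImplicit false

namespace Pool.Agent.helper24_UT.M1

open Finset
open Pool.Agent.helper24_UT
open Pool.Agent.H376R2.MR (ch er DP FK)

/-- partial sums of `mu f` -/
noncomputable def SM (f : ℕ → ℂ) (N : ℕ) : ℂ :=
  ∑ n ∈ Icc 1 N, ((ArithmeticFunction.moebius n : ℤ) : ℂ) * f n

/-- partial sums of `Lambda f` -/
noncomputable def SL (f : ℕ → ℂ) (N : ℕ) : ℂ :=
  ∑ n ∈ Icc 1 N, (ArithmeticFunction.vonMangoldt n : ℂ) * f n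

/-- `mu f` as an arithmetic function -/
noncomputable def aM (f : ℕ → ℂ) : ArithmeticFunction ℂ :=
  ⟨fun n => ((ArithmeticFunction.moebius n : ℤ) : ℂ) * f n, by simp⟩

/-- `Lambda f` restricted to `n > m0` as an arithmetic function -/
noncomputable def aL (f : ℕ → ℂ) (m0 : ℕ) : ArithmeticFunction ℂ :=
  ⟨fun n => if m0 < n then (ArithmeticFunction.vonMangoldt n : ℂ) * f n else 0, by simp⟩

theorem Icc_eq (N : ℕ) : Icc 1 N = Ioc 0 N := rfl

/-- `mu log = - Lambda * mu` -/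
theorem moebius_log (n : ℕ) (hn : 1 ≤ n) :
    ((ArithmeticFunction.moebius n : ℤ) : ℝ) * Real.log n =
      -∑ x ∈ n.divisorsAntidiagonal, ArithmeticFunction.vonMangoldt x.1 *
        ((ArithmeticFunction.moebius x.2 : ℤ) : ℝ) := by
  set F : ArithmeticFunction ℝ :=
    ⟨fun n => ((ArithmeticFunction.moebius n : ℤ) : ℝ) * Real.log n, by simp⟩ with hF
  have h1 : F * (ArithmeticFunction.zeta : ArithmeticFunction ℝ) =
      -ArithmeticFunction.vonMangoldt := by
    ext k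
    rw [ArithmeticFunction.coe_mul_zeta_apply, ArithmeticFunction.neg_apply,
      ← ArithmeticFunction.sum_moebius_mul_log_eq]
    rfl
  have h2 : F = -(ArithmeticFunction.vonMangoldt *
      ((ArithmeticFunction.moebius : ArithmeticFunction ℤ) : ArithmeticFunction ℝ)) := by
    calc F = F * (((ArithmeticFunction.zeta : ArithmeticFunction ℕ) : ArithmeticFunction ℝ) *
          ((ArithmeticFunction.moebius : ArithmeticFunction ℤ) : ArithmeticFunction ℝ)) := by
            rw [ArithmeticFunction.coe_zeta_mul_coe_moebius, mul_one]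
      _ = _ := by
        rw [← mul_assoc, h1]
        ext k
        rw [ArithmeticFunction.neg_apply, ArithmeticFunction.mul_apply,
          ArithmeticFunction.mul_apply, ← Finset.sum_neg_distrib]
        exact Finset.sum_congr rfl fun x _ => by rw [ArithmeticFunction.neg_apply, neg_mul]
  have h3 := congrArg (fun G : ArithmeticFunction ℝ => G n) h2
  simp only [hF] at h3
  rw [ArithmeticFunction.neg_apply, ArithmeticFunction.mul_apply] at h3
  exact h3

/-- the twisted identity -/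
theorem moebius_log_f {f : ℕ → ℂ} (hf : CM f) (n : ℕ) (hn : 1 ≤ n) :
    ((ArithmeticFunction.moebius n : ℤ) : ℂ) * f n * (Real.log n : ℂ) =
      -(aL f 0 * aM f) n := by
  rw [ArithmeticFunction.mul_apply]
  have h1 : ∑ x ∈ n.divisorsAntidiagonal, (aL f 0) x.1 * (aM f) x.2 =
      ∑ x ∈ n.divisorsAntidiagonal, ((ArithmeticFunction.vonMangoldt x.1 *
        ((ArithmeticFunction.moebius x.2 : ℤ) : ℝ) : ℝ) : ℂ) * f n := by
    refine Finset.sum_congr rfl fun x hx => ?_
    rw [Nat.mem_divisorsAntidiagonal] at hx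
    have hx1 : 0 < x.1 := Nat.pos_of_ne_zero fun h => hx.2 (by rw [← hx.1, h, zero_mul])
    have hx2 : 0 < x.2 := Nat.pos_of_ne_zero fun h => hx.2 (by rw [← hx.1, h, mul_zero])
    have e1 : (aL f 0) x.1 = (ArithmeticFunction.vonMangoldt x.1 : ℂ) * f x.1 := by
      change (if 0 < x.1 then _ else _) = _
      rw [if_pos hx1]
    have e2 : (aM f) x.2 = ((ArithmeticFunction.moebius x.2 : ℤ) : ℂ) * f x.2 := rfl
    rw [e1, e2, ← hx.1, hf.mul x.1 x.2 hx1 hx2]
    push_cast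
    ring
  rw [h1, ← Finset.sum_mul, ← Complex.ofReal_sum]
  have h2 := moebius_log n hn
  have h3 : ((ArithmeticFunction.moebius n : ℤ) : ℂ) * (Real.log n : ℂ) =
      -((∑ x ∈ n.divisorsAntidiagonal, ArithmeticFunction.vonMangoldt x.1 *
        ((ArithmeticFunction.moebius x.2 : ℤ) : ℝ) : ℝ) : ℂ) := by
    rw [← Complex.ofReal_neg, ← h2]
    push_cast
    ring
  linear_combination (f n) * h3

/-- `sum of mu f log` -/
theorem sum_moebius_log {f : ℕ → ℂ} (hf : CM f) (N : ℕ) :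
    ∑ n ∈ Icc 1 N, ((ArithmeticFunction.moebius n : ℤ) : ℂ) * f n * (Real.log n : ℂ) =
      -∑ m ∈ Icc 1 N, (ArithmeticFunction.vonMangoldt m : ℂ) * f m * SM f (N / m) := by
  have h1 : ∑ n ∈ Icc 1 N, ((ArithmeticFunction.moebius n : ℤ) : ℂ) * f n * (Real.log n : ℂ) =
      -∑ n ∈ Ioc 0 N, (aL f 0 * aM f) n := by
    rw [← Finset.sum_neg_distrib]
    refine Finset.sum_congr rfl fun n hn => ?_
    exact moebius_log_f hf n (Finset.mem_Icc.1 hn).1
  rw [h1, ArithmeticFunction.sum_Ioc_mul_eq_sum_sum]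
  congr 1
  refine Finset.sum_congr rfl fun m hm => ?_
  have hm1 : 0 < m := (Finset.mem_Icc.1 hm).1
  have e1 : (aL f 0) m = (ArithmeticFunction.vonMangoldt m : ℂ) * f m := by
    change (if 0 < m then _ else _) = _
    rw [if_pos hm1]
  rw [e1]
  rfl

/-- the tail of the double sum -/
theorem sum_tail (f : ℕ → ℂ) (N m0 : ℕ) :
    ∑ m ∈ Ioc m0 N, (ArithmeticFunction.vonMangoldt m : ℂ) * f m * SM f (N / m) =
      ∑ k ∈ Icc 1 N, ((ArithmeticFunction.moebius k : ℤ) : ℂ) * f k *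
        ∑ m ∈ Ioc 0 (N / k), (aL f m0) m := by
  have h1 := ArithmeticFunction.sum_Ioc_mul_eq_sum_sum (aL f m0) (aM f) N
  have h2 := ArithmeticFunction.sum_Ioc_mul_eq_sum_sum (aM f) (aL f m0) N
  rw [mul_comm, h1] at h2
  have h3 : ∑ k ∈ Icc 1 N, ((ArithmeticFunction.moebius k : ℤ) : ℂ) * f k *
        ∑ m ∈ Ioc 0 (N / k), (aL f m0) m = ∑ n ∈ Ioc 0 N, (aM f) n *
        ∑ m ∈ Ioc 0 (N / n), (aL f m0) m := rfl
  rw [h3, ← h2]
  have h4 : Ioc m0 N = (Ioc 0 N).filter (fun m => m0 < m) := by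
    ext m
    simp only [Finset.mem_Ioc, Finset.mem_filter]
    omega
  rw [h4, Finset.sum_filter]
  refine Finset.sum_congr rfl fun m _ => ?_
  change _ = (if m0 < m then _ else _) * _
  split_ifs
  · rfl
  · rw [zero_mul]

theorem sum_aL (f : ℕ → ℂ) (m0 x : ℕ) (h : m0 ≤ x) :
    ∑ m ∈ Ioc 0 x, (aL f m0) m = SL f x - SL f m0 := by
  have h1 : ∑ m ∈ Ioc 0 x, (aL f m0) m =
      ∑ m ∈ Ioc m0 x, (ArithmeticFunction.vonMangoldt m : ℂ) * f m := by
    have h4 : Ioc m0 x = (Ioc 0 x).filter (fun m => m0 < m) := by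
      ext m
      simp only [Finset.mem_Ioc, Finset.mem_filter]
      omega
    rw [h4, Finset.sum_filter]
    rfl
  rw [h1]
  unfold SL
  rw [Icc_eq, Icc_eq, eq_sub_iff_add_eq, add_comm]
  exact Finset.sum_Ioc_consecutive _ (Nat.zero_le _) h

theorem sum_aL_zero (f : ℕ → ℂ) (m0 x : ℕ) (h : x ≤ m0) :
    ∑ m ∈ Ioc 0 x, (aL f m0) m = 0 := by
  refine Finset.sum_eq_zero fun m hm => ?_
  change (if m0 < m then _ else _) = _
  rw [if_neg]
  rw [Finset.mem_Ioc] at hm
  omega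

theorem norm_moebius_mul_le {f : ℕ → ℂ} (hf : CM f) (n : ℕ) :
    ‖((ArithmeticFunction.moebius n : ℤ) : ℂ) * f n‖ ≤ 1 := by
  rw [norm_mul, Complex.norm_intCast]
  have h1 : |((ArithmeticFunction.moebius n : ℤ) : ℝ)| ≤ 1 := by
    exact_mod_cast ArithmeticFunction.abs_moebius_le_one
  calc _ ≤ 1 * 1 := mul_le_mul h1 (hf.norm_le n) (norm_nonneg _) zero_le_one
    _ = 1 := mul_one 1

theorem norm_SM_le {f : ℕ → ℂ} (hf : CM f) (N : ℕ) : ‖SM f N‖ ≤ N := by
  unfold SM
  refine (norm_sum_le _ _).trans ?_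
  refine (Finset.sum_le_sum fun n _ => norm_moebius_mul_le hf n).trans ?_
  rw [Finset.sum_const, Nat.card_Icc, nsmul_eq_mul, mul_one]
  simp

/-- Mertens -/
theorem mertens : ∃ C : ℝ, 1 ≤ C ∧ ∀ x : ℕ, 1 ≤ x →
    ∑ m ∈ Icc 1 x, ArithmeticFunction.vonMangoldt m / (m : ℝ) ≤ Real.log x + C := by
  refine ⟨Real.log 4 + 4, by linarith [Real.log_nonneg (by norm_num : (1 : ℝ) ≤ 4)], fun x hx => ?_⟩
  have hx0 : (0 : ℝ) < x := by exact_mod_cast hx
  have h1 := ArithmeticFunction.sum_Ioc_mul_zeta_eq_sum ArithmeticFunction.vonMangoldt x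
  rw [ArithmeticFunction.vonMangoldt_mul_zeta] at h1
  have h2 : ∑ n ∈ Ioc 0 x, ArithmeticFunction.log n ≤ x * Real.log x := by
    have h3 : ∀ n ∈ Ioc 0 x, ArithmeticFunction.log n ≤ Real.log x := by
      intro n hn
      rw [Finset.mem_Ioc] at hn
      rw [ArithmeticFunction.log_apply]
      exact Real.log_le_log (by exact_mod_cast hn.1) (by exact_mod_cast hn.2)
    refine (Finset.sum_le_sum h3).trans ?_
    rw [Finset.sum_const, Nat.card_Ioc, nsmul_eq_mul, Nat.sub_zero]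
  have h3 : ∀ n ∈ Ioc 0 x, (x : ℝ) * (ArithmeticFunction.vonMangoldt n / n) -
      ArithmeticFunction.vonMangoldt n ≤ ArithmeticFunction.vonMangoldt n * ((x / n : ℕ) : ℝ) := by
    intro n hn
    rw [Finset.mem_Ioc] at hn
    have hn0 : (0 : ℝ) < n := by exact_mod_cast hn.1
    have h4 : (x : ℝ) / n - 1 ≤ ((x / n : ℕ) : ℝ) := by
      rw [← Nat.floor_div_eq_div (K := ℝ)]
      exact (Nat.sub_one_lt_floor _).le
    have h5 := mul_le_mul_of_nonneg_left h4 (ArithmeticFunction.vonMangoldt_nonneg (n := n))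
    calc _ = ArithmeticFunction.vonMangoldt n * ((x : ℝ) / n - 1) := by
          field_simp
      _ ≤ _ := h5
  have h4 := Finset.sum_le_sum h3
  rw [← h1, Finset.sum_sub_distrib, ← Finset.mul_sum] at h4
  have h5 : ∑ n ∈ Ioc 0 x, ArithmeticFunction.vonMangoldt n ≤ (Real.log 4 + 4) * x := by
    have h6 := Chebyshev.psi_le_const_mul_self (x := (x : ℝ)) hx0.le
    unfold Chebyshev.psi at h6
    rwa [Nat.floor_natCast] at h6
  have h6 : (x : ℝ) * ∑ n ∈ Ioc 0 x, ArithmeticFunction.vonMangoldt n / (n : ℝ) ≤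
      x * (Real.log x + (Real.log 4 + 4)) := by
    linarith
  exact le_of_mul_le_mul_left h6 hx0

/-- summation by parts -/
theorem abel_id (a : ℕ → ℂ) (N : ℕ) (hN : 1 ≤ N) :
    ∑ n ∈ Icc 1 N, a n * ((Real.log N : ℂ) - (Real.log n : ℂ)) =
      ∑ k ∈ Ico 1 N, (∑ n ∈ Icc 1 k, a n) * ((Real.log ((k : ℝ) + 1) : ℂ) - (Real.log k : ℂ)) := by
  induction N, hN using Nat.le_induction with
  | base => simp
  | succ N hN ih =>
    rw [Finset.sum_Ico_succ_top hN, ← ih, Finset.sum_Icc_succ_top (by omega)]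
    push_cast
    rw [sub_self, mul_zero, add_zero, Finset.sum_mul, ← Finset.sum_add_distrib]
    refine Finset.sum_congr rfl fun n _ => ?_
    ring

theorem step {C1 : ℝ} (hC1 : ∀ x : ℕ, 1 ≤ x →
    ∑ m ∈ Icc 1 x, ArithmeticFunction.vonMangoldt m / (m : ℝ) ≤ Real.log x + C1)
    {f : ℕ → ℂ} (hf : CM f) (N m0 : ℕ) (X e P : ℝ) (hX0 : 0 ≤ X) (he : 0 ≤ e) (hP : 0 ≤ P)
    (hm0 : 1 ≤ m0) (hm0N : m0 ≤ N) (hS : ∀ k : ℕ, X ≤ k → k ≤ N → ‖SM f k‖ ≤ e * k)
    (hdiv : ∀ m ∈ Icc 1 m0, X ≤ ((N / m : ℕ) : ℝ))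
    (hpsi : ∀ x : ℕ, m0 ≤ x → x ≤ N → ‖SL f x‖ ≤ P * x) :
    ‖SM f N‖ * Real.log N ≤ (X + e * N) + e * N * (Real.log m0 + C1) +
      2 * P * N * (1 + Real.log N) := by
  have hN : 1 ≤ N := hm0.trans hm0N
  have hN0 : (0 : ℝ) < N := by exact_mod_cast hN
  have hlogN : 0 ≤ Real.log N := Real.log_nonneg (by exact_mod_cast hN)
  set a : ℕ → ℂ := fun n => ((ArithmeticFunction.moebius n : ℤ) : ℂ) * f n with ha
  have hSa : ∀ k, SM f k = ∑ n ∈ Icc 1 k, a n := fun _ => rfl
  -- the identity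
  have hid : SM f N * (Real.log N : ℂ) =
      (∑ k ∈ Ico 1 N, SM f k * ((Real.log ((k : ℝ) + 1) : ℂ) - (Real.log k : ℂ))) -
      (∑ m ∈ Icc 1 m0, (ArithmeticFunction.vonMangoldt m : ℂ) * f m * SM f (N / m)) -
      ∑ k ∈ Icc 1 N, a k * ∑ m ∈ Ioc 0 (N / k), (aL f m0) m := by
    have h1 := abel_id a N hN
    have h2 : ∑ n ∈ Icc 1 N, a n * ((Real.log N : ℂ) - (Real.log n : ℂ)) =
        SM f N * (Real.log N : ℂ) - ∑ n ∈ Icc 1 N, a n * (Real.log n : ℂ) := by
      rw [hSa, Finset.sum_mul, ← Finset.sum_sub_distrib]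
      exact Finset.sum_congr rfl fun n _ => by ring
    have h3 : ∑ n ∈ Icc 1 N, a n * (Real.log n : ℂ) =
        -∑ m ∈ Icc 1 N, (ArithmeticFunction.vonMangoldt m : ℂ) * f m * SM f (N / m) :=
      sum_moebius_log hf N
    have h4 : ∑ m ∈ Icc 1 N, (ArithmeticFunction.vonMangoldt m : ℂ) * f m * SM f (N / m) =
        (∑ m ∈ Icc 1 m0, (ArithmeticFunction.vonMangoldt m : ℂ) * f m * SM f (N / m)) +
        ∑ m ∈ Ioc m0 N, (ArithmeticFunction.vonMangoldt m : ℂ) * f m * SM f (N / m) := by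
      rw [Icc_eq, Icc_eq]
      exact (Finset.sum_Ioc_consecutive _ (Nat.zero_le _) hm0N).symm
    rw [h2, h3, h4, sum_tail] at h1
    simp only [← hSa] at h1
    linear_combination h1
  -- first sum
  have b1 : ‖∑ k ∈ Ico 1 N, SM f k * ((Real.log ((k : ℝ) + 1) : ℂ) - (Real.log k : ℂ))‖ ≤
      X + e * N := by
    have h1 : ∀ k ∈ Ico 1 N, ‖SM f k * ((Real.log ((k : ℝ) + 1) : ℂ) - (Real.log k : ℂ))‖ ≤
        (if (k : ℝ) < X then 1 else 0) + e := by
      intro k hk
      rw [Finset.mem_Ico] at hk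
      have hk0 : (0 : ℝ) < k := by exact_mod_cast hk.1
      have h2 : ‖(Real.log ((k : ℝ) + 1) : ℂ) - (Real.log k : ℂ)‖ ≤ 1 / k := by
        rw [← Complex.ofReal_sub, Complex.norm_real, Real.norm_eq_abs,
          ← Real.log_div (by positivity) hk0.ne']
        have h3 : 1 ≤ ((k : ℝ) + 1) / k := by
          rw [le_div_iff₀ hk0]
          linarith
        rw [abs_of_nonneg (Real.log_nonneg h3)]
        refine (Real.log_le_sub_one_of_pos (by positivity)).trans (le_of_eq ?_)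
        field_simp
        ring
      rw [norm_mul]
      have h4 := mul_le_mul_of_nonneg_left h2 (norm_nonneg (SM f k))
      refine h4.trans ?_
      rw [mul_one_div]
      split_ifs with h5
      · rw [div_le_iff₀ hk0]
        have h6 := norm_SM_le hf k
        nlinarith [mul_nonneg he hk0.le]
      · rw [not_lt] at h5
        rw [div_le_iff₀ hk0, zero_add]
        exact hS k h5 hk.2.le
    refine (norm_sum_le _ _).trans ((Finset.sum_le_sum h1).trans ?_)
    rw [Finset.sum_add_distrib, Finset.sum_const, Nat.card_Ico, nsmul_eq_mul, ← Finset.sum_filter,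
      Finset.sum_const, nsmul_eq_mul, mul_one]
    refine add_le_add ?_ ?_
    · have h2 : (Ico 1 N).filter (fun k : ℕ => (k : ℝ) < X) ⊆ Icc 1 ⌊X⌋₊ := by
        intro k hk
        rw [Finset.mem_filter, Finset.mem_Ico] at hk
        rw [Finset.mem_Icc]
        exact ⟨hk.1.1, Nat.le_floor hk.2.le⟩
      have h3 := Finset.card_le_card h2
      rw [Nat.card_Icc, Nat.add_sub_cancel] at h3
      exact le_trans (by exact_mod_cast h3) (Nat.floor_le hX0)
    · rw [mul_comm]
      refine mul_le_mul_of_nonneg_left ?_ he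
      exact_mod_cast Nat.sub_le N 1
  -- second sum
  have b2 : ‖∑ m ∈ Icc 1 m0, (ArithmeticFunction.vonMangoldt m : ℂ) * f m * SM f (N / m)‖ ≤
      e * N * (Real.log m0 + C1) := by
    have h1 : ∀ m ∈ Icc 1 m0, ‖(ArithmeticFunction.vonMangoldt m : ℂ) * f m * SM f (N / m)‖ ≤
        e * N * (ArithmeticFunction.vonMangoldt m / (m : ℝ)) := by
      intro m hm
      have hm1 := (Finset.mem_Icc.1 hm).1
      have hm0' : (0 : ℝ) < m := by exact_mod_cast hm1
      rw [norm_mul, norm_mul, Complex.norm_real, Real.norm_eq_abs,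
        abs_of_nonneg ArithmeticFunction.vonMangoldt_nonneg]
      have h2 := hS (N / m) (hdiv m hm) (Nat.div_le_self N m)
      have h3 : ((N / m : ℕ) : ℝ) ≤ N / m := Nat.cast_div_le
      have h4 : ‖SM f (N / m)‖ ≤ e * (N / m) := h2.trans (mul_le_mul_of_nonneg_left h3 he)
      calc _ ≤ ArithmeticFunction.vonMangoldt m * 1 * (e * (N / m)) :=
            mul_le_mul (mul_le_mul_of_nonneg_left (hf.norm_le m)
              ArithmeticFunction.vonMangoldt_nonneg) h4 (norm_nonneg _)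
              (mul_nonneg ArithmeticFunction.vonMangoldt_nonneg zero_le_one)
        _ = _ := by ring
    refine (norm_sum_le _ _).trans ((Finset.sum_le_sum h1).trans ?_)
    rw [← Finset.mul_sum]
    exact mul_le_mul_of_nonneg_left (hC1 m0 hm0) (mul_nonneg he hN0.le)
  -- third sum
  have b3 : ‖∑ k ∈ Icc 1 N, a k * ∑ m ∈ Ioc 0 (N / k), (aL f m0) m‖ ≤
      2 * P * N * (1 + Real.log N) := by
    have h1 : ∀ k ∈ Icc 1 N, ‖a k * ∑ m ∈ Ioc 0 (N / k), (aL f m0) m‖ ≤
        2 * P * N * ((k : ℝ)⁻¹) := by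
      intro k hk
      have hk1 := (Finset.mem_Icc.1 hk).1
      have hk0 : (0 : ℝ) < k := by exact_mod_cast hk1
      rw [norm_mul]
      have h2 : ‖∑ m ∈ Ioc 0 (N / k), (aL f m0) m‖ ≤ 2 * P * ((N / k : ℕ) : ℝ) := by
        rcases le_total (N / k) m0 with h3 | h3
        · rw [sum_aL_zero f m0 _ h3, norm_zero]
          positivity
        · rw [sum_aL f m0 _ h3]
          have h4 := hpsi (N / k) h3 (Nat.div_le_self N k)
          have h5 := hpsi m0 le_rfl hm0N
          have h6 : P * (m0 : ℝ) ≤ P * ((N / k : ℕ) : ℝ) :=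
            mul_le_mul_of_nonneg_left (by exact_mod_cast h3) hP
          refine (norm_sub_le _ _).trans ?_
          linarith
      have h3 : ((N / k : ℕ) : ℝ) ≤ N / k := Nat.cast_div_le
      have h4 : 2 * P * ((N / k : ℕ) : ℝ) ≤ 2 * P * (N / k) :=
        mul_le_mul_of_nonneg_left h3 (by positivity)
      calc _ ≤ 1 * (2 * P * (N / k)) := mul_le_mul (norm_moebius_mul_le hf k) (h2.trans h4)
              (norm_nonneg _) zero_le_one
        _ = _ := by rw [div_eq_mul_inv]; ring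
    refine (norm_sum_le _ _).trans ((Finset.sum_le_sum h1).trans ?_)
    rw [← Finset.mul_sum]
    refine mul_le_mul_of_nonneg_left ?_ (by positivity)
    have h2 := harmonic_le_one_add_log N
    rw [harmonic_eq_sum_Icc] at h2
    push_cast at h2
    exact h2
  have h1 : ‖SM f N * (Real.log N : ℂ)‖ = ‖SM f N‖ * Real.log N := by
    rw [norm_mul, Complex.norm_real, Real.norm_eq_abs, abs_of_nonneg hlogN]
  rw [← h1, hid]
  refine (norm_sub_le _ _).trans (add_le_add ((norm_sub_le _ _).trans (add_le_add b1 b2)) b3)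

theorem tw_norm (t x : ℝ) : ‖tw t x‖ = 1 := by
  unfold tw er
  exact Complex.norm_exp_ofReal_mul_I _

theorem tw_one (t : ℝ) : tw t ((1 : ℕ) : ℝ) = 1 := by
  unfold tw er
  simp

theorem tw_mul (t : ℝ) (m n : ℕ) (hm : 1 ≤ m) (hn : 1 ≤ n) :
    tw t ((m * n : ℕ) : ℝ) = tw t m * tw t n := by
  unfold tw er
  have hm0 : (m : ℝ) ≠ 0 := by
    have : (0 : ℝ) < m := by exact_mod_cast hm
    exact this.ne'
  have hn0 : (n : ℝ) ≠ 0 := by
    have : (0 : ℝ) < n := by exact_mod_cast hn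
    exact this.ne'
  rw [← Complex.exp_add]
  congr 1
  rw [Nat.cast_mul, Real.log_mul hm0 hn0, ← add_mul, ← Complex.ofReal_add, mul_add]

theorem cm_tw {g : ℕ → ℂ} (hg : CM g) (t : ℝ) : CM (fun n => g n * tw t n) where
  one := by
    change g 1 * tw t ((1 : ℕ) : ℝ) = 1
    rw [hg.one, tw_one, mul_one]
  mul := by
    intro m n hm hn
    change g (m * n) * tw t ((m * n : ℕ) : ℝ) = g m * tw t m * (g n * tw t n)
    rw [hg.mul m n hm hn, tw_mul t m n hm hn]
    ring
  norm_le := by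
    intro n
    rw [norm_mul, tw_norm, mul_one]
    exact hg.norm_le n

/-- one step of the iteration, with all the parameters -/
theorem iter {C1 : ℝ} (hC1 : ∀ x : ℕ, 1 ≤ x →
    ∑ m ∈ Icc 1 x, ArithmeticFunction.vonMangoldt m / (m : ℝ) ≤ Real.log x + C1) (hC0 : 1 ≤ C1)
    {f : ℕ → ℂ} (hf : CM f) (K : ℕ) (L T y a ρ b b' : ℝ) (ha : 1 ≤ a) (hL : 2 ≤ L) (hT : 2 ≤ T)
    (hy : L / (2 * a) ≤ y) (hb : 0 ≤ b) (hb1 : ρ * b ≤ b') (hb2 : 1 / L ^ K ≤ b')
    (c3 : 6 * a * (T + C1 + 2) ≤ ρ * L) (c4 : 24 * a ≤ L ^ 3)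
    (c5 : 6 * a * L ^ K ≤ Real.exp (2 * T))
    (hS : ∀ k : ℕ, Real.exp y ≤ k → (k : ℝ) ≤ Real.exp L → ‖SM f k‖ ≤ b * k)
    (hpsi : ∀ x : ℕ, Real.exp T ≤ x → (x : ℝ) ≤ Real.exp L → ‖SL f x‖ ≤ 1 / L ^ (K + 3) * x)
    (N : ℕ) (hN : Real.exp (y + 2 * T) ≤ N) (hN' : (N : ℝ) ≤ Real.exp L) :
    ‖SM f N‖ ≤ b' * N := by
  have hL0 : 0 < L := by linarith
  have ha0 : 0 < a := by linarith
  have hy0 : 0 < y := lt_of_lt_of_le (by positivity) hy
  have heT : 4 ≤ Real.exp T := by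
    have h1 : Real.exp 2 ≤ Real.exp T := Real.exp_le_exp.2 hT
    have h2 : (4 : ℝ) ≤ Real.exp 2 := by
      have h3 := Real.exp_one_gt_d9
      have h4 : Real.exp 2 = Real.exp 1 * Real.exp 1 := by
        rw [← Real.exp_add]
        norm_num
      rw [h4]
      nlinarith
    linarith
  have hey : 1 ≤ Real.exp y := Real.one_le_exp hy0.le
  set m0 : ℕ := ⌈Real.exp T⌉₊ with hm0
  have hm0a : Real.exp T ≤ m0 := Nat.le_ceil _
  have hm0b : (m0 : ℝ) ≤ Real.exp T + 1 := (Nat.ceil_lt_add_one (by positivity)).le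
  have hm1 : 1 ≤ m0 := by
    have h1 : (1 : ℝ) ≤ m0 := by linarith
    exact_mod_cast h1
  have hm0pos : (0 : ℝ) < m0 := by linarith
  have hexp : Real.exp (y + 2 * T) = Real.exp y * (Real.exp T * Real.exp T) := by
    rw [← Real.exp_add, ← Real.exp_add]
    congr 1
    ring
  have hkey : (Real.exp y + 1) * (Real.exp T + 1) ≤ N := by
    refine le_trans ?_ hN
    rw [hexp]
    have h1 : (Real.exp y + 1) * (Real.exp T + 1) ≤ (2 * Real.exp y) * (2 * Real.exp T) :=
      mul_le_mul (by linarith) (by linarith) (by linarith) (by linarith)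
    have h2 : (2 * Real.exp y) * (2 * Real.exp T) = Real.exp y * (4 * Real.exp T) := by ring
    have h3 : Real.exp y * (4 * Real.exp T) ≤ Real.exp y * (Real.exp T * Real.exp T) :=
      mul_le_mul_of_nonneg_left (mul_le_mul_of_nonneg_right heT (by positivity)) (by positivity)
    linarith
  have hm0N : m0 ≤ N := by
    have h1 : (m0 : ℝ) ≤ N := by nlinarith
    exact_mod_cast h1
  have hN0 : (0 : ℝ) < N := by
    have : (m0 : ℝ) ≤ N := by exact_mod_cast hm0N
    linarith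
  have h1 := step hC1 hf N m0 (Real.exp y) b (1 / L ^ (K + 3)) (by positivity) hb
    (by positivity) hm1 hm0N
    (fun k hk hk' => hS k hk (le_trans (by exact_mod_cast hk') hN'))
    (by
      intro m hm
      rw [Finset.mem_Icc] at hm
      have hmpos : (0 : ℝ) < m := by exact_mod_cast hm.1
      have h2 : (N : ℝ) / m - 1 ≤ ((N / m : ℕ) : ℝ) := by
        rw [← Nat.floor_div_eq_div (K := ℝ)]
        exact (Nat.sub_one_lt_floor _).le
      refine le_trans ?_ h2
      rw [le_sub_iff_add_le, le_div_iff₀ hmpos]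
      refine le_trans ?_ hkey
      refine mul_le_mul_of_nonneg_left ?_ (by positivity)
      exact le_trans (by exact_mod_cast hm.2) hm0b)
    (fun x hx hx' => hpsi x (hm0a.trans (by exact_mod_cast hx))
      (le_trans (by exact_mod_cast hx') hN'))
  -- logs
  have hlogN : y + 2 * T ≤ Real.log N := by
    rw [Real.le_log_iff_exp_le hN0]
    exact hN
  have hlogN' : Real.log N ≤ L := by
    rw [Real.log_le_iff_le_exp hN0]
    exact hN'
  have hlogm : Real.log m0 ≤ T + 1 := by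
    rw [Real.log_le_iff_le_exp hm0pos, Real.exp_add]
    have h3 := Real.exp_one_gt_d9
    nlinarith
  have hXN : Real.exp y ≤ Real.exp (-(2 * T)) * N := by
    have h2 := mul_le_mul_of_nonneg_left hN (Real.exp_pos (-(2 * T))).le
    rw [← Real.exp_add] at h2
    have h3 : -(2 * T) + (y + 2 * T) = y := by ring
    rwa [h3] at h2
  have hlogpos : 0 < Real.log N := by linarith
  have hLa : L / (2 * a) ≤ Real.log N := by linarith
  have hb'0 : 0 ≤ b' := le_trans (by positivity) hb2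
  -- three bounds
  have hLK : (0 : ℝ) < L ^ K := by positivity
  have e1 : Real.exp (-(2 * T)) ≤ b' * L / (6 * a) := by
    have h2 : Real.exp (-(2 * T)) ≤ 1 / L ^ K / (6 * a) := by
      rw [Real.exp_neg, div_div, one_div]
      exact inv_anti₀ (by positivity) (by linarith)
    refine h2.trans ?_
    refine div_le_div_of_nonneg_right ?_ (by positivity)
    refine hb2.trans ?_
    nlinarith
  have e2 : b * (T + C1 + 2) ≤ b' * L / (6 * a) := by
    rw [le_div_iff₀ (by positivity)]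
    have h2 := mul_le_mul_of_nonneg_left c3 hb
    have h3 := mul_le_mul_of_nonneg_right hb1 hL0.le
    nlinarith
  have e3 : 2 * (1 / L ^ (K + 3)) * (1 + L) ≤ b' * L / (6 * a) := by
    have h2 : 2 * (1 / L ^ (K + 3)) * (1 + L) ≤ 1 / L ^ K * L / (6 * a) := by
      rw [div_mul_eq_mul_div, one_mul, div_div, mul_one_div, div_mul_eq_mul_div,
        div_le_div_iff₀ (by positivity) (by positivity)]
      have h4 : 2 * (1 + L) * (L ^ K * (6 * a)) ≤ 4 * L * (L ^ K * (6 * a)) :=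
        mul_le_mul_of_nonneg_right (by linarith) (by positivity)
      have h5 : 4 * L * (L ^ K * (6 * a)) = (L * L ^ K) * (24 * a) := by ring
      have h6 : (L * L ^ K) * (24 * a) ≤ (L * L ^ K) * L ^ 3 :=
        mul_le_mul_of_nonneg_left c4 (by positivity)
      have h7 : (L * L ^ K) * L ^ 3 = L * L ^ (K + 3) := by ring
      linarith
    refine h2.trans ?_
    refine div_le_div_of_nonneg_right ?_ (by positivity)
    exact mul_le_mul_of_nonneg_right hb2 hL0.le
  have h2 : ‖SM f N‖ * Real.log N ≤ (b' * N) * Real.log N := by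
    have hbN : 0 ≤ b * N := mul_nonneg hb hN0.le
    have g1 : b * N * (Real.log m0 + C1) ≤ b * N * (T + 1 + C1) :=
      mul_le_mul_of_nonneg_left (by linarith) hbN
    have g2 : 2 * (1 / L ^ (K + 3)) * N * (1 + Real.log N) ≤
        2 * (1 / L ^ (K + 3)) * N * (1 + L) :=
      mul_le_mul_of_nonneg_left (by linarith) (by positivity)
    have g3 : Real.exp (-(2 * T)) * N + b * (T + C1 + 2) * N +
        2 * (1 / L ^ (K + 3)) * (1 + L) * N ≤ 3 * (b' * L / (6 * a)) * N := by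
      have := mul_le_mul_of_nonneg_right (add_le_add (add_le_add e1 e2) e3) hN0.le
      linarith
    have g4 : 3 * (b' * L / (6 * a)) * N = (b' * N) * (L / (2 * a)) := by
      field_simp
      ring
    have g5 : (b' * N) * (L / (2 * a)) ≤ (b' * N) * Real.log N :=
      mul_le_mul_of_nonneg_left hLa (mul_nonneg hb'0 hN0.le)
    have g6 : Real.exp (-(2 * T)) * N + b * N + b * N * (T + 1 + C1) +
        2 * (1 / L ^ (K + 3)) * N * (1 + L) = Real.exp (-(2 * T)) * N + b * (T + C1 + 2) * N +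
        2 * (1 / L ^ (K + 3)) * (1 + L) * N := by ring
    linarith only [h1, hXN, g1, g2, g3, g4, g5, g6]
  exact le_of_mul_le_mul_right h2 hlogpos

theorem main : S_P1 → S_M1 := by
  rintro ⟨η, hη0, hη1, hP1⟩ A B K
  obtain ⟨K₂, L₁, hL₁, h1⟩ := hP1 A B (K + 3)
  obtain ⟨C1, hC0, hC1⟩ := mertens
  set a : ℝ := (A : ℝ) + 1 with ha
  have ha1 : 1 ≤ a := by
    rw [ha]
    have : (0 : ℝ) ≤ A := Nat.cast_nonneg A
    linarith
  have ha0 : 0 < a := by linarith
  set J : ℕ := ⌈2 * (K : ℝ) / η⌉₊ with hJ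
  have hJ' : (K : ℝ) ≤ η / 2 * J := by
    have h2 : 2 * (K : ℝ) / η ≤ J := Nat.le_ceil _
    rw [div_le_iff₀ hη0] at h2
    linarith
  -- large `L`
  have t1 : ∀ᶠ L : ℝ in Filter.atTop, 6 * a * (C1 + 3) ≤ L ^ (η / 2) :=
    (tendsto_rpow_atTop (by positivity)).eventually_ge_atTop _
  have t2 : ∀ᶠ L : ℝ in Filter.atTop, 4 * a * J + 2 ≤ L ^ η :=
    (tendsto_rpow_atTop hη0).eventually_ge_atTop _
  have t3 : ∀ᶠ L : ℝ in Filter.atTop, 24 * a + 4 + L₁ ≤ L := Filter.eventually_ge_atTop _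
  have t4 : ∀ᶠ L : ℝ in Filter.atTop, 6 * a ≤ Real.exp (L ^ (1 / 2 : ℝ)) /
      (L ^ (1 / 2 : ℝ)) ^ (2 * K) :=
    ((Real.tendsto_exp_div_pow_atTop (2 * K)).comp
      (tendsto_rpow_atTop (by norm_num))).eventually_ge_atTop _
  obtain ⟨L₀, hL₀⟩ := Filter.eventually_atTop.1 (((t1.and t2).and t3).and t4)
  refine ⟨K₂, max L₀ 2, le_max_right _ _, fun L hL q hq hqB g hg hper t ht1 ht2 N hN1 hN2 => ?_⟩
  obtain ⟨⟨⟨c1, c2⟩, c3⟩, c4⟩ := hL₀ L ((le_max_left _ _).trans hL)
  have hL2 : 4 ≤ L := by linarith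
  have hL0 : 0 < L := by linarith
  have hLL₁ : L₁ ≤ L := by linarith
  set T : ℝ := L ^ (1 - η) with hT
  have hTpos : 0 < T := Real.rpow_pos_of_pos hL0 _
  have hTL : T * L ^ η = L := by
    rw [hT, ← Real.rpow_add hL0, sub_add_cancel, Real.rpow_one]
  have hhalf : L ^ (1 / 2 : ℝ) ≤ T := by
    rw [hT]
    exact Real.rpow_le_rpow_of_exponent_le (by linarith) (by linarith)
  have hhalf2 : (2 : ℝ) ≤ L ^ (1 / 2 : ℝ) := by
    rw [← Real.sqrt_eq_rpow]
    exact Real.le_sqrt_of_sq_le (by norm_num; linarith)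
  have hT2 : 2 ≤ T := hhalf2.trans hhalf
  have hJ0 : (0 : ℝ) ≤ J := Nat.cast_nonneg J
  have hTJ : 4 * a * J * T ≤ L := by
    have h2 : T * (4 * a * J) ≤ T * L ^ η := mul_le_mul_of_nonneg_left (by linarith) hTpos.le
    rw [hTL] at h2
    linarith
  set ρ : ℝ := L ^ (-(η / 2)) with hρ
  have hρ0 : 0 < ρ := Real.rpow_pos_of_pos hL0 _
  have hρ1 : ρ ≤ 1 := Real.rpow_le_one_of_one_le_of_nonpos (by linarith) (by linarith)
  have hρη : ρ * L = T * L ^ (η / 2) := by
    have e1 : ρ * L = L ^ (1 - η / 2) := by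
      conv_lhs => rw [← Real.rpow_one L]
      rw [hρ, Real.rpow_one, ← Real.rpow_add_one hL0.ne']
      congr 1
      ring
    rw [e1, hT, ← Real.rpow_add hL0]
    congr 1
    ring
  have hc3 : 6 * a * (T + C1 + 2) ≤ ρ * L := by
    rw [hρη]
    have h2 : 6 * a * (T + C1 + 2) ≤ T * (6 * a * (C1 + 3)) := by
      have h3 : T + C1 + 2 ≤ T * (C1 + 3) := by nlinarith
      have h4 := mul_le_mul_of_nonneg_left h3 (by positivity : 0 ≤ 6 * a)
      linarith
    exact h2.trans (mul_le_mul_of_nonneg_left c1 hTpos.le)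
  have hc4 : 24 * a ≤ L ^ 3 := by
    have h2 : L ≤ L ^ 3 := by
      calc L = L ^ 1 := (pow_one L).symm
        _ ≤ L ^ 3 := pow_le_pow_right₀ (by linarith) (by norm_num)
    linarith
  have hc5 : 6 * a * L ^ K ≤ Real.exp (2 * T) := by
    have h2 : (L ^ (1 / 2 : ℝ)) ^ (2 * K) = L ^ K := by
      rw [pow_mul, ← Real.sqrt_eq_rpow, Real.sq_sqrt hL0.le]
    rw [h2, le_div_iff₀ (by positivity)] at c4
    refine c4.trans (Real.exp_le_exp.2 ?_)
    linarith
  set f : ℕ → ℂ := fun n => g n * tw t n with hf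
  have hfcm : CM f := cm_tw hg t
  have hpsi : ∀ x : ℕ, Real.exp T ≤ x → (x : ℝ) ≤ Real.exp L →
      ‖SL f x‖ ≤ 1 / L ^ (K + 3) * x := by
    intro x hx hx'
    have h2 := h1 L hLL₁ q hq hqB g hg hper t ht1 ht2 x hx hx'
    have h3 : SL f x = ∑ n ∈ Icc 1 x, (ArithmeticFunction.vonMangoldt n : ℂ) * g n * tw t n := by
      unfold SL
      exact Finset.sum_congr rfl fun n _ => by rw [hf]; ring
    rw [h3]
    refine h2.trans (le_of_eq ?_)
    ring
  -- the iteration
  have hLK : (0 : ℝ) < L ^ K := by positivity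
  have main : ∀ j : ℕ, ∀ N : ℕ, Real.exp (L / (2 * a) + 2 * j * T) ≤ N → (N : ℝ) ≤ Real.exp L →
      ‖SM f N‖ ≤ max (ρ ^ j) (1 / L ^ K) * N := by
    intro j
    induction j with
    | zero =>
      intro N _ _
      refine (norm_SM_le hfcm N).trans ?_
      rw [pow_zero]
      have h2 : (1 : ℝ) ≤ max 1 (1 / L ^ K) := le_max_left _ _
      have h3 := mul_le_mul_of_nonneg_right h2 (Nat.cast_nonneg N : (0 : ℝ) ≤ N)
      linarith
    | succ j ih =>
      intro N hN hN'
      refine iter hC1 hC0 hfcm K L T (L / (2 * a) + 2 * j * T) a ρ (max (ρ ^ j) (1 / L ^ K)) _ ha1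
        (by linarith) hT2 ?_ ?_ ?_ (le_max_right _ _) hc3 hc4 hc5 ih hpsi N ?_ hN'
      · have : 0 ≤ 2 * (j : ℝ) * T := by positivity
        linarith
      · exact le_trans (by positivity) (le_max_right _ _)
      · rw [mul_max_of_nonneg _ _ hρ0.le]
        refine max_le_max (le_of_eq ?_) ?_
        · rw [pow_succ, mul_comm]
        · calc ρ * (1 / L ^ K) ≤ 1 * (1 / L ^ K) :=
                mul_le_mul_of_nonneg_right hρ1 (by positivity)
            _ = _ := one_mul _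
      · refine le_trans (le_of_eq ?_) hN
        congr 1
        push_cast
        ring
  have h2 := main J N (le_trans (Real.exp_le_exp.2 ?_) hN1) hN2
  · have h3 : ρ ^ J ≤ 1 / L ^ K := by
      rw [hρ, ← Real.rpow_natCast, ← Real.rpow_mul hL0.le, one_div, ← Real.rpow_natCast,
        ← Real.rpow_neg hL0.le]
      refine Real.rpow_le_rpow_of_exponent_le (by linarith) ?_
      linarith
    rw [max_eq_right h3] at h2
    have h4 : SM f N = ∑ n ∈ Icc 1 N, ((ArithmeticFunction.moebius n : ℤ) : ℂ) * g n * tw t n := by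
      unfold SM
      exact Finset.sum_congr rfl fun n _ => by rw [hf]; ring
    rw [← h4]
    refine h2.trans (le_of_eq ?_)
    ring
  · have h3 : L / a = L / (2 * a) + L / (2 * a) := by
      field_simp
      norm_num
    rw [h3]
    have h4 : 2 * (J : ℝ) * T ≤ L / (2 * a) := by
      rw [le_div_iff₀ (by positivity)]
      linarith
    linarith

end Pool.Agent.helper24_UT.M1
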