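import Pool.Agent.H27.G.R_seed8.Y957.VK.Stm
import Pool.Agent.H27.G.R_seed8.H376R2.MR.Defs

/-!
# Project UT (helper24): primes at almost all systems of polynomials

Part 1: sums over primes of `n^{-it}` in progressions to small moduli, for `|t|` larger than a power of `log`.
Definitions and statements of the steps.
-/

set_option autoImplicit false

namespace Pool.Agent.helper24_UT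

open Finset
open Pool.Agent.H376R2.MR (ch er DP FK)

/-- `x^{-it}` -/
noncomputable def tw (t x : ℝ) : ℂ := er (-t) (Real.log x)

/-- (1) Vinogradov's bound for `∑ (n + θ)^{-it}` -/
def S_ZSX : Prop := ∃ (C : ℕ) (c : ℝ), 0 < c ∧ c ≤ 1 / 10 ∧ ∀ (N N' : ℕ) (θ t κ : ℝ), 2 ≤ N → N ≤ N' → N' ≤ 2 * N →
  0 ≤ θ → θ ≤ 1 → 1 / 2 ≤ κ → |t| = (N : ℝ) ^ κ →
  ‖∑ n ∈ Ioc N N', tw t (n + θ)‖ ≤ Real.exp (C * (1 + κ) ^ C) * (N : ℝ) ^ (1 - c / (1 + κ) ^ 2 : ℝ)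

/-- (2) the sums of `m^{-it}` over long progressions to small moduli are small -/
def S_T1 : Prop := ∃ η : ℝ, 0 < η ∧ η ≤ 1 / 10 ∧ ∀ A B K : ℕ, ∃ (K₂ : ℕ) (L₀ : ℝ), 2 ≤ L₀ ∧ ∀ L : ℝ, L₀ ≤ L →
  ∀ q r : ℕ, 1 ≤ q → (q : ℝ) ≤ L ^ B → ∀ t : ℝ, L ^ K₂ ≤ |t| → |t| ≤ Real.exp (A * L) →
  ∀ M : ℕ, Real.exp (L ^ (1 - η)) ≤ M →
  ‖∑ m ∈ (Icc 1 M).filter (fun m => m % q = r), tw t m‖ ≤ M / L ^ K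

/-- completely multiplicative functions bounded by one -/
structure CM (f : ℕ → ℂ) : Prop where
  one : f 1 = 1
  mul : ∀ m n : ℕ, 1 ≤ m → 1 ≤ n → f (m * n) = f m * f n
  norm_le : ∀ n, ‖f n‖ ≤ 1

/-- the sums of `f m m^{-iu}`, `|u| ≤ U`, are small -/
def TB (L η U : ℝ) (K : ℕ) (f : ℕ → ℂ) : Prop := ∀ u : ℝ, |u| ≤ U → ∀ M : ℕ, Real.exp (L ^ (1 - η)) ≤ M →
  ‖∑ m ∈ Icc 1 M, f m * tw u m‖ ≤ M / L ^ K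

/-- the sieving limit -/
noncomputable def yy (L η : ℝ) : ℝ := Real.exp (L ^ (1 - 17 * η / 32))

open Classical in
/-- the restriction of `f` to the integers without prime factors `≤ y` -/
noncomputable def ro (y : ℝ) (f : ℕ → ℂ) (n : ℕ) : ℂ :=
  if 1 ≤ n ∧ ∀ p : ℕ, p.Prime → p ∣ n → y < p then f n else 0

/-- the same for the sums over the integers without small prime factors -/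
def RB (L η U : ℝ) (K : ℕ) (f : ℕ → ℂ) : Prop := ∀ u : ℝ, |u| ≤ U → ∀ N : ℕ, Real.exp (L ^ (1 - η / 2)) ≤ N →
  ‖∑ n ∈ Icc 1 N, ro (yy L η) f n * tw u n‖ ≤ N / L ^ K

/-- (3) the sieve (Brun's pure sieve is enough) -/
def S_RS : Prop := ∀ η : ℝ, 0 < η → η ≤ 1 / 10 → ∀ K : ℕ, ∃ L₀ : ℝ, 2 ≤ L₀ ∧ ∀ L : ℝ, L₀ ≤ L → ∀ (U : ℝ) (f : ℕ → ℂ),
  CM f → TB L η U (K + 2) f → RB L η U K f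

/-- (4) the Dirichlet series of the integers without prime factors `≤ y` -/
def S_RZ : Prop := ∃ C : ℝ, 1 ≤ C ∧ ∀ y σ : ℝ, 2 ≤ y → 1 < σ → σ ≤ 2 →
  ‖LSeries (ro y (fun _ => 1)) (σ : ℂ)‖ ≤ C * (1 + 1 / ((σ - 1) * Real.log y))

/-- (5) bounds for the derivatives of the Dirichlet series near the line one -/
def S_FB : Prop := ∀ η : ℝ, 0 < η → η ≤ 1 / 10 → ∀ J : ℕ, ∃ C L₀ : ℝ, 1 ≤ C ∧ 2 ≤ L₀ ∧ ∀ L : ℝ, L₀ ≤ L →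
  ∀ (U : ℝ) (f : ℕ → ℂ), CM f → RB L η U (J + 3) f → ∀ σ u : ℝ, 1 + 1 / L ≤ σ → σ ≤ 2 → |u| ≤ U → ∀ j : ℕ, j ≤ J →
  ‖LSeries (fun n => ro (yy L η) f n * (((Real.log n) ^ j : ℝ) : ℂ)) ((σ : ℂ) + (u : ℂ) * Complex.I)‖ ≤
    C * L ^ ((1 - η / 2) * j + η / 32 : ℝ)

/-- (6) the inequality `3 + 4 cos + cos ≥ 0` -/
def S_341 : Prop := ∀ (y σ u : ℝ) (f : ℕ → ℂ), CM f → 1 < σ →
  1 ≤ ‖LSeries (ro y (fun _ => 1)) (σ : ℂ)‖ ^ 3 * ‖LSeries (ro y f) ((σ : ℂ) + (u : ℂ) * Complex.I)‖ ^ 4 *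
    ‖LSeries (ro y (fun n => f n ^ 2)) ((σ : ℂ) + (2 * u : ℂ) * Complex.I)‖

/-- (7) the recursion for the derivatives of the logarithmic derivative -/
def S_CONV : Prop := ∀ (y : ℝ) (s : ℂ) (f : ℕ → ℂ) (j : ℕ), CM f → 1 < s.re →
  LSeries (fun n => ro y f n * (((Real.log n) ^ (j + 1) : ℝ) : ℂ)) s = ∑ i ∈ range (j + 1), (j.choose i : ℂ) *
    LSeries (fun n => (ArithmeticFunction.vonMangoldt n : ℂ) * ro y f n * (((Real.log n) ^ i : ℝ) : ℂ)) s *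
    LSeries (fun n => ro y f n * (((Real.log n) ^ (j - i) : ℝ) : ℂ)) s

/-- (8) the resulting bound on vertical lines -/
def S_GB : Prop := ∀ η : ℝ, 0 < η → η ≤ 1 / 10 → ∀ J : ℕ, ∃ (K₁ : ℕ) (C L₀ : ℝ), 1 ≤ C ∧ 2 ≤ L₀ ∧ ∀ L : ℝ, L₀ ≤ L →
  ∀ (U : ℝ) (f : ℕ → ℂ), CM f → TB L η U K₁ f → TB L η (2 * U) K₁ (fun n => f n ^ 2) →
  ∀ σ u : ℝ, 1 + 1 / L ≤ σ → σ ≤ 2 → |u| ≤ U →
  ‖LSeries (fun n => (ArithmeticFunction.vonMangoldt n : ℂ) * ro (yy L η) f n * (((Real.log n) ^ J : ℝ) : ℂ))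
      ((σ : ℂ) + (u : ℂ) * Complex.I)‖ ≤ C * L ^ ((1 - η / 16) * (J + 1) : ℝ)

/-- (9) from vertical lines to partial sums -/
def S_RIESZ : Prop := ∀ J : ℕ, ∃ C : ℝ, 1 ≤ C ∧ ∀ (h : ℕ → ℂ) (N : ℕ) (U Q : ℝ), 3 ≤ N → 1 ≤ U → 0 ≤ Q →
  (∀ n, ‖h n‖ ≤ (Real.log n) ^ (J + 1)) →
  (∀ u : ℝ, |u| ≤ U → ‖LSeries h (((1 + 1 / Real.log N : ℝ) : ℂ) + (u : ℂ) * Complex.I)‖ ≤ Q) →
  ∀ x : ℕ, x ≤ N → ‖∑ n ∈ Icc 1 x, h n‖ ≤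
    C * (N * Real.sqrt ((Q + (Real.log N) ^ (J + 2) / U) * (Real.log N) ^ (J + 1)) + (Real.log N) ^ (J + 1))

/-- (10) primes, general form -/
def S_PG : Prop := ∀ η : ℝ, 0 < η → η ≤ 1 / 10 → ∀ K : ℕ, ∃ (K₁ KU : ℕ) (L₀ : ℝ), 2 ≤ L₀ ∧ ∀ L : ℝ, L₀ ≤ L →
  ∀ f : ℕ → ℂ, CM f → TB L η (L ^ KU) K₁ f → TB L η (2 * L ^ KU) K₁ (fun n => f n ^ 2) →
  ∀ N : ℕ, Real.exp (L ^ (1 - η / 64)) ≤ N → (N : ℝ) ≤ Real.exp L →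
  ‖∑ n ∈ Icc 1 N, (ArithmeticFunction.vonMangoldt n : ℂ) * f n‖ ≤ N / L ^ K

/-- (11) primes, periodic multiplicative functions -/
def S_P1 : Prop := ∃ η : ℝ, 0 < η ∧ η ≤ 1 / 10 ∧ ∀ A B K : ℕ, ∃ (K₂ : ℕ) (L₀ : ℝ), 2 ≤ L₀ ∧ ∀ L : ℝ, L₀ ≤ L →
  ∀ q : ℕ, 1 ≤ q → (q : ℝ) ≤ L ^ B →
  ∀ g : ℕ → ℂ, CM g → (∀ n, g (n + q) = g n) → ∀ t : ℝ, L ^ K₂ ≤ |t| → |t| ≤ Real.exp (A * L) →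
  ∀ N : ℕ, Real.exp (L ^ (1 - η)) ≤ N → (N : ℝ) ≤ Real.exp L →
  ‖∑ n ∈ Icc 1 N, (ArithmeticFunction.vonMangoldt n : ℂ) * g n * tw t n‖ ≤ N / L ^ K

/-- (12) the same for the Moebius function -/
def S_M1 : Prop := ∀ A B K : ℕ, ∃ (K₂ : ℕ) (L₀ : ℝ), 2 ≤ L₀ ∧ ∀ L : ℝ, L₀ ≤ L → ∀ q : ℕ, 1 ≤ q → (q : ℝ) ≤ L ^ B →
  ∀ g : ℕ → ℂ, CM g → (∀ n, g (n + q) = g n) → ∀ t : ℝ, L ^ K₂ ≤ |t| → |t| ≤ Real.exp (A * L) →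
  ∀ N : ℕ, Real.exp (L / (A + 1)) ≤ N → (N : ℝ) ≤ Real.exp L →
  ‖∑ n ∈ Icc 1 N, ((ArithmeticFunction.moebius n : ℤ) : ℂ) * g n * tw t n‖ ≤ N / L ^ K

/-- (13) primes in progressions -/
def S_PAP : Prop := ∀ A B K : ℕ, ∃ (K₂ : ℕ) (L₀ : ℝ), 2 ≤ L₀ ∧ ∀ L : ℝ, L₀ ≤ L → ∀ q r : ℕ, 1 ≤ q → (q : ℝ) ≤ L ^ B →
  r.Coprime q → ∀ t : ℝ, L ^ K₂ ≤ |t| → |t| ≤ Real.exp (A * L) →
  ∀ N : ℕ, Real.exp (L / (A + 1)) ≤ N → (N : ℝ) ≤ Real.exp L →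
  ‖∑ n ∈ (Icc 1 N).filter (fun n => n % q = r % q), (ArithmeticFunction.vonMangoldt n : ℂ) * tw t n‖ ≤ N / L ^ K

/-- (14) the Moebius function in progressions -/
def S_MAP : Prop := ∀ A B K : ℕ, ∃ (K₂ : ℕ) (L₀ : ℝ), 2 ≤ L₀ ∧ ∀ L : ℝ, L₀ ≤ L → ∀ q r : ℕ, 1 ≤ q → (q : ℝ) ≤ L ^ B →
  r.Coprime q → ∀ t : ℝ, L ^ K₂ ≤ |t| → |t| ≤ Real.exp (A * L) →
  ∀ N : ℕ, Real.exp (L / (A + 1)) ≤ N → (N : ℝ) ≤ Real.exp L →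
  ‖∑ n ∈ (Icc 1 N).filter (fun n => n % q = r % q), ((ArithmeticFunction.moebius n : ℤ) : ℂ) * tw t n‖ ≤ N / L ^ K

/-- `∑_{b ∣ m, b ≤ U} μ(b)` -/
noncomputable def alU (U m : ℕ) : ℤ := ∑ b ∈ m.divisors.filter (fun b => b ≤ U), ArithmeticFunction.moebius b

/-- (15) the coefficients of the bilinear sums -/
def S_AL : Prop := ∀ A B K : ℕ, ∃ (K₂ : ℕ) (L₀ : ℝ), 2 ≤ L₀ ∧ ∀ L : ℝ, L₀ ≤ L → ∀ q r : ℕ, 1 ≤ q → (q : ℝ) ≤ L ^ B →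
  r.Coprime q → ∀ t : ℝ, L ^ K₂ ≤ |t| → |t| ≤ Real.exp (A * L) → ∀ U : ℕ, Real.exp (2 * L / (A + 1)) ≤ U →
  ∀ N : ℕ, Real.exp (L / (A + 1)) ≤ N → (N : ℝ) ≤ Real.exp L →
  ‖∑ n ∈ (Icc 1 N).filter (fun n => n % q = r % q), (alU U n : ℂ) * tw t n‖ ≤ N / L ^ K

/-- (16) windows and frequencies: Parseval's identity on the circle `ℝ / 2πℤ` -/
def S_WIN : Prop := ∃ C : ℝ, 1 ≤ C ∧ ∀ (Y W J K₁ : ℕ) (P : ℝ) (a : ℕ → ℂ), 1 ≤ J → 1 ≤ W → W ≤ Y → 1 ≤ K₁ → 0 ≤ P →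
  (∀ n, ‖a n‖ ≤ P) →
  ∑ u ∈ Ico Y (2 * Y), ‖∑ n ∈ Ioc u (u + W), a n‖ ^ 2 ≤
    C * ((W : ℝ) ^ 2 / Y * ∑ k ∈ FK K₁, ‖DP (Ioc Y (3 * Y)) a k‖ ^ 2 +
      (J : ℝ) ^ 2 * Y ^ 2 * P ^ 2 * ((Y : ℝ) / K₁ ^ 2 + 1 / K₁) + Y * P ^ 2 * ((W : ℝ) ^ 2 / J ^ 2 + 1))

/-- (17) the bilinear sums of Vaughan's identity in mean square over the frequencies -/
def S_II : Prop := ∀ e A B : ℕ, 1 ≤ e → ∃ (K₂ Y₀ : ℕ), ∀ Y : ℕ, Y₀ ≤ Y → ∀ q r : ℕ, 1 ≤ q →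
  (q : ℝ) ≤ (Real.log Y) ^ B → r.Coprime q → ∀ K₁ : ℕ, (K₁ : ℝ) ≤ (Y : ℝ) ^ (1 / 2 : ℝ) →
  ∀ U V : ℕ, (Y : ℝ) ^ (1 / (8 * e) : ℝ) ≤ U → (U : ℝ) ≤ (Y : ℝ) ^ (1 / 4 : ℝ) → (Y : ℝ) ^ (1 / (8 * e) : ℝ) ≤ V →
  (V : ℝ) ≤ (Y : ℝ) ^ (1 / 4 : ℝ) →
  ∑ k ∈ (FK K₁).filter (fun k : ℤ => (Real.log Y) ^ K₂ ≤ |(k : ℝ)|),
    ‖DP ((Ioc Y (3 * Y)).filter (fun n => n % q = r % q)) (fun n => ∑ x ∈ n.divisorsAntidiagonal.filter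
      (fun x => U < x.1 ∧ V < x.2), (alU U x.1 : ℂ) * (ArithmeticFunction.vonMangoldt x.2 : ℂ)) k‖ ^ 2 ≤
    (Y : ℝ) ^ 2 / (Real.log Y) ^ A

/-- (18) the linear sums of Vaughan's identity -/
def S_TI : Prop := ∀ e A B : ℕ, 1 ≤ e → ∃ (K₂ Y₀ : ℕ), ∀ Y : ℕ, Y₀ ≤ Y → ∀ q r : ℕ, 1 ≤ q →
  (q : ℝ) ≤ (Real.log Y) ^ B → r.Coprime q → ∀ K₁ : ℕ, (K₁ : ℝ) ≤ (Y : ℝ) ^ (1 / 2 - 1 / e : ℝ) →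
  ∀ (D : ℕ) (γ : ℕ → ℂ) (i : ℕ), (D : ℝ) ≤ (Y : ℝ) ^ (1 / (2 * e) : ℝ) → (∀ b, ‖γ b‖ ≤ Real.log (b + 3)) → i ≤ 1 →
  ∑ k ∈ (FK K₁).filter (fun k : ℤ => (Real.log Y) ^ K₂ ≤ |(k : ℝ)|),
    ‖DP ((Ioc Y (3 * Y)).filter (fun n => n % q = r % q)) (fun n => ∑ b ∈ n.divisors.filter (fun b => b ≤ D),
      γ b * (((Real.log ((n / b : ℕ) : ℝ)) ^ i : ℝ) : ℂ)) k‖ ^ 2 ≤
    (Y : ℝ) ^ 2 / (Real.log Y) ^ A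

/-- (19) primes in progressions, large frequencies -/
def S_FRL : Prop := ∀ e A B : ℕ, 4 ≤ e → ∃ (K₂ Y₀ : ℕ), ∀ Y : ℕ, Y₀ ≤ Y → ∀ q r : ℕ, 1 ≤ q →
  (q : ℝ) ≤ (Real.log Y) ^ B → r.Coprime q → ∀ K₁ : ℕ, (K₁ : ℝ) ≤ (Y : ℝ) ^ (1 / 2 - 1 / e : ℝ) →
  ∑ k ∈ (FK K₁).filter (fun k : ℤ => (Real.log Y) ^ K₂ ≤ |(k : ℝ)|),
    ‖DP ((Ioc Y (3 * Y)).filter (fun n => n % q = r % q)) (fun n => (ArithmeticFunction.vonMangoldt n : ℂ)) k‖ ^ 2 ≤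
    (Y : ℝ) ^ 2 / (Real.log Y) ^ A

/-- the primes in a progression minus their density -/
noncomputable def pdev (q r n : ℕ) : ℂ :=
  (if n % q = r % q then (ArithmeticFunction.vonMangoldt n : ℂ) else 0) - 1 / (Nat.totient q : ℂ)

/-- (20) primes in progressions, all frequencies -/
def S_FR : Prop := ∀ e A B : ℕ, 4 ≤ e → ∃ Y₀ : ℕ, ∀ Y : ℕ, Y₀ ≤ Y → ∀ q r : ℕ, 1 ≤ q →
  (q : ℝ) ≤ (Real.log Y) ^ B → r.Coprime q → ∀ K₁ : ℕ, (K₁ : ℝ) ≤ (Y : ℝ) ^ (1 / 2 - 1 / e : ℝ) →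
  ∑ k ∈ FK K₁, ‖DP (Ioc Y (3 * Y)) (pdev q r) k‖ ^ 2 ≤ (Y : ℝ) ^ 2 / (Real.log Y) ^ A

/-- (21) primes in progressions in almost all short intervals -/
def S_SIL : Prop := ∀ e A B : ℕ, 4 ≤ e → ∃ X₀ : ℕ, ∀ X : ℕ, X₀ ≤ X → ∀ q r : ℕ, 1 ≤ q →
  (q : ℝ) ≤ (Real.log X) ^ B → r.Coprime q → ∀ W : ℕ, (X : ℝ) ^ (1 / 2 + 2 / e : ℝ) ≤ W → W ≤ X →
  ∑ u ∈ range X, ‖∑ n ∈ Ioc u (u + W), pdev q r n‖ ^ 2 ≤ X * (W : ℝ) ^ 2 / (Real.log X) ^ A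

end Pool.Agent.helper24_UT
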