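/-
UT_PAP   (project UT of helper24: primes at almost all systems of polynomials; very_famous ids, partial results)

PLAIN PROOF
For r coprime to q: indicator of n = r mod q (for n coprime to q) is (1/phi(q)) sum_chi conj(chi(r)) chi(n), chi over the Dirichlet characters
mod q (Mathlib: DirichletCharacter.sum_char_inv_mul_char_eq or similar), and n = r mod q implies n coprime to q. g(n) = chi(n) (as a
function of the natural number n cast to ZMod q) is CM and g(n+q) = g(n). So each of the sums over the progression is an average with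
coefficients of norm 1/phi(q) over phi(q) characters of the sums in S_P1 (resp. S_M1); hence the same bound N/L^K. S_P1 gives the range
N >= exp(L^(1-eta)), which contains N >= exp(L/(A+1)) for L large.
-/
import Pool.Agent.H27.G.R_pool_sql_team_seeded_620a6dc7.helper24_UT_.Stm

set_option autoImplicit false

namespace Pool.Agent.helper24_UT.Pap

open Finset
open Pool.Agent.helper24_UT
open Pool.Agent.H376R2.MR (ch er DP FK)

theorem cm_char {q : ℕ} (χ : DirichletCharacter ℂ q) : CM (fun n : ℕ => χ (n : ZMod q)) where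
  one := by simp
  mul m n _ _ := by simp
  norm_le n := χ.norm_le_one _

theorem per_char {q : ℕ} (χ : DirichletCharacter ℂ q) (n : ℕ) :
    (fun n : ℕ => χ (n : ZMod q)) (n + q) = (fun n : ℕ => χ (n : ZMod q)) n := by
  simp

theorem prog_le {q r : ℕ} (hq : 1 ≤ q) (hr : r.Coprime q) (F : ℕ → ℂ) (N : ℕ) (D : ℝ)
    (h : ∀ χ : DirichletCharacter ℂ q, ‖∑ n ∈ Icc 1 N, F n * χ (n : ZMod q)‖ ≤ D) :
    ‖∑ n ∈ (Icc 1 N).filter (fun n => n % q = r % q), F n‖ ≤ D := by
  classical
  have : NeZero q := ⟨by omega⟩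
  have hu : IsUnit (r : ZMod q) := (ZMod.isUnit_iff_coprime r q).2 hr
  have hφ : (0 : ℝ) < (q.totient : ℝ) := by exact_mod_cast Nat.totient_pos.2 (by omega)
  have hφc : (q.totient : ℂ) ≠ 0 := by
    have : q.totient ≠ 0 := by
      have := Nat.totient_pos.2 (show 0 < q by omega)
      omega
    exact_mod_cast this
  have key : (q.totient : ℂ) * ∑ n ∈ (Icc 1 N).filter (fun n => n % q = r % q), F n =
      ∑ χ : DirichletCharacter ℂ q, χ (r : ZMod q)⁻¹ * ∑ n ∈ Icc 1 N, F n * χ (n : ZMod q) := by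
    have h1 : ∀ χ : DirichletCharacter ℂ q,
        χ (r : ZMod q)⁻¹ * ∑ n ∈ Icc 1 N, F n * χ (n : ZMod q) =
        ∑ n ∈ Icc 1 N, F n * (χ (r : ZMod q)⁻¹ * χ (n : ZMod q)) := by
      intro χ
      rw [Finset.mul_sum]
      refine Finset.sum_congr rfl fun n _ => ?_
      ring
    rw [Finset.sum_congr rfl fun χ _ => h1 χ, Finset.sum_comm, Finset.mul_sum, Finset.sum_filter]
    refine Finset.sum_congr rfl fun n _ => ?_
    rw [← Finset.mul_sum, DirichletCharacter.sum_char_inv_mul_char_eq ℂ hu]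
    by_cases hn : n % q = r % q
    · rw [if_pos hn, if_pos ((ZMod.natCast_eq_natCast_iff' r n q).2 hn.symm)]
      ring
    · rw [if_neg hn, if_neg (fun h => hn ((ZMod.natCast_eq_natCast_iff' r n q).1 h).symm)]
      ring
  have h2 : (q.totient : ℝ) * ‖∑ n ∈ (Icc 1 N).filter (fun n => n % q = r % q), F n‖ ≤
      q.totient * D := by
    have h3 : (q.totient : ℝ) * ‖∑ n ∈ (Icc 1 N).filter (fun n => n % q = r % q), F n‖ =
        ‖(q.totient : ℂ) * ∑ n ∈ (Icc 1 N).filter (fun n => n % q = r % q), F n‖ := by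
      rw [norm_mul, Complex.norm_natCast]
    rw [h3, key]
    refine (norm_sum_le _ _).trans ?_
    have h4 : ∀ χ ∈ (Finset.univ : Finset (DirichletCharacter ℂ q)),
        ‖χ (r : ZMod q)⁻¹ * ∑ n ∈ Icc 1 N, F n * χ (n : ZMod q)‖ ≤ D := by
      intro χ _
      rw [norm_mul]
      have h5 : ‖χ (r : ZMod q)⁻¹‖ ≤ 1 := χ.norm_le_one _
      have h6 := h χ
      calc ‖χ (r : ZMod q)⁻¹‖ * ‖∑ n ∈ Icc 1 N, F n * χ (n : ZMod q)‖ ≤
          1 * ‖∑ n ∈ Icc 1 N, F n * χ (n : ZMod q)‖ :=
            mul_le_mul_of_nonneg_right h5 (norm_nonneg _)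
        _ ≤ D := by rw [one_mul]; exact h6
    refine (Finset.sum_le_card_nsmul _ _ D h4).trans ?_
    rw [Finset.card_univ, nsmul_eq_mul]
    have h7 : Fintype.card (DirichletCharacter ℂ q) = q.totient := by
      rw [← Nat.card_eq_fintype_card, DirichletCharacter.card_eq_totient_of_hasEnoughRootsOfUnity]
    rw [h7]
  exact le_of_mul_le_mul_left h2 hφ

theorem main : S_P1 → S_M1 → S_PAP ∧ S_MAP := by
  intro hP hM
  constructor
  · obtain ⟨η, hη, hη1, hP⟩ := hP
    intro A B K
    obtain ⟨K₂, L₀, hL₀, h⟩ := hP A B K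
    refine ⟨K₂, max L₀ (((A : ℝ) + 1) ^ (1 / η)), le_max_of_le_left hL₀, ?_⟩
    intro L hL q r hq hqL hr t ht1 ht2 N hN1 hN2
    have hLL₀ : L₀ ≤ L := (le_max_left _ _).trans hL
    have hLA : ((A : ℝ) + 1) ^ (1 / η) ≤ L := (le_max_right _ _).trans hL
    have hLpos : 0 < L := by linarith
    have hA : (0 : ℝ) < (A : ℝ) + 1 := by positivity
    have h1 : (A : ℝ) + 1 ≤ L ^ η := by
      have h2 := Real.rpow_le_rpow (by positivity) hLA hη.le
      rwa [← Real.rpow_mul hA.le, one_div_mul_cancel hη.ne', Real.rpow_one] at h2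
    have h3 : L ^ (1 - η) ≤ L / (A + 1) := by
      rw [Real.rpow_sub hLpos, Real.rpow_one]
      exact div_le_div_of_nonneg_left hLpos.le hA h1
    have hN : Real.exp (L ^ (1 - η)) ≤ N := (Real.exp_le_exp.2 h3).trans hN1
    refine prog_le hq hr (fun n => (ArithmeticFunction.vonMangoldt n : ℂ) * tw t n) N _ fun χ => ?_
    have h4 := h L hLL₀ q hq hqL _ (cm_char χ) (per_char χ) t ht1 ht2 N hN hN2
    refine le_of_eq_of_le ?_ h4
    congr 1
    refine Finset.sum_congr rfl fun n _ => ?_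
    ring
  · intro A B K
    obtain ⟨K₂, L₀, hL₀, h⟩ := hM A B K
    refine ⟨K₂, L₀, hL₀, ?_⟩
    intro L hL q r hq hqL hr t ht1 ht2 N hN1 hN2
    refine prog_le hq hr (fun n => ((ArithmeticFunction.moebius n : ℤ) : ℂ) * tw t n) N _ fun χ => ?_
    have h4 := h L hL q hq hqL _ (cm_char χ) (per_char χ) t ht1 ht2 N hN1 hN2
    refine le_of_eq_of_le ?_ h4
    congr 1
    refine Finset.sum_congr rfl fun n _ => ?_
    ring

end Pool.Agent.helper24_UT.Pap
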