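/-
UT_RIESZ   (project UT of helper24)
-/
import Pool.Agent.H27.G.R_pool_sql_team_seeded_620a6dc7.helper24_UT_.Stm
import Pool.Agent.H27.G.R_seed8.H379R2.SWP

set_option autoImplicit false

namespace Pool.Agent.helper24_UT.Riesz

open Finset
open Pool.Agent.helper24_UT
open Pool.Agent.H376R2.MR (ch er DP FK)

open MeasureTheory in
theorem rz_tsum {δ : ℝ} (hδ : 0 < δ) :
    ∑' n : ℕ, (n : ℝ) ^ (-(1 + δ)) ≤ 1 + 1 / δ := by
  have key : ∀ n : ℕ, 1 ≤ n → ((n + 1 : ℕ) : ℝ) ^ (-(1 + δ)) ≤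
      ((n : ℝ) ^ (-δ) - ((n + 1 : ℕ) : ℝ) ^ (-δ)) / δ := by
    intro n hn
    have hn0 : (0 : ℝ) < n := by exact_mod_cast hn
    have hn1 : (0 : ℝ) < ((n + 1 : ℕ) : ℝ) := by positivity
    rw [le_div_iff₀ hδ]
    have e1 : ((n + 1 : ℕ) : ℝ) ^ (-(1 + δ)) = ((n + 1 : ℕ) : ℝ) ^ (-δ) * (((n + 1 : ℕ) : ℝ))⁻¹ := by
      rw [← Real.rpow_neg_one, ← Real.rpow_add hn1]
      congr 1
      ring
    have e2 : (n : ℝ) ^ (-δ) = ((n + 1 : ℕ) : ℝ) ^ (-δ) * Real.exp (δ * Real.log (((n + 1 : ℕ) : ℝ) / n)) := by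
      rw [Real.log_div hn1.ne' hn0.ne', Real.rpow_def_of_pos hn0, Real.rpow_def_of_pos hn1, ← Real.exp_add]
      congr 1
      ring
    have e3 : (((n + 1 : ℕ) : ℝ))⁻¹ ≤ Real.log (((n + 1 : ℕ) : ℝ) / n) := by
      have h := Real.one_sub_inv_le_log_of_pos (show (0 : ℝ) < ((n + 1 : ℕ) : ℝ) / n by positivity)
      have h2 : 1 - (((n + 1 : ℕ) : ℝ) / n)⁻¹ = (((n + 1 : ℕ) : ℝ))⁻¹ := by
        rw [inv_div]
        field_simp
        push_cast
        ring
      rw [h2] at h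
      exact h
    have e4 : 1 + δ * (((n + 1 : ℕ) : ℝ))⁻¹ ≤ Real.exp (δ * Real.log (((n + 1 : ℕ) : ℝ) / n)) := by
      have h := Real.add_one_le_exp (δ * Real.log (((n + 1 : ℕ) : ℝ) / n))
      have h2 := mul_le_mul_of_nonneg_left e3 hδ.le
      linarith
    have e5 : 0 ≤ ((n + 1 : ℕ) : ℝ) ^ (-δ) := Real.rpow_nonneg hn1.le _
    have e6 := mul_le_mul_of_nonneg_left e4 e5
    rw [e1, e2]
    nlinarith
  have hpart : ∀ n : ℕ, ∑ i ∈ range (n + 2), (i : ℝ) ^ (-(1 + δ)) ≤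
      1 + (1 - ((n + 1 : ℕ) : ℝ) ^ (-δ)) / δ := by
    intro n
    induction n with
    | zero =>
      rw [Finset.sum_range_succ, Finset.sum_range_succ, Finset.sum_range_zero]
      have : ((0 : ℕ) : ℝ) ^ (-(1 + δ)) = 0 := by
        rw [Nat.cast_zero]
        exact Real.zero_rpow (by linarith)
      rw [this]
      simp
    | succ n ih =>
      rw [Finset.sum_range_succ]
      have h := key (n + 1) (by omega)
      have e : ((n + 2 : ℕ) : ℝ) = ((n + 1 + 1 : ℕ) : ℝ) := rfl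
      have h3 : 1 + (1 - ((n + 1 : ℕ) : ℝ) ^ (-δ)) / δ +
        ((((n + 1 : ℕ) : ℝ) ^ (-δ) - ((n + 1 + 1 : ℕ) : ℝ) ^ (-δ)) / δ) =
        1 + (1 - ((n + 1 + 1 : ℕ) : ℝ) ^ (-δ)) / δ := by
        ring
      rw [← h3]
      exact add_le_add ih h
  refine Real.tsum_le_of_sum_range_le (fun n => Real.rpow_nonneg (Nat.cast_nonneg n) _) ?_
  intro n
  have h1 : ∑ i ∈ range n, (i : ℝ) ^ (-(1 + δ)) ≤ ∑ i ∈ range (n + 2), (i : ℝ) ^ (-(1 + δ)) := by
    refine Finset.sum_le_sum_of_subset_of_nonneg ?_ ?_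
    · intro i hi
      rw [Finset.mem_range] at hi ⊢
      omega
    · intro i _ _
      exact Real.rpow_nonneg (Nat.cast_nonneg i) _
  refine (h1.trans (hpart n)).trans ?_
  have h2 : 0 ≤ ((n + 1 : ℕ) : ℝ) ^ (-δ) := Real.rpow_nonneg (Nat.cast_nonneg _) _
  have h3 : (1 - ((n + 1 : ℕ) : ℝ) ^ (-δ)) / δ ≤ 1 / δ := by
    apply div_le_div_of_nonneg_right _ hδ.le
    linarith
  linarith

/-- the bound of the terms -/
theorem rz_term (J : ℕ) (h : ℕ → ℂ) (hh : ∀ n, ‖h n‖ ≤ (Real.log n) ^ (J + 1)) {l : ℝ} (hl : 0 < l)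
    (s : ℂ) (hs : s.re = 1 + 1 / l) (n : ℕ) :
    ‖LSeries.term h s n‖ ≤ ((2 * l) ^ (J + 1) * (J + 1).factorial) * (n : ℝ) ^ (-(1 + 1 / (2 * l))) := by
  rw [LSeries.norm_term_eq]
  split_ifs with h0
  · subst h0
    have : ((0 : ℕ) : ℝ) ^ (-(1 + 1 / (2 * l))) = 0 := by
      rw [Nat.cast_zero]
      refine Real.zero_rpow ?_
      have : 0 < 1 / (2 * l) := by positivity
      linarith
    rw [this, mul_zero]
  · have hn : (0 : ℝ) < n := by
      have : 0 < n := Nat.pos_of_ne_zero h0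
      exact_mod_cast this
    have hlog : 0 ≤ Real.log n := Real.log_natCast_nonneg n
    have h1 := Real.pow_div_factorial_le_exp (Real.log n / (2 * l)) (by positivity) (J + 1)
    have h2 : (Real.log n) ^ (J + 1) ≤ ((2 * l) ^ (J + 1) * (J + 1).factorial) *
        Real.exp (Real.log n / (2 * l)) := by
      rw [div_pow, div_div, div_le_iff₀ (by positivity)] at h1
      linarith
    rw [div_le_iff₀ (Real.rpow_pos_of_pos hn _)]
    refine (hh n).trans (h2.trans (le_of_eq ?_))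
    rw [mul_assoc, mul_assoc, mul_assoc, ← Real.rpow_add hn, hs, Real.rpow_def_of_pos hn]
    congr 3
    field_simp
    ring

theorem rz_summable (J : ℕ) (h : ℕ → ℂ) (hh : ∀ n, ‖h n‖ ≤ (Real.log n) ^ (J + 1)) {l : ℝ} (hl : 0 < l)
    (s : ℂ) (hs : s.re = 1 + 1 / l) : LSeriesSummable h s := by
  have h1 : Summable (fun n : ℕ => ((2 * l) ^ (J + 1) * (J + 1).factorial) *
      (n : ℝ) ^ (-(1 + 1 / (2 * l)))) := by
    apply Summable.mul_left
    rw [Real.summable_nat_rpow]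
    have : 0 < 1 / (2 * l) := by positivity
    linarith
  exact Summable.of_norm_bounded h1 (rz_term J h hh hl s hs)

theorem rz_norm (J : ℕ) (h : ℕ → ℂ) (hh : ∀ n, ‖h n‖ ≤ (Real.log n) ^ (J + 1)) {l : ℝ} (hl : 1 ≤ l)
    (s : ℂ) (hs : s.re = 1 + 1 / l) :
    ‖LSeries h s‖ ≤ (3 * 2 ^ (J + 1) * (J + 1).factorial) * l ^ (J + 2) := by
  have hl0 : 0 < l := by linarith
  have hsum := rz_summable J h hh hl0 s hs
  have h1 : Summable (fun n : ℕ => ((2 * l) ^ (J + 1) * (J + 1).factorial) *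
      (n : ℝ) ^ (-(1 + 1 / (2 * l)))) := by
    apply Summable.mul_left
    rw [Real.summable_nat_rpow]
    have : 0 < 1 / (2 * l) := by positivity
    linarith
  have h2 : ‖LSeries h s‖ ≤ ∑' n : ℕ, ((2 * l) ^ (J + 1) * (J + 1).factorial) *
      (n : ℝ) ^ (-(1 + 1 / (2 * l))) := by
    refine (norm_tsum_le_tsum_norm hsum.norm).trans ?_
    exact Summable.tsum_le_tsum (rz_term J h hh hl0 s hs) hsum.norm h1
  refine h2.trans ?_
  rw [tsum_mul_left]
  have h3 := rz_tsum (δ := 1 / (2 * l)) (by positivity)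
  have h4 : (1 : ℝ) + 1 / (1 / (2 * l)) ≤ 3 * l := by
    rw [one_div_one_div]
    linarith
  have h5 : 0 ≤ (2 * l) ^ (J + 1) * ((J + 1).factorial : ℝ) := by positivity
  refine (mul_le_mul_of_nonneg_left (h3.trans h4) h5).trans (le_of_eq ?_)
  rw [mul_pow, pow_succ l (J + 1)]
  ring

open MeasureTheory in
theorem rz_integral {V : ℝ} (hV : 0 < V) :
    Integrable (fun ξ : ℝ => 2 * (V ^ 2 + ξ ^ 2)⁻¹) ∧ ∫ ξ : ℝ, 2 * (V ^ 2 + ξ ^ 2)⁻¹ = 2 * Real.pi / V := by
  have e : ∀ ξ : ℝ, (V ^ 2 + ξ ^ 2)⁻¹ = (V ^ 2)⁻¹ * (1 + (ξ / V) ^ 2)⁻¹ := by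
    intro ξ
    rw [← mul_inv]
    congr 1
    field_simp
  have hI := integrable_inv_one_add_sq
  have hI2 : Integrable (fun ξ : ℝ => (1 + (ξ / V) ^ 2)⁻¹) := hI.comp_div hV.ne'
  have hI3 : ∫ ξ : ℝ, (1 + (ξ / V) ^ 2)⁻¹ = V * Real.pi := by
    have := MeasureTheory.Measure.integral_comp_div (fun ξ : ℝ => (1 + ξ ^ 2)⁻¹) V
    rw [this, integral_univ_inv_one_add_sq, abs_of_pos hV, smul_eq_mul]
  constructor
  · simp only [e]
    exact (hI2.const_mul _).const_mul _
  · simp only [e]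
    rw [integral_const_mul, integral_const_mul, hI3]
    field_simp

open MeasureTheory in
theorem rz_R (J : ℕ) (h : ℕ → ℂ) (hh : ∀ n, ‖h n‖ ≤ (Real.log n) ^ (J + 1)) (N : ℕ) (hN : 3 ≤ N)
    (U Q : ℝ) (hU : 1 ≤ U) (hQ : 0 ≤ Q)
    (hL : ∀ u : ℝ, |u| ≤ U → ‖LSeries h (((1 + 1 / Real.log N : ℝ) : ℂ) + (u : ℂ) * Complex.I)‖ ≤ Q)
    (x : ℝ) (hx1 : 1 ≤ x) (hx : x ≤ 3 * N) :
    ‖∑ n ∈ Finset.Icc 1 ⌊x⌋₊, h n * ((Real.log (x / n) : ℝ) : ℂ)‖ ≤
      (Real.exp 2 * (4 * Real.pi ^ 2) * (3 * 2 ^ (J + 1) * (J + 1).factorial)) *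
        (x * (Q + (Real.log N) ^ (J + 2) / U)) := by
  set l : ℝ := Real.log N with hl
  have hN3 : (3 : ℝ) ≤ N := by exact_mod_cast hN
  have hl1 : 1 ≤ l := by
    rw [hl, Real.le_log_iff_exp_le (by linarith)]
    have := Real.exp_one_lt_d9
    linarith
  have hl0 : 0 < l := by linarith
  set c : ℝ := 1 + 1 / l with hc
  have hc1 : 1 ≤ c := by
    have : 0 < 1 / l := by positivity
    linarith
  have hsum : LSeriesSummable h (c : ℂ) := rz_summable J h hh hl0 _ (by simp [hc])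
  rw [H379R2.SW.perron_sum h hc1 hsum hx1, norm_mul]
  set K : ℝ := 3 * 2 ^ (J + 1) * (J + 1).factorial with hK
  have hK1 : 1 ≤ K := by
    have h1 : (1 : ℝ) ≤ 2 ^ (J + 1) := one_le_pow₀ (by norm_num)
    have h2 : (1 : ℝ) ≤ ((J + 1).factorial : ℝ) := by exact_mod_cast Nat.factorial_pos _
    have h3 : (1 : ℝ) ≤ 2 ^ (J + 1) * ((J + 1).factorial : ℝ) := one_le_mul_of_one_le_of_one_le h1 h2
    rw [hK, mul_assoc]
    linarith
  have hpi := Real.pi_pos
  set V : ℝ := U / (2 * Real.pi) with hVdef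
  have hV : 0 < V := by positivity
  obtain ⟨hI1, hI2⟩ := rz_integral hV
  have hA : 0 ≤ K * l ^ (J + 2) := by positivity
  have hint : ‖∫ ξ : ℝ, LSeries h (H379R2.SW.vert c ξ) / (H379R2.SW.vert c ξ) ^ 2 *
          Complex.exp (((2 * Real.pi * ξ * Real.log x : ℝ) : ℂ) * Complex.I)‖ ≤
      Q * Real.pi + K * l ^ (J + 2) * (2 * Real.pi / V) := by
    have hb : ∀ ξ : ℝ, ‖LSeries h (H379R2.SW.vert c ξ) / (H379R2.SW.vert c ξ) ^ 2 *
          Complex.exp (((2 * Real.pi * ξ * Real.log x : ℝ) : ℂ) * Complex.I)‖ ≤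
        Q * (1 + ξ ^ 2)⁻¹ + K * l ^ (J + 2) * (2 * (V ^ 2 + ξ ^ 2)⁻¹) := by
      intro ξ
      rw [norm_mul, Complex.norm_exp_ofReal_mul_I, mul_one, norm_div, norm_pow, div_eq_mul_inv]
      have h1 := H379R2.SW.inv_norm_vert_sq_le hc1 ξ
      have h0 : 0 ≤ (‖H379R2.SW.vert c ξ‖ ^ 2)⁻¹ := by positivity
      by_cases hxi : |2 * Real.pi * ξ| ≤ U
      · have h2 := hL (2 * Real.pi * ξ) hxi
        have h3 : ‖LSeries h (H379R2.SW.vert c ξ)‖ ≤ Q := h2
        have h4 : ‖LSeries h (H379R2.SW.vert c ξ)‖ * (‖H379R2.SW.vert c ξ‖ ^ 2)⁻¹ ≤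
            Q * (1 + ξ ^ 2)⁻¹ := mul_le_mul h3 h1 h0 hQ
        have h5 : 0 ≤ K * l ^ (J + 2) * (2 * (V ^ 2 + ξ ^ 2)⁻¹) := by positivity
        linarith
      · have h3 : ‖LSeries h (H379R2.SW.vert c ξ)‖ ≤ K * l ^ (J + 2) :=
          rz_norm J h hh hl1 _ (by rw [H379R2.SW.vert_re])
        have h4 : ‖LSeries h (H379R2.SW.vert c ξ)‖ * (‖H379R2.SW.vert c ξ‖ ^ 2)⁻¹ ≤
            K * l ^ (J + 2) * (1 + ξ ^ 2)⁻¹ := mul_le_mul h3 h1 h0 hA
        have h5 : (1 + ξ ^ 2)⁻¹ ≤ 2 * (V ^ 2 + ξ ^ 2)⁻¹ := by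
          have h6 : V ^ 2 ≤ ξ ^ 2 := by
            rw [sq_le_sq, abs_of_pos hV, hVdef, div_le_iff₀ (by positivity)]
            rw [abs_mul, abs_of_pos (show (0 : ℝ) < 2 * Real.pi by positivity)] at hxi
            push Not at hxi
            linarith
          have h7 : 0 < V ^ 2 := by positivity
          have h8 : 0 ≤ ξ ^ 2 := by positivity
          rw [← div_eq_mul_inv, inv_eq_one_div, div_le_div_iff₀ (by linarith) (by linarith)]
          linarith
        have h6 : 0 ≤ Q * (1 + ξ ^ 2)⁻¹ := by positivity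
        have h7 := mul_le_mul_of_nonneg_left h5 hA
        linarith
    have hg : Integrable (fun ξ : ℝ => Q * (1 + ξ ^ 2)⁻¹ + K * l ^ (J + 2) * (2 * (V ^ 2 + ξ ^ 2)⁻¹)) :=
      (integrable_inv_one_add_sq.const_mul Q).add (hI1.const_mul _)
    refine (norm_integral_le_of_norm_le hg (Filter.Eventually.of_forall hb)).trans (le_of_eq ?_)
    rw [integral_add (integrable_inv_one_add_sq.const_mul Q) (hI1.const_mul _), integral_const_mul,
      integral_const_mul, integral_univ_inv_one_add_sq, hI2]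
  have hx0 : 0 < x := by linarith
  have hexp : ‖((Real.exp (c * Real.log x) : ℝ) : ℂ)‖ ≤ x * Real.exp 2 := by
    rw [Complex.norm_real, Real.norm_of_nonneg (Real.exp_pos _).le, hc, add_mul, one_mul, Real.exp_add,
      Real.exp_log hx0]
    apply mul_le_mul_of_nonneg_left _ hx0.le
    apply Real.exp_le_exp.mpr
    have h1 : Real.log x ≤ 2 * l := by
      have h2 : Real.log x ≤ Real.log (N * N) := by
        apply Real.log_le_log hx0
        nlinarith
      rw [Real.log_mul (by linarith) (by linarith)] at h2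
      linarith
    rw [one_div, inv_mul_le_iff₀ hl0]
    linarith
  have hpi3 : 3 < Real.pi := Real.pi_gt_three
  have hfin : Q * Real.pi + K * l ^ (J + 2) * (2 * Real.pi / V) ≤
      (4 * Real.pi ^ 2) * K * (Q + l ^ (J + 2) / U) := by
    have h1 : K * l ^ (J + 2) * (2 * Real.pi / V) = (4 * Real.pi ^ 2) * K * (l ^ (J + 2) / U) := by
      rw [hVdef]
      field_simp
      ring
    rw [h1, mul_add]
    have h2 : Q * Real.pi ≤ (4 * Real.pi ^ 2) * K * Q := by
      have h3 : Real.pi ≤ (4 * Real.pi ^ 2) * K := by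
        nlinarith [mul_pos hpi hpi]
      nlinarith
    linarith
  calc ‖((Real.exp (c * Real.log x) : ℝ) : ℂ)‖ * _ ≤ (x * Real.exp 2) *
        (Q * Real.pi + K * l ^ (J + 2) * (2 * Real.pi / V)) :=
        mul_le_mul hexp hint (norm_nonneg _) (by positivity)
    _ ≤ (x * Real.exp 2) * ((4 * Real.pi ^ 2) * K * (Q + l ^ (J + 2) / U)) :=
        mul_le_mul_of_nonneg_left hfin (by positivity)
    _ = _ := by ring

set_option maxHeartbeats 1000000 in
theorem main : S_RIESZ := by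
  intro J
  set C₁ : ℝ := Real.exp 2 * (4 * Real.pi ^ 2) * (3 * 2 ^ (J + 1) * (J + 1).factorial) with hC₁
  have hC₁0 : 0 ≤ C₁ := by positivity
  refine ⟨1 + 4 * C₁ + 2 * 2 ^ (J + 1), by
    have : (0 : ℝ) ≤ 2 ^ (J + 1) := by positivity
    linarith, ?_⟩
  intro h N U Q hN hU hQ hh hL x hx
  have hN3 : (3 : ℝ) ≤ N := by exact_mod_cast hN
  have hN0 : (0 : ℝ) < N := by linarith
  set l : ℝ := Real.log N with hl
  have hl1 : 1 ≤ l := by
    rw [hl, Real.le_log_iff_exp_le (by linarith)]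
    have := Real.exp_one_lt_d9
    linarith
  have hl0 : 0 < l := by linarith
  set P : ℝ := Q + l ^ (J + 2) / U with hP
  have hU0 : 0 < U := by linarith
  have hP0 : 0 < P := by positivity
  set M : ℝ := l ^ (J + 1) with hM
  have hM0 : 0 < M := by positivity
  have hsq : 0 ≤ N * Real.sqrt (P * M) := by positivity
  have h2J : (0 : ℝ) ≤ 2 ^ (J + 1) := by positivity
  suffices hmain : ‖∑ n ∈ Icc 1 x, h n‖ ≤ (1 + 4 * C₁ + 2 * 2 ^ (J + 1)) * (N * Real.sqrt (P * M)) by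
    refine hmain.trans ?_
    apply mul_le_mul_of_nonneg_left _ (by linarith)
    linarith
  have hxN : (x : ℝ) ≤ N := by exact_mod_cast hx
  rcases Nat.eq_zero_or_pos x with hx0 | hx0
  · subst hx0
    simp only [show Icc 1 0 = (∅ : Finset ℕ) from by decide, Finset.sum_empty, norm_zero]
    positivity
  have hx1 : (1 : ℝ) ≤ x := by exact_mod_cast hx0
  by_cases hPM : P ≤ M
  swap
  · push Not at hPM
    have h1 : ‖∑ n ∈ Icc 1 x, h n‖ ≤ N * M := by
      refine (norm_sum_le _ _).trans ?_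
      have h2 : ∑ n ∈ Icc 1 x, ‖h n‖ ≤ ∑ n ∈ Icc 1 x, M := by
        apply Finset.sum_le_sum
        intro n hn
        rw [Finset.mem_Icc] at hn
        refine (hh n).trans ?_
        apply pow_le_pow_left₀ (Real.log_natCast_nonneg n)
        apply Real.log_le_log (by exact_mod_cast hn.1)
        exact_mod_cast hn.2.trans hx
      refine h2.trans ?_
      rw [Finset.sum_const, nsmul_eq_mul, Nat.card_Icc]
      apply mul_le_mul_of_nonneg_right _ hM0.le
      have : ((x + 1 - 1 : ℕ) : ℝ) = x := by simp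
      rw [this]
      exact hxN
    have h3 : M ≤ Real.sqrt (P * M) := by
      apply Real.le_sqrt_of_sq_le
      nlinarith
    have h4 : N * M ≤ N * Real.sqrt (P * M) := mul_le_mul_of_nonneg_left h3 hN0.le
    nlinarith
  · set d : ℝ := Real.sqrt (P / M) with hd
    have hd0 : 0 < d := Real.sqrt_pos.mpr (by positivity)
    have hd1 : d ≤ 1 := by
      rw [hd, Real.sqrt_le_iff]
      refine ⟨by norm_num, ?_⟩
      rw [one_pow, div_le_one hM0]
      exact hPM
    have hdM : d * M = Real.sqrt (P * M) := by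
      rw [hd, show P * M = (P / M) * M ^ 2 by field_simp, Real.sqrt_mul (by positivity), Real.sqrt_sq hM0.le]
    have hPd : P / d = Real.sqrt (P * M) := by
      rw [div_eq_iff hd0.ne', ← hdM]
      have : d * d = P / M := Real.mul_self_sqrt (by positivity)
      rw [mul_right_comm, this]
      field_simp
    set y : ℝ := x * Real.exp d with hy
    have hed : Real.exp d ≤ 1 + 2 * d := by
      have h1 := Real.abs_exp_sub_one_sub_id_le (x := d) (by rw [abs_of_pos hd0]; exact hd1)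
      have h2 := (abs_le.mp h1).2
      nlinarith
    have hed1 : 1 ≤ Real.exp d := Real.one_le_exp hd0.le
    have hyx : (x : ℝ) ≤ y := by
      rw [hy]
      nlinarith
    have hy3 : y ≤ 3 * x := by
      rw [hy]
      nlinarith
    have hRx := rz_R J h hh N hN U Q hU hQ hL x hx1 (by linarith)
    have hRy := rz_R J h hh N hN U Q hU hQ hL y (hx1.trans hyx) (by linarith)
    rw [Nat.floor_natCast] at hRx
    have hfl : x ≤ ⌊y⌋₊ := Nat.le_floor hyx
    have hy0 : 0 < y := by linarith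
    have hx0' : (0 : ℝ) < x := by linarith
    have hdecomp : (∑ n ∈ Icc 1 ⌊y⌋₊, h n * ((Real.log (y / n) : ℝ) : ℂ)) =
        (∑ n ∈ Icc 1 x, h n * ((Real.log (x / n) : ℝ) : ℂ)) + (d : ℂ) * (∑ n ∈ Icc 1 x, h n) +
        ∑ n ∈ Ioc x ⌊y⌋₊, h n * ((Real.log (y / n) : ℝ) : ℂ) := by
      have h1 : Icc 1 ⌊y⌋₊ = Icc 1 x ∪ Ioc x ⌊y⌋₊ := by
        ext n
        simp only [Finset.mem_union, Finset.mem_Icc, Finset.mem_Ioc]
        omega
      have h2 : Disjoint (Icc 1 x) (Ioc x ⌊y⌋₊) := by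
        rw [Finset.disjoint_left]
        intro n hn hn'
        rw [Finset.mem_Icc] at hn
        rw [Finset.mem_Ioc] at hn'
        omega
      rw [h1, Finset.sum_union h2]
      congr 1
      rw [Finset.mul_sum, ← Finset.sum_add_distrib]
      apply Finset.sum_congr rfl
      intro n hn
      rw [Finset.mem_Icc] at hn
      have hn0 : (0 : ℝ) < n := by exact_mod_cast hn.1
      have h3 : Real.log (y / n) = Real.log (x / n) + d := by
        rw [hy, Real.log_div (by positivity) hn0.ne', Real.log_div hx0'.ne' hn0.ne',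
          Real.log_mul hx0'.ne' (Real.exp_pos _).ne', Real.log_exp]
        ring
      rw [h3]
      push_cast
      ring
    have hT : ‖∑ n ∈ Ioc x ⌊y⌋₊, h n * ((Real.log (y / n) : ℝ) : ℂ)‖ ≤
        (2 * d * N) * ((2 ^ (J + 1) * M) * d) := by
      refine (norm_sum_le _ _).trans ?_
      have h2 : ∑ n ∈ Ioc x ⌊y⌋₊, ‖h n * ((Real.log (y / n) : ℝ) : ℂ)‖ ≤
          ∑ n ∈ Ioc x ⌊y⌋₊, (2 ^ (J + 1) * M) * d := by
        apply Finset.sum_le_sum
        intro n hn
        rw [Finset.mem_Ioc] at hn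
        have hn0 : (0 : ℝ) < n := by
          have : 0 < n := by omega
          exact_mod_cast this
        have hny : (n : ℝ) ≤ y := (Nat.le_floor_iff hy0.le).mp hn.2
        have hxn : (x : ℝ) ≤ n := by exact_mod_cast hn.1.le
        rw [norm_mul, Complex.norm_real]
        have h3 : 0 ≤ Real.log (y / n) := Real.log_nonneg (by rw [le_div_iff₀ hn0]; linarith)
        rw [Real.norm_of_nonneg h3]
        have h4 : Real.log (y / n) ≤ d := by
          rw [Real.log_le_iff_le_exp (div_pos hy0 hn0), div_le_iff₀ hn0, hy, mul_comm]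
          exact mul_le_mul_of_nonneg_left hxn (Real.exp_pos d).le
        have h5 : ‖h n‖ ≤ 2 ^ (J + 1) * M := by
          refine (hh n).trans ?_
          rw [hM, ← mul_pow]
          apply pow_le_pow_left₀ (Real.log_natCast_nonneg n)
          have h6 : Real.log n ≤ Real.log (N * N) := by
            apply Real.log_le_log hn0
            nlinarith
          rw [Real.log_mul (by linarith) (by linarith)] at h6
          linarith
        exact mul_le_mul h5 h4 h3 (by positivity)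
      refine h2.trans ?_
      rw [Finset.sum_const, nsmul_eq_mul, Nat.card_Ioc]
      apply mul_le_mul_of_nonneg_right _ (by positivity)
      rw [Nat.cast_sub hfl]
      have h3 : (⌊y⌋₊ : ℝ) ≤ y := Nat.floor_le hy0.le
      have h4 : y - x ≤ 2 * d * N := by
        rw [hy]
        have h5 : x * Real.exp d ≤ x * (1 + 2 * d) := mul_le_mul_of_nonneg_left hed hx0'.le
        have h6 : x * (2 * d) ≤ N * (2 * d) := mul_le_mul_of_nonneg_right hxN (by linarith)
        linarith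
      linarith
    have hdS : (d : ℂ) * (∑ n ∈ Icc 1 x, h n) =
        (∑ n ∈ Icc 1 ⌊y⌋₊, h n * ((Real.log (y / n) : ℝ) : ℂ)) -
        (∑ n ∈ Icc 1 x, h n * ((Real.log (x / n) : ℝ) : ℂ)) -
        ∑ n ∈ Ioc x ⌊y⌋₊, h n * ((Real.log (y / n) : ℝ) : ℂ) := by
      rw [hdecomp]
      ring
    have hn : d * ‖∑ n ∈ Icc 1 x, h n‖ ≤ C₁ * (y * P) + C₁ * (x * P) + (2 * d * N) * ((2 ^ (J + 1) * M) * d) := by
      have h1 : d * ‖∑ n ∈ Icc 1 x, h n‖ = ‖(d : ℂ) * (∑ n ∈ Icc 1 x, h n)‖ := by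
        rw [norm_mul, Complex.norm_real, Real.norm_of_nonneg hd0.le]
      rw [h1, hdS]
      refine (norm_sub_le _ _).trans ?_
      refine add_le_add ((norm_sub_le _ _).trans (add_le_add hRy hRx)) hT
    have h4 : C₁ * (y * P) + C₁ * (x * P) ≤ 4 * C₁ * (N * P) := by
      have h5 : (y + x) * P ≤ (4 * N) * P := mul_le_mul_of_nonneg_right (by linarith) hP0.le
      have h6 := mul_le_mul_of_nonneg_left h5 hC₁0
      linarith
    have h7 : ‖∑ n ∈ Icc 1 x, h n‖ ≤ 4 * C₁ * (N * (P / d)) + 2 * N * (2 ^ (J + 1) * (d * M)) := by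
      have h8 : ‖∑ n ∈ Icc 1 x, h n‖ = (d * ‖∑ n ∈ Icc 1 x, h n‖) / d := by
        field_simp
      rw [h8, div_le_iff₀ hd0]
      have h9 : (4 * C₁ * (N * (P / d)) + 2 * N * (2 ^ (J + 1) * (d * M))) * d =
          4 * C₁ * (N * P) + (2 * d * N) * ((2 ^ (J + 1) * M) * d) := by
        field_simp
      rw [h9]
      linarith
    rw [hPd, hdM] at h7
    refine h7.trans ?_
    nlinarith

end Pool.Agent.helper24_UT.Riesz
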