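/-
UT_341   (project UT of helper24: primes at almost all systems of polynomials; very_famous ids, partial results)
TARGET: prove the theorem at the end. Its statement uses the definitions in the module Pool/Agent/helper24_UT/Stm.lean
(on origin/main; `git -C /workdir/pool/outputs/live pull`, then copy that file and the starting modules it imports,
Pool/Agent/Y957/VK/Stm.lean and Pool/Agent/H376R2/MR/Defs.lean, to the same paths under /workdir/pool). You may import
Mathlib and ANY starting module (copy it with its closure from outputs/live). READ Stm.lean first.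
Put helper lemmas in the namespace below, do not change the target statement, no sorry, no native_decide, no new axioms,
no straight double quotes in the file. Paste the full proved file back as the result. If the statement is false or a
constant does not work out, set status='problem' and say exactly why.

PLAIN PROOF
Let h(n) = ro y f n. On positive integers h is completely multiplicative (all prime factors of mn exceed y iff the same for m and n),
bounded by one, h 1 = 1. For Re s > 1 the Dirichlet series is the Euler product and equals exp(sum_p -log(1 - h(p) p^{-s})).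
Mathlib: EulerProduct.exp_tsum_primes_log_eq_tsum for f : ℕ →*₀ ℂ with summable norms, applied to n -> h(n) n^{-s} (value 0 at 0,
a monoid-with-zero hom: build it with toFun n = if n = 0 then 0 else ro y f n * (n : ℂ)^(-s)).
Then log of the product of the three norms is
 sum_p Re( 3 (-log(1-a)) + 4 (-log(1 - a z)) + (-log(1 - a z^2)) ), a = 1_{p>y} p^{-sigma}, z = f(p) p^{-iu}, |z| <= 1,
and each term is >= 0: expand -log(1-w) = sum_{k>=1} w^k/k; Re(3 + 4 w + w^2) >= 0 for |w| <= 1, applied to w = z^k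
(w = rho e^{i phi}, c = cos phi: 3 + 4 rho c + rho^2 (2c^2-1) >= 3 - 4 rho + rho^2 = (1-rho)(3-rho) >= 0, because the derivative in c,
4 rho + 4 rho^2 c, is >= 0 for c >= -1). Compare Mathlib/NumberTheory/LSeries/Nonvanishing.lean (re_log_comb_nonneg and
norm_LSeries_product_ge_one), where this is done for Dirichlet characters with |z| = 1; adapt it.
-/
import Pool.Agent.H27.G.R_pool_sql_team_seeded_620a6dc7.helper24_UT_.Stm

set_option autoImplicit false

namespace Pool.Agent.helper24_UT.T341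

open Finset
open Pool.Agent.helper24_UT
open Pool.Agent.H376R2.MR (ch er DP FK)

theorem rlc {a : ℝ} (ha₀ : 0 ≤ a) (ha₁ : a < 1) {z : ℂ} (hz : ‖z‖ ≤ 1) :
    0 ≤ 3 * (-Complex.log (1 - a)).re + 4 * (-Complex.log (1 - a * z)).re +
      (-Complex.log (1 - a * z ^ 2)).re := by
  have hac₀ : ‖(a : ℂ)‖ < 1 := by
    simp only [Complex.norm_of_nonneg ha₀, ha₁]
  have hac₁ : ‖a * z‖ < 1 := by
    rw [norm_mul, Complex.norm_of_nonneg ha₀]
    calc a * ‖z‖ ≤ a * 1 := by gcongr
      _ < 1 := by linarith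
  have hz2 : ‖z ^ 2‖ ≤ 1 := by rw [norm_pow]; exact pow_le_one₀ (norm_nonneg _) hz
  have hac₂ : ‖a * z ^ 2‖ < 1 := by
    rw [norm_mul, Complex.norm_of_nonneg ha₀]
    calc a * ‖z ^ 2‖ ≤ a * 1 := by gcongr
      _ < 1 := by linarith
  rw [← ((Complex.hasSum_re <| Complex.hasSum_taylorSeries_neg_log hac₀).mul_left 3).add
    ((Complex.hasSum_re <| Complex.hasSum_taylorSeries_neg_log hac₁).mul_left 4) |>.add
    (Complex.hasSum_re <| Complex.hasSum_taylorSeries_neg_log hac₂) |>.tsum_eq]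
  refine tsum_nonneg fun n ↦ ?_
  simp only [← Complex.ofReal_pow, Complex.div_natCast_re, Complex.ofReal_re, mul_pow, Complex.mul_re,
    Complex.ofReal_im, zero_mul, sub_zero]
  rcases n.eq_zero_or_pos with rfl | hn
  · simp
  · simp only [← mul_div_assoc, ← add_div]
    refine div_nonneg ?_ n.cast_nonneg
    have hw : ‖z ^ n‖ ≤ 1 := by rw [norm_pow]; exact pow_le_one₀ (norm_nonneg _) hz
    have e : (z ^ 2) ^ n = (z ^ n) ^ 2 := by rw [← pow_mul, ← pow_mul, mul_comm]
    rw [e]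
    set w := z ^ n with hwd
    have h1 : (w ^ 2).re = 2 * w.re ^ 2 - ‖w‖ ^ 2 := by
      rw [pow_two w, Complex.mul_re, Complex.sq_norm, Complex.normSq_apply]
      ring
    have h2 : ‖w‖ ^ 2 ≤ 1 := pow_le_one₀ (norm_nonneg _) hw
    rw [h1]
    have h3 : 0 ≤ a ^ n := by positivity
    nlinarith [mul_nonneg h3 (sq_nonneg (w.re + 1)), mul_nonneg h3 (sub_nonneg.2 h2)]

theorem CM_one : CM (fun _ => 1) where
  one := rfl
  mul := fun _ _ _ _ => by simp
  norm_le := fun _ => by simp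

theorem CM_sq {f : ℕ → ℂ} (hf : CM f) : CM (fun n => f n ^ 2) where
  one := by rw [hf.one]; simp
  mul := fun m n hm hn => by rw [hf.mul m n hm hn]; ring
  norm_le := fun n => by rw [norm_pow]; exact pow_le_one₀ (norm_nonneg _) (hf.norm_le n)

theorem ro_zero (y : ℝ) (f : ℕ → ℂ) : ro y f 0 = 0 := by simp [ro]

theorem ro_one {y : ℝ} {f : ℕ → ℂ} (hf : CM f) : ro y f 1 = 1 := by
  unfold ro
  rw [if_pos, hf.one]
  refine ⟨le_refl _, fun p hp hd => ?_⟩
  exact absurd (Nat.dvd_one.1 hd) hp.ne_one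

theorem ro_norm {y : ℝ} {f : ℕ → ℂ} (hf : CM f) (n : ℕ) : ‖ro y f n‖ ≤ 1 := by
  unfold ro
  split_ifs
  · exact hf.norm_le n
  · simp

theorem ro_mul {y : ℝ} {f : ℕ → ℂ} (hf : CM f) (m n : ℕ) : ro y f (m * n) = ro y f m * ro y f n := by
  rcases Nat.eq_zero_or_pos m with rfl | hm
  · simp [ro_zero]
  rcases Nat.eq_zero_or_pos n with rfl | hn
  · simp [ro_zero]
  have key : (1 ≤ m * n ∧ ∀ p : ℕ, p.Prime → p ∣ m * n → y < p) ↔
      (1 ≤ m ∧ ∀ p : ℕ, p.Prime → p ∣ m → y < p) ∧ (1 ≤ n ∧ ∀ p : ℕ, p.Prime → p ∣ n → y < p) := by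
    constructor
    · rintro ⟨-, h⟩
      exact ⟨⟨hm, fun p hp hd => h p hp (hd.mul_right n)⟩, ⟨hn, fun p hp hd => h p hp (hd.mul_left m)⟩⟩
    · rintro ⟨⟨-, h1⟩, ⟨-, h2⟩⟩
      refine ⟨Nat.mul_pos hm hn, fun p hp hd => ?_⟩
      rcases (Nat.Prime.dvd_mul hp).1 hd with h | h
      · exact h1 p hp h
      · exact h2 p hp h
  unfold ro
  by_cases h1 : (1 ≤ m ∧ ∀ p : ℕ, p.Prime → p ∣ m → y < p)
  · by_cases h2 : (1 ≤ n ∧ ∀ p : ℕ, p.Prime → p ∣ n → y < p)
    · rw [if_pos h1, if_pos h2, if_pos (key.2 ⟨h1, h2⟩), hf.mul m n hm hn]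
    · rw [if_neg h2, if_neg (fun h => h2 (key.1 h).2), mul_zero]
  · rw [if_neg h1, if_neg (fun h => h1 (key.1 h).1), zero_mul]

/-- the summand as a homomorphism -/
noncomputable def rhom {y : ℝ} {f : ℕ → ℂ} (hf : CM f) (s : ℂ) : ℕ →*₀ ℂ where
  toFun n := ro y f n * (n : ℂ) ^ (-s)
  map_zero' := by simp [ro_zero]
  map_one' := by simp [ro_one hf]
  map_mul' m n := by
    rw [ro_mul hf, Nat.cast_mul, Complex.natCast_mul_natCast_cpow]
    ring

theorem rhom_norm {y : ℝ} {f : ℕ → ℂ} (hf : CM f) {s : ℂ} (hs : 1 < s.re) (n : ℕ) :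
    ‖rhom (y := y) hf s n‖ ≤ (n : ℝ) ^ (-s.re) := by
  change ‖ro y f n * (n : ℂ) ^ (-s)‖ ≤ _
  rw [norm_mul, Complex.norm_natCast_cpow_of_re_ne_zero _ (by rw [Complex.neg_re]; linarith), Complex.neg_re]
  exact mul_le_of_le_one_left (by positivity) (ro_norm hf n)

theorem rhom_summable {y : ℝ} {f : ℕ → ℂ} (hf : CM f) {s : ℂ} (hs : 1 < s.re) :
    Summable (fun n => ‖rhom (y := y) hf s n‖) := by
  refine Summable.of_nonneg_of_le (fun _ => norm_nonneg _) (rhom_norm hf hs) ?_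
  exact Real.summable_nat_rpow.2 (by linarith)

theorem rhom_LSeries {y : ℝ} {f : ℕ → ℂ} (hf : CM f) (s : ℂ) :
    LSeries (ro y f) s = ∑' n, rhom (y := y) hf s n := by
  unfold LSeries
  apply tsum_congr
  intro n
  change _ = ro y f n * (n : ℂ) ^ (-s)
  rcases Nat.eq_zero_or_pos n with rfl | hn
  · simp [ro_zero]
  · rw [LSeries.term_of_ne_zero hn.ne', Complex.cpow_neg, div_eq_mul_inv]

theorem rhom_exp {y : ℝ} {f : ℕ → ℂ} (hf : CM f) {s : ℂ} (hs : 1 < s.re) :
    LSeries (ro y f) s = Complex.exp (∑' p : Nat.Primes, -Complex.log (1 - ro y f p * (p : ℂ) ^ (-s))) := by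
  rw [rhom_LSeries hf s]
  exact (EulerProduct.exp_tsum_primes_log_eq_tsum (f := rhom (y := y) hf s) (rhom_summable hf hs)).symm

theorem summ {y : ℝ} {f : ℕ → ℂ} (hf : CM f) {s : ℂ} (hs : 1 < s.re) :
    Summable fun p : Nat.Primes ↦ -Complex.log (1 - ro y f p * (p : ℂ) ^ (-s)) := by
  have h1 (p : Nat.Primes) : ‖ro y f p * (p : ℂ) ^ (-s)‖ ≤ (p : ℝ) ^ (-s).re := by
    have := rhom_norm (y := y) hf hs p
    rw [Complex.neg_re]
    exact this
  refine (Nat.Primes.summable_rpow.mpr ?_).of_nonneg_of_le (fun _ ↦ norm_nonneg _) h1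
    |>.of_norm.clog_one_sub.neg
  simp only [Complex.neg_re, neg_lt_neg_iff, hs]

theorem comb {y σ u : ℝ} {f : ℕ → ℂ} (hf : CM f) (hσ : 1 < σ) (p : Nat.Primes) :
    0 ≤ 3 * (-Complex.log (1 - ro y (fun _ => 1) p * (p : ℂ) ^ (-(σ : ℂ)))).re +
      4 * (-Complex.log (1 - ro y f p * (p : ℂ) ^ (-((σ : ℂ) + (u : ℂ) * Complex.I)))).re +
      (-Complex.log (1 - ro y (fun n => f n ^ 2) p * (p : ℂ) ^ (-((σ : ℂ) + (2 * u : ℂ) * Complex.I)))).re := by
  have hp0 : (p : ℕ) ≠ 0 := p.2.ne_zero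
  have hp0' : ((p : ℕ) : ℂ) ≠ 0 := by exact_mod_cast hp0
  by_cases hc : (1 ≤ (p : ℕ) ∧ ∀ q : ℕ, q.Prime → q ∣ p → y < q)
  · have e1 : ro y (fun _ => 1) p = 1 := by unfold ro; rw [if_pos hc]
    have e2 : ro y f p = f p := by unfold ro; rw [if_pos hc]
    have e3 : ro y (fun n => f n ^ 2) p = f p ^ 2 := by unfold ro; rw [if_pos hc]
    rw [e1, e2, e3, one_mul]
    have hn : ((p : ℕ) : ℝ) ^ (-σ) < 1 := by
      rw [Real.rpow_neg (Nat.cast_nonneg _), inv_lt_one_iff₀]
      exact .inr <| Real.one_lt_rpow (mod_cast p.2.one_lt) <| zero_lt_one.trans hσ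
    have hz : ‖f p * (p : ℂ) ^ (-((u : ℂ) * Complex.I))‖ ≤ 1 := by
      have : ‖((p : ℕ) : ℂ) ^ (-((u : ℂ) * Complex.I))‖ = 1 := by
        rw [Complex.norm_natCast_cpow_of_pos p.2.pos]
        simp
      rw [norm_mul, this, mul_one]
      exact hf.norm_le p
    have h := rlc (a := ((p : ℕ) : ℝ) ^ (-σ)) (by positivity) hn hz
    have ea : ((((p : ℕ) : ℝ) ^ (-σ) : ℝ) : ℂ) = (p : ℂ) ^ (-(σ : ℂ)) := by
      rw [Complex.ofReal_cpow (Nat.cast_nonneg _)]
      simp
    rw [ea] at h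
    have eb : (p : ℂ) ^ (-(σ : ℂ)) * (f p * (p : ℂ) ^ (-((u : ℂ) * Complex.I)))
        = f p * (p : ℂ) ^ (-((σ : ℂ) + (u : ℂ) * Complex.I)) := by
      rw [neg_add, Complex.cpow_add _ _ hp0']
      ring
    have ec : (p : ℂ) ^ (-(σ : ℂ)) * (f p * (p : ℂ) ^ (-((u : ℂ) * Complex.I))) ^ 2
        = f p ^ 2 * (p : ℂ) ^ (-((σ : ℂ) + (2 * u : ℂ) * Complex.I)) := by
      rw [neg_add, Complex.cpow_add _ _ hp0',
        show -((2 * u : ℂ) * Complex.I) = (2 : ℕ) * -((u : ℂ) * Complex.I) by push_cast; ring, Complex.cpow_nat_mul]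
      ring
    rw [eb, ec] at h
    exact h
  · have e1 : ro y (fun _ => 1) p = 0 := by unfold ro; rw [if_neg hc]
    have e2 : ro y f p = 0 := by unfold ro; rw [if_neg hc]
    have e3 : ro y (fun n => f n ^ 2) p = 0 := by unfold ro; rw [if_neg hc]
    rw [e1, e2, e3]
    simp

theorem main : S_341 := by
  intro y σ u f hf hσ
  have h₀ : 1 < ((σ : ℂ)).re := by simpa using hσ
  have h₁ : 1 < ((σ : ℂ) + (u : ℂ) * Complex.I).re := by simpa using hσ
  have h₂ : 1 < ((σ : ℂ) + (2 * u : ℂ) * Complex.I).re := by simpa using hσ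
  have H₀ := summ (y := y) CM_one h₀
  have H₁ := summ (y := y) hf h₁
  have H₂ := summ (y := y) (CM_sq hf) h₂
  have hsum₀ := (Complex.hasSum_re H₀.hasSum).summable.mul_left 3
  have hsum₁ := (Complex.hasSum_re H₁.hasSum).summable.mul_left 4
  have hsum₂ := (Complex.hasSum_re H₂.hasSum).summable
  rw [rhom_exp CM_one h₀, rhom_exp hf h₁, rhom_exp (CM_sq hf) h₂]
  rw [Complex.norm_exp, Complex.norm_exp, Complex.norm_exp, ← Real.exp_nat_mul, ← Real.exp_nat_mul,
    ← Real.exp_add, ← Real.exp_add, Real.one_le_exp_iff]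
  rw [Complex.re_tsum H₀, Complex.re_tsum H₁, Complex.re_tsum H₂]
  push_cast
  rw [← tsum_mul_left, ← tsum_mul_left, ← hsum₀.tsum_add hsum₁, ← (hsum₀.add hsum₁).tsum_add hsum₂]
  exact tsum_nonneg fun p => comb hf hσ p

end Pool.Agent.helper24_UT.T341
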