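import Pool.Agent.H27.G.R_pool_sql_team_seeded_620a6dc7.helper24_UT_.Stm

set_option autoImplicit false

namespace Pool.Agent.helper24_UT.Al

open Finset
open Pool.Agent.helper24_UT
open Pool.Agent.H376R2.MR (ch er DP FK)

lemma tw_mul (t : ℝ) {b c : ℕ} (hb : 1 ≤ b) (hc : 1 ≤ c) :
    tw t ((b * c : ℕ) : ℝ) = tw t b * tw t c := by
  have hb' : (b : ℝ) ≠ 0 := by positivity
  have hc' : (c : ℝ) ≠ 0 := by positivity
  unfold tw er
  rw [← Complex.exp_add]
  congr 1
  rw [Nat.cast_mul, Real.log_mul hb' hc']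
  push_cast
  ring

lemma norm_tw (t x : ℝ) : ‖tw t x‖ = 1 := by
  unfold tw er
  exact Complex.norm_exp_ofReal_mul_I _

lemma norm_moebius_le (b : ℕ) : ‖((ArithmeticFunction.moebius b : ℤ) : ℂ)‖ ≤ 1 := by
  rw [Complex.norm_intCast]
  exact_mod_cast (ArithmeticFunction.abs_moebius_le_one (n := b))

lemma sum_pairs (N : ℕ) (F : ℕ → ℕ → ℂ) :
    ∑ n ∈ Icc 1 N, ∑ b ∈ n.divisors, F b (n / b) =
      ∑ b ∈ Icc 1 N, ∑ c ∈ Icc 1 (N / b), F b c := by
  rw [Finset.sum_sigma', Finset.sum_sigma']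
  refine Finset.sum_bij' (fun x _ => ⟨x.2, x.1 / x.2⟩) (fun x _ => ⟨x.1 * x.2, x.1⟩) ?_ ?_ ?_ ?_ ?_
  · rintro ⟨n, b⟩ h
    simp only [mem_sigma, mem_Icc, Nat.mem_divisors] at h ⊢
    obtain ⟨⟨h1, h2⟩, h3, h4⟩ := h
    have hb : 0 < b := Nat.pos_of_dvd_of_pos h3 (by omega)
    have hbn : b ≤ n := Nat.le_of_dvd (by omega) h3
    refine ⟨⟨hb, by omega⟩, Nat.div_pos hbn hb, Nat.div_le_div_right h2⟩
  · rintro ⟨b, c⟩ h
    simp only [mem_sigma, mem_Icc, Nat.mem_divisors] at h ⊢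
    obtain ⟨⟨h1, h2⟩, h3, h4⟩ := h
    have h5 : b * c ≤ N := by
      have := (Nat.le_div_iff_mul_le (by omega : 0 < b)).1 h4
      rwa [mul_comm]
    refine ⟨⟨Nat.mul_pos h1 h3, h5⟩, Dvd.intro _ rfl, ?_⟩
    have := Nat.mul_pos h1 h3
    omega
  · rintro ⟨n, b⟩ h
    simp only [mem_sigma, mem_Icc, Nat.mem_divisors] at h ⊢
    obtain ⟨⟨h1, h2⟩, h3, h4⟩ := h
    rw [Nat.mul_div_cancel' h3]
  · rintro ⟨b, c⟩ h
    simp only [mem_sigma, mem_Icc] at h ⊢
    obtain ⟨⟨h1, h2⟩, h3, h4⟩ := h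
    rw [Nat.mul_div_cancel_left _ (by omega : 0 < b)]
  · rintro ⟨n, b⟩ h
    rfl

lemma solve (q r b : ℕ) (hr : r.Coprime q) : (∀ c, (b * c) % q ≠ r % q) ∨
    ∃ c₀, Nat.Coprime c₀ q ∧ ∀ c, (b * c) % q = r % q ↔ c % q = c₀ % q := by
  by_cases h : ∀ c, (b * c) % q ≠ r % q
  · exact Or.inl h
  · right
    push Not at h
    obtain ⟨c₀, hc⟩ := h
    have hco : Nat.Coprime (b * c₀) q := by
      have h1 : Nat.gcd (b * c₀) q = Nat.gcd r q := Nat.ModEq.gcd_eq hc
      rw [Nat.Coprime, h1]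
      exact hr
    refine ⟨c₀, hco.coprime_mul_left, fun c => ?_⟩
    have hb : Nat.Coprime b q := hco.coprime_mul_right
    constructor
    · intro h
      have h2 : b * c ≡ b * c₀ [MOD q] := h.trans hc.symm
      exact Nat.ModEq.cancel_left_of_coprime (by rw [Nat.gcd_comm]; exact hb) h2
    · intro h
      have h2 : b * c ≡ b * c₀ [MOD q] := Nat.ModEq.mul_left b h
      exact h2.trans hc

lemma harm (N M : ℕ) (hNM : M ≤ N) (L : ℝ) (hN : 1 ≤ N) (hL : (N : ℝ) ≤ Real.exp L) :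
    ∑ b ∈ Icc 1 M, (N : ℝ) / b ≤ N * (1 + L) := by
  have h1 : ∑ b ∈ Icc 1 M, (N : ℝ) / b ≤ ∑ b ∈ Icc 1 N, (N : ℝ) / b := by
    apply Finset.sum_le_sum_of_subset_of_nonneg
    · exact Finset.Icc_subset_Icc le_rfl hNM
    · intro i _ _
      positivity
  have h2 : ∑ b ∈ Icc 1 N, (N : ℝ) / b = N * ((harmonic N : ℚ) : ℝ) := by
    rw [harmonic_eq_sum_Icc]
    push_cast
    rw [Finset.mul_sum]
    exact Finset.sum_congr rfl fun i _ => div_eq_mul_inv _ _
  have h3 := harmonic_le_one_add_log N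
  have h4 : Real.log N ≤ L := by
    have := Real.log_le_log (by exact_mod_cast hN : (0 : ℝ) < N) hL
    rwa [Real.log_exp] at this
  rw [h2] at h1
  refine h1.trans ?_
  have : (0 : ℝ) ≤ N := Nat.cast_nonneg N
  apply mul_le_mul_of_nonneg_left _ this
  linarith

/-- the summand -/
noncomputable def Fb (q r U : ℕ) (t : ℝ) (b c : ℕ) : ℂ :=
  if (b * c) % q = r % q ∧ b ≤ U then ((ArithmeticFunction.moebius b : ℤ) : ℂ) * tw t b * tw t c else 0

lemma expand (q r U N : ℕ) (t : ℝ) :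
    ∑ n ∈ (Icc 1 N).filter (fun n => n % q = r % q), (alU U n : ℂ) * tw t n =
      ∑ b ∈ Icc 1 N, ∑ c ∈ Icc 1 (N / b), Fb q r U t b c := by
  rw [← sum_pairs, Finset.sum_filter]
  refine Finset.sum_congr rfl fun n hn => ?_
  rw [mem_Icc] at hn
  have key : ∀ b ∈ n.divisors, Fb q r U t b (n / b) =
      if n % q = r % q then (if b ≤ U then ((ArithmeticFunction.moebius b : ℤ) : ℂ) * tw t n else 0) else 0 := by
    intro b hb
    rw [Nat.mem_divisors] at hb
    have hb0 : 0 < b := Nat.pos_of_dvd_of_pos hb.1 (by omega)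
    have hbn : b ≤ n := Nat.le_of_dvd (by omega) hb.1
    have hc0 : 1 ≤ n / b := Nat.div_pos hbn hb0
    have hbc : b * (n / b) = n := Nat.mul_div_cancel' hb.1
    have htw : tw t n = tw t b * tw t ((n / b : ℕ) : ℝ) := by
      rw [← tw_mul t hb0 hc0, hbc]
    unfold Fb
    rw [hbc, htw]
    by_cases h1 : n % q = r % q
    · by_cases h2 : b ≤ U
      · rw [if_pos ⟨h1, h2⟩, if_pos h1, if_pos h2, mul_assoc]
      · rw [if_neg (fun h => h2 h.2), if_pos h1, if_neg h2]
    · rw [if_neg (fun h => h1 h.1), if_neg h1]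
  rw [Finset.sum_congr rfl key]
  by_cases h1 : n % q = r % q
  · simp only [if_pos h1]
    unfold alU
    push_cast
    rw [Finset.sum_mul, Finset.sum_filter]
  · simp only [if_neg h1]
    simp

lemma partA (q r U : ℕ) (t L : ℝ) (K' N E : ℕ) (hr : r.Coprime q) (hE : 1 ≤ E) (hq : 1 ≤ q)
    (hN : 1 ≤ N) (hNL : (N : ℝ) ≤ Real.exp L) (hL : 1 ≤ L)
    (H : ∀ r' : ℕ, ∀ M : ℕ, E ≤ M →
      ‖∑ m ∈ (Icc 1 M).filter (fun m => m % q = r'), tw t m‖ ≤ M / L ^ K') :
    ‖∑ b ∈ Icc 1 (N / E), ∑ c ∈ Icc 1 (N / b), Fb q r U t b c‖ ≤ N * (1 + L) / L ^ K' := by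
  have hLK : 0 < L ^ K' := by positivity
  have h1 : ∀ b ∈ Icc 1 (N / E), ‖∑ c ∈ Icc 1 (N / b), Fb q r U t b c‖ ≤ ((N : ℝ) / b) / L ^ K' := by
    intro b hb
    rw [mem_Icc] at hb
    have hb0 : (0 : ℝ) < b := by exact_mod_cast hb.1
    have hnn : 0 ≤ ((N : ℝ) / b) / L ^ K' := by positivity
    by_cases hU : b ≤ U
    · rcases solve q r b hr with h | ⟨c₀, hc₀, h⟩
      · have : ∑ c ∈ Icc 1 (N / b), Fb q r U t b c = 0 := by
          apply Finset.sum_eq_zero
          intro c _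
          unfold Fb
          rw [if_neg (fun hh => h c hh.1)]
        rw [this, norm_zero]
        exact hnn
      · have e1 : ∑ c ∈ Icc 1 (N / b), Fb q r U t b c =
            ((ArithmeticFunction.moebius b : ℤ) : ℂ) * tw t b *
              ∑ c ∈ (Icc 1 (N / b)).filter (fun c => c % q = c₀ % q), tw t c := by
          rw [Finset.mul_sum, Finset.sum_filter]
          refine Finset.sum_congr rfl fun c _ => ?_
          unfold Fb
          by_cases h2 : c % q = c₀ % q
          · rw [if_pos h2, if_pos ⟨(h c).2 h2, hU⟩]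
          · rw [if_neg h2, if_neg (fun hh => h2 ((h c).1 hh.1))]
        rw [e1, norm_mul, norm_mul, norm_tw, mul_one]
        have hEb : E ≤ N / b := by
          rw [Nat.le_div_iff_mul_le hb.1]
          have := (Nat.le_div_iff_mul_le (by omega : 0 < E)).1 hb.2
          rwa [mul_comm]
        have h3 := H (c₀ % q) (N / b) hEb
        have h4 : ((N / b : ℕ) : ℝ) ≤ (N : ℝ) / b := Nat.cast_div_le
        calc ‖((ArithmeticFunction.moebius b : ℤ) : ℂ)‖ * ‖∑ c ∈ (Icc 1 (N / b)).filter (fun c => c % q = c₀ % q), tw t c‖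
            ≤ 1 * (((N / b : ℕ) : ℝ) / L ^ K') :=
              mul_le_mul (norm_moebius_le b) h3 (norm_nonneg _) zero_le_one
          _ ≤ ((N : ℝ) / b) / L ^ K' := by
              rw [one_mul]
              exact div_le_div_of_nonneg_right h4 hLK.le
    · have : ∑ c ∈ Icc 1 (N / b), Fb q r U t b c = 0 := by
        apply Finset.sum_eq_zero
        intro c _
        unfold Fb
        rw [if_neg (fun hh => hU hh.2)]
      rw [this, norm_zero]
      exact hnn
  calc ‖∑ b ∈ Icc 1 (N / E), ∑ c ∈ Icc 1 (N / b), Fb q r U t b c‖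
      ≤ ∑ b ∈ Icc 1 (N / E), ‖∑ c ∈ Icc 1 (N / b), Fb q r U t b c‖ := norm_sum_le _ _
    _ ≤ ∑ b ∈ Icc 1 (N / E), ((N : ℝ) / b) / L ^ K' := Finset.sum_le_sum h1
    _ = (∑ b ∈ Icc 1 (N / E), (N : ℝ) / b) / L ^ K' := by rw [Finset.sum_div]
    _ ≤ N * (1 + L) / L ^ K' :=
        div_le_div_of_nonneg_right (harm N (N / E) (Nat.div_le_self _ _) L hN hNL) hLK.le

lemma partB (q r U : ℕ) (t L : ℝ) (K' N E : ℕ) (hr : r.Coprime q) (hE : 1 ≤ E) (hq : 1 ≤ q)
    (hN : 1 ≤ N) (hNL : (N : ℝ) ≤ Real.exp L) (hL : 1 ≤ L)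
    (H : ∀ r' : ℕ, r'.Coprime q → ∀ M : ℕ, N / E ≤ M → M ≤ N →
      ‖∑ n ∈ (Icc 1 M).filter (fun n => n % q = r' % q), ((ArithmeticFunction.moebius n : ℤ) : ℂ) * tw t n‖ ≤
        M / L ^ K') :
    ‖∑ b ∈ Ioc (N / E) N, ∑ c ∈ Icc 1 (N / b), Fb q r U t b c‖ ≤ 2 * (N * (1 + L) / L ^ K') := by
  have hLK : 0 < L ^ K' := by positivity
  have hcomm : ∑ b ∈ Ioc (N / E) N, ∑ c ∈ Icc 1 (N / b), Fb q r U t b c =
      ∑ c ∈ Icc 1 N, ∑ b ∈ Ioc (N / E) (N / c), Fb q r U t b c := by
    apply Finset.sum_comm'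
    intro b c
    simp only [mem_Ioc, mem_Icc]
    constructor
    · rintro ⟨⟨h1, h2⟩, h3, h4⟩
      have hb : 0 < b := lt_of_le_of_lt (Nat.zero_le _) h1
      have h5 := (Nat.le_div_iff_mul_le hb).1 h4
      refine ⟨⟨h1, ?_⟩, h3, ?_⟩
      · rw [Nat.le_div_iff_mul_le (by omega)]
        rwa [mul_comm]
      · exact h4.trans (Nat.div_le_self _ _)
    · rintro ⟨⟨h1, h2⟩, h3, h4⟩
      have hb : 0 < b := lt_of_le_of_lt (Nat.zero_le _) h1
      have h5 := (Nat.le_div_iff_mul_le (by omega : 0 < c)).1 h2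
      refine ⟨⟨h1, h2.trans (Nat.div_le_self _ _)⟩, h3, ?_⟩
      rw [Nat.le_div_iff_mul_le hb]
      rwa [mul_comm]
  rw [hcomm]
  have h1 : ∀ c ∈ Icc 1 N, ‖∑ b ∈ Ioc (N / E) (N / c), Fb q r U t b c‖ ≤ 2 * (((N : ℝ) / c) / L ^ K') := by
    intro c hc
    rw [mem_Icc] at hc
    have hc0 : (0 : ℝ) < c := by exact_mod_cast hc.1
    have hnn : 0 ≤ 2 * (((N : ℝ) / c) / L ^ K') := by positivity
    have e0 : ∑ b ∈ Ioc (N / E) (N / c), Fb q r U t b c = ∑ b ∈ Ioc (N / E) (min U (N / c)), Fb q r U t b c := by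
      symm
      apply Finset.sum_subset
      · exact Finset.Ioc_subset_Ioc le_rfl (min_le_right _ _)
      · intro b hb hb'
        rw [mem_Ioc] at hb hb'
        unfold Fb
        rw [if_neg]
        rintro ⟨-, h⟩
        exact hb' ⟨hb.1, le_min h hb.2⟩
    rw [e0]
    by_cases hlt : N / E ≤ min U (N / c)
    · rcases solve q r c hr with h | ⟨b₀, hb₀, h⟩
      · have : ∑ b ∈ Ioc (N / E) (min U (N / c)), Fb q r U t b c = 0 := by
          apply Finset.sum_eq_zero
          intro b _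
          unfold Fb
          rw [if_neg (fun hh => h b (by rw [mul_comm]; exact hh.1))]
        rw [this, norm_zero]
        exact hnn
      · set S : ℕ → ℂ := fun M => ∑ n ∈ (Icc 1 M).filter (fun n => n % q = b₀ % q),
          ((ArithmeticFunction.moebius n : ℤ) : ℂ) * tw t n with hS
        have e1 : ∑ b ∈ Ioc (N / E) (min U (N / c)), Fb q r U t b c =
            tw t c * (S (min U (N / c)) - S (N / E)) := by
          have e2 : S (min U (N / c)) - S (N / E) = ∑ b ∈ (Ioc (N / E) (min U (N / c))).filter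
              (fun n => n % q = b₀ % q), ((ArithmeticFunction.moebius b : ℤ) : ℂ) * tw t b := by
            rw [hS]
            simp only
            rw [sub_eq_iff_eq_add, ← Finset.sum_union]
            · congr 1
              ext x
              simp only [mem_filter, mem_union, mem_Icc, mem_Ioc]
              constructor
              · rintro ⟨⟨h1, h2⟩, h3⟩
                by_cases h4 : x ≤ N / E
                · exact Or.inr ⟨⟨h1, h4⟩, h3⟩
                · exact Or.inl ⟨⟨by omega, h2⟩, h3⟩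
              · rintro (⟨⟨h1, h2⟩, h3⟩ | ⟨⟨h1, h2⟩, h3⟩)
                · exact ⟨⟨Nat.succ_le_of_lt (lt_of_le_of_lt (Nat.zero_le _) h1), h2⟩, h3⟩
                · exact ⟨⟨h1, h2.trans hlt⟩, h3⟩
            · rw [Finset.disjoint_left]
              intro x hx hx'
              simp only [mem_filter, mem_Icc, mem_Ioc] at hx hx'
              omega
          rw [e2, Finset.mul_sum, Finset.sum_filter]
          refine Finset.sum_congr rfl fun b hb => ?_
          rw [mem_Ioc] at hb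
          have hbU : b ≤ U := hb.2.trans (min_le_left _ _)
          unfold Fb
          by_cases h2 : b % q = b₀ % q
          · rw [if_pos h2, if_pos ⟨by rw [mul_comm]; exact (h b).2 h2, hbU⟩]
            ring
          · rw [if_neg h2, if_neg (fun hh => h2 ((h b).1 (by rw [mul_comm]; exact hh.1)))]
        rw [e1, norm_mul, norm_tw, one_mul]
        have hle1 : min U (N / c) ≤ N := (min_le_right _ _).trans (Nat.div_le_self _ _)
        have h3 := H b₀ hb₀ (min U (N / c)) hlt hle1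
        have h4 := H b₀ hb₀ (N / E) le_rfl (Nat.div_le_self _ _)
        have h5 : ((min U (N / c) : ℕ) : ℝ) ≤ (N : ℝ) / c :=
          le_trans (by exact_mod_cast min_le_right _ _) (Nat.cast_div_le (m := N) (n := c))
        have h6 : ((N / E : ℕ) : ℝ) ≤ (N : ℝ) / c := le_trans (by exact_mod_cast hlt) h5
        calc ‖S (min U (N / c)) - S (N / E)‖ ≤ ‖S (min U (N / c))‖ + ‖S (N / E)‖ := norm_sub_le _ _
          _ ≤ ((min U (N / c) : ℕ) : ℝ) / L ^ K' + ((N / E : ℕ) : ℝ) / L ^ K' := add_le_add h3 h4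
          _ ≤ ((N : ℝ) / c) / L ^ K' + ((N : ℝ) / c) / L ^ K' :=
              add_le_add (div_le_div_of_nonneg_right h5 hLK.le) (div_le_div_of_nonneg_right h6 hLK.le)
          _ = 2 * (((N : ℝ) / c) / L ^ K') := by ring
    · have : Ioc (N / E) (min U (N / c)) = ∅ := by
        apply Finset.Ioc_eq_empty
        omega
      rw [this, Finset.sum_empty, norm_zero]
      exact hnn
  calc ‖∑ c ∈ Icc 1 N, ∑ b ∈ Ioc (N / E) (N / c), Fb q r U t b c‖
      ≤ ∑ c ∈ Icc 1 N, ‖∑ b ∈ Ioc (N / E) (N / c), Fb q r U t b c‖ := norm_sum_le _ _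
    _ ≤ ∑ c ∈ Icc 1 N, 2 * (((N : ℝ) / c) / L ^ K') := Finset.sum_le_sum h1
    _ = 2 * ((∑ c ∈ Icc 1 N, (N : ℝ) / c) / L ^ K') := by rw [← Finset.mul_sum, Finset.sum_div]
    _ ≤ 2 * (N * (1 + L) / L ^ K') :=
        mul_le_mul_of_nonneg_left
          (div_le_div_of_nonneg_right (harm N N le_rfl L hN hNL) hLK.le) (by norm_num)

lemma small (q r U N : ℕ) (t : ℝ) (hNU : N ≤ U) :
    ‖∑ n ∈ (Icc 1 N).filter (fun n => n % q = r % q), (alU U n : ℂ) * tw t n‖ ≤ 1 := by
  have h1 : ∀ n ∈ (Icc 1 N).filter (fun n => n % q = r % q), (alU U n : ℂ) * tw t n =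
      if n = 1 then tw t n else 0 := by
    intro n hn
    rw [mem_filter, mem_Icc] at hn
    have h2 : alU U n = if n = 1 then 1 else 0 := by
      unfold alU
      have h3 : n.divisors.filter (fun b => b ≤ U) = n.divisors := by
        apply Finset.filter_true_of_mem
        intro b hb
        exact (Nat.divisor_le hb).trans (hn.1.2.trans hNU)
      rw [h3]
      have h4 := congrArg (fun f => f n) ArithmeticFunction.moebius_mul_coe_zeta
      simp only [ArithmeticFunction.coe_mul_zeta_apply, ArithmeticFunction.one_apply] at h4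
      exact h4
    rw [h2]
    by_cases h : n = 1
    · rw [if_pos h, if_pos h]
      simp
    · rw [if_neg h, if_neg h]
      simp
  rw [Finset.sum_congr rfl h1, Finset.sum_ite_eq']
  split_ifs
  · rw [norm_tw]
  · rw [norm_zero]
    norm_num

theorem main : S_T1 → S_MAP → S_AL := by
  rintro ⟨η, hη0, hη1, HT⟩ HM A B K
  obtain ⟨K2a, La, hLa, HT⟩ := HT A B (K + 3)
  obtain ⟨K2b, Lb, hLb, HM⟩ := HM A B (K + 3)
  have hA : (0 : ℝ) < 1 / ((A : ℝ) + 1) := by positivity
  have ev1 : ∀ᶠ x : ℝ in Filter.atTop, x ^ K ≤ Real.exp (1 / ((A : ℝ) + 1) * x) := by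
    have := (isLittleO_pow_exp_pos_mul_atTop (k := K) hA).bound (by norm_num : (0 : ℝ) < 1)
    filter_upwards [this, Filter.eventually_ge_atTop (0 : ℝ)] with x hx hx0
    rw [one_mul, Real.norm_of_nonneg (Real.exp_pos _).le, Real.norm_of_nonneg (by positivity)] at hx
    exact hx
  have ev2 : ∀ᶠ x : ℝ in Filter.atTop, 2 * ((A : ℝ) + 1) ≤ x ^ η :=
    (tendsto_rpow_atTop hη0).eventually_ge_atTop _
  obtain ⟨L1, hL1⟩ := Filter.eventually_atTop.1 (ev1.and ev2)
  refine ⟨max K2a K2b, max (max La Lb) (max L1 (4 * ((A : ℝ) + 1))), ?_, ?_⟩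
  · exact hLa.trans ((le_max_left _ _).trans (le_max_left _ _))
  intro L hL q r hq hqL hr t ht1 ht2 U hU N hN hNL
  have hLa' : La ≤ L := (le_max_left _ _).trans ((le_max_left _ _).trans hL)
  have hLb' : Lb ≤ L := (le_max_right _ _).trans ((le_max_left _ _).trans hL)
  have hL1' : L1 ≤ L := (le_max_left _ _).trans ((le_max_right _ _).trans hL)
  have hL4 : 4 * ((A : ℝ) + 1) ≤ L := (le_max_right _ _).trans ((le_max_right _ _).trans hL)
  have hA0 : (0 : ℝ) ≤ (A : ℝ) := Nat.cast_nonneg A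
  have hL4' : 4 ≤ L := by nlinarith
  have hLpos : 0 < L := by linarith
  obtain ⟨hp1, hp2⟩ := hL1 L hL1'
  have hexp1 : L ^ K ≤ Real.exp (L / ((A : ℝ) + 1)) := by
    rwa [one_div_mul_eq_div] at hp1
  have hta : L ^ K2a ≤ |t| := le_trans (pow_le_pow_right₀ (by linarith) (le_max_left _ _)) ht1
  have htb : L ^ K2b ≤ |t| := le_trans (pow_le_pow_right₀ (by linarith) (le_max_right _ _)) ht1
  have hN1' : (1 : ℝ) ≤ N := le_trans (Real.one_le_exp (by positivity)) hN
  have hN1 : 1 ≤ N := by exact_mod_cast hN1'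
  have hLK : 0 < L ^ K := by positivity
  rcases le_or_gt N U with hNU | hNU
  · refine (small q r U N t hNU).trans ?_
    rw [le_div_iff₀ hLK, one_mul]
    exact hexp1.trans hN
  · set E : ℕ := ⌈Real.exp (L ^ (1 - η))⌉₊ with hEdef
    have hE0 : Real.exp (L ^ (1 - η)) ≤ E := Nat.le_ceil _
    have hE1' : (1 : ℝ) ≤ E := le_trans (Real.one_le_exp (by positivity)) hE0
    have hE1 : 1 ≤ E := by exact_mod_cast hE1'
    have hE2 : (E : ℝ) ≤ 2 * Real.exp (L ^ (1 - η)) := by
      have h1 := Nat.ceil_lt_add_one (Real.exp_pos (L ^ (1 - η))).le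
      have h2 : (1 : ℝ) ≤ Real.exp (L ^ (1 - η)) := Real.one_le_exp (by positivity)
      linarith
    -- N / E is large
    have hx4 : 4 * Real.exp (L ^ (1 - η)) ≤ Real.exp (L / ((A : ℝ) + 1)) := by
      have h1 : L ^ (1 - η) * L ^ η = L := by
        rw [← Real.rpow_add hLpos]
        simp
      have h2 : 2 * L ^ (1 - η) ≤ L / ((A : ℝ) + 1) := by
        rw [le_div_iff₀ (by positivity)]
        have h3 : 0 ≤ L ^ (1 - η) := by positivity
        nlinarith [mul_le_mul_of_nonneg_left hp2 h3]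
      have h3 : 4 ≤ L / ((A : ℝ) + 1) := by
        rw [le_div_iff₀ (by positivity)]
        linarith
      have h4 : (4 : ℝ) ≤ Real.exp 2 := by
        have := Real.add_one_le_exp (1 : ℝ)
        have h5 : Real.exp 2 = Real.exp 1 * Real.exp 1 := by
          rw [← Real.exp_add]
          norm_num
        rw [h5]
        nlinarith
      calc 4 * Real.exp (L ^ (1 - η)) ≤ Real.exp 2 * Real.exp (L ^ (1 - η)) :=
            mul_le_mul_of_nonneg_right h4 (Real.exp_pos _).le
        _ = Real.exp (2 + L ^ (1 - η)) := by rw [← Real.exp_add]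
        _ ≤ Real.exp (L / ((A : ℝ) + 1)) := Real.exp_le_exp.2 (by linarith)
    have hNE : Real.exp (L / ((A : ℝ) + 1)) ≤ ((N / E : ℕ) : ℝ) := by
      set x := Real.exp (L / ((A : ℝ) + 1)) with hx
      have hx2 : x * x ≤ N := by
        have h1 : x * x = Real.exp (2 * L / ((A : ℝ) + 1)) := by
          rw [hx, ← Real.exp_add]
          congr 1
          ring
        rw [h1]
        refine hU.trans ?_
        exact_mod_cast hNU.le
      have hxpos : 0 < x := Real.exp_pos _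
      have hEpos : (0 : ℝ) < E := by linarith
      have h2E : 2 * (E : ℝ) ≤ x := by linarith
      have h1 : (N : ℝ) / E < ((N / E : ℕ) : ℝ) + 1 := by
        rw [div_lt_iff₀ hEpos]
        have := Nat.lt_mul_div_succ N (by omega : 0 < E)
        have h3 : (N : ℝ) < (E : ℝ) * (((N / E : ℕ) : ℝ) + 1) := by
          exact_mod_cast this
        linarith [mul_comm (E : ℝ) (((N / E : ℕ) : ℝ) + 1)]
      have h2 : x + 1 ≤ (N : ℝ) / E := by
        rw [le_div_iff₀ hEpos]
        have hx1 : 1 ≤ x := by linarith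
        nlinarith
      linarith
    have hsplit : ∑ b ∈ Icc 1 N, ∑ c ∈ Icc 1 (N / b), Fb q r U t b c =
        (∑ b ∈ Icc 1 (N / E), ∑ c ∈ Icc 1 (N / b), Fb q r U t b c) +
          ∑ b ∈ Ioc (N / E) N, ∑ c ∈ Icc 1 (N / b), Fb q r U t b c := by
      rw [← Finset.sum_union]
      · congr 1
        ext x
        simp only [mem_union, mem_Icc, mem_Ioc]
        have h1 : N / E ≤ N := Nat.div_le_self _ _
        have h2 : 0 ≤ N / E := Nat.zero_le _
        generalize N / E = k at h1 h2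
        omega
      · rw [Finset.disjoint_left]
        intro x hx hx'
        simp only [mem_Icc, mem_Ioc] at hx hx'
        omega
    have hA' := partA q r U t L (K + 3) N E hr hE1 hq hN1 hNL (by linarith) (fun r' M hM =>
      HT L hLa' q r' hq hqL t hta ht2 M (hE0.trans (by exact_mod_cast hM)))
    have hB' := partB q r U t L (K + 3) N E hr hE1 hq hN1 hNL (by linarith) (fun r' hr' M hM hMN =>
      HM L hLb' q r' hq hqL hr' t htb ht2 M (hNE.trans (by exact_mod_cast hM))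
        (le_trans (by exact_mod_cast hMN) hNL))
    rw [expand, hsplit]
    calc ‖(∑ b ∈ Icc 1 (N / E), ∑ c ∈ Icc 1 (N / b), Fb q r U t b c) +
          ∑ b ∈ Ioc (N / E) N, ∑ c ∈ Icc 1 (N / b), Fb q r U t b c‖
        ≤ _ + _ := norm_add_le _ _
      _ ≤ N * (1 + L) / L ^ (K + 3) + 2 * (N * (1 + L) / L ^ (K + 3)) := add_le_add hA' hB'
      _ = N * (3 * (1 + L)) / L ^ (K + 3) := by ring
      _ ≤ N * L ^ 3 / L ^ (K + 3) := by
          have h1 : (16 : ℝ) ≤ L * L := by
            have h0 : (4 : ℝ) * 4 ≤ L * L := mul_le_mul hL4' hL4' (by norm_num) hLpos.le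
            linarith only [h0]
          have h2 : 16 * L ≤ L ^ 3 := by
            have h3 : L ^ 3 = L * L * L := by ring
            rw [h3]
            exact mul_le_mul_of_nonneg_right h1 hLpos.le
          have h3 : 3 * (1 + L) ≤ L ^ 3 := by linarith only [h2, hL4']
          have h4 : (0 : ℝ) < L ^ (K + 3) := by positivity
          exact div_le_div_of_nonneg_right (mul_le_mul_of_nonneg_left h3 (Nat.cast_nonneg N)) h4.le
      _ = N / L ^ K := by
          rw [pow_add]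
          field_simp

end Pool.Agent.helper24_UT.Al
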