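/-
UT_CONV   (project UT of helper24: primes at almost all systems of polynomials; very_famous ids, partial results)
TARGET: prove the theorem at the end. Its statement uses the definitions in the module Pool/Agent/helper24_UT/Stm.lean
(on origin/main; `git -C /workdir/pool/outputs/live pull`, then copy that file and the starting modules it imports,
Pool/Agent/Y957/VK/Stm.lean and Pool/Agent/H376R2/MR/Defs.lean, to the same paths under /workdir/pool). You may import
Mathlib and ANY starting module (copy it with its closure from outputs/live). READ Stm.lean first.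
Put helper lemmas in the namespace below, do not change the target statement, no sorry, no native_decide, no new axioms,
no straight double quotes in the file. Paste the full proved file back as the result. If the statement is false or a
constant does not work out, set status='problem' and say exactly why.

PLAIN PROOF
For n >= 1 with all prime factors > y: Lambda * 1 = log gives log n = sum_{d e = n} Lambda(d), and d, e are again rough, f(n) = f(d) f(e),
so ro y f n (log n)^(j+1) = sum_{(d,e), de=n} Lambda(d) ro y f d ro y f e (log d + log e)^j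
 = sum_{i<=j} binom(j,i) sum_{de=n} (Lambda(d) ro y f d (log d)^i) (ro y f e (log e)^(j-i)); for n not rough both sides are zero
(d or e is not rough). So the function on the left is sum_i binom(j,i) of the LSeries convolution of the two functions; Mathlib:
LSeries.convolution, LSeries_convolution (needs LSeriesSummable of both factors: each is O(n^eps) as |Lambda(n)| <= log n and
Re s > 1; LSeriesSummable_of_le_const_mul_rpow or similar), LSeries_add / LSeries_sum / LSeries_smul for the finite sum, and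
ArithmeticFunction.vonMangoldt_mul_zeta. Value at n = 0 does not matter (LSeries.term is 0 at 0), use LSeries_congr.
-/
import Pool.Agent.H27.G.R_pool_sql_team_seeded_620a6dc7.helper24_UT_.Stm

set_option autoImplicit false

namespace Pool.Agent.helper24_UT.Conv

open Finset
open Pool.Agent.helper24_UT
open Pool.Agent.H376R2.MR (ch er DP FK)

lemma summ {s : ℂ} (hs : 1 < s.re) (h : ℕ → ℂ) (k : ℕ) (hh : ∀ n : ℕ, n ≠ 0 → ‖h n‖ ≤ (Real.log n) ^ k) :
    LSeriesSummable h s := by
  have hx : (1 + s.re) / 2 < s.re := by linarith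
  refine LSeriesSummable_of_isBigO_rpow hx ?_
  have h1 : (fun x : ℝ => Real.log x ^ k) =O[Filter.atTop] fun x : ℝ => x ^ ((1 + s.re) / 2 - 1) := by
    have h2 := isLittleO_log_rpow_rpow_atTop (s := (1 + s.re) / 2 - 1) (k : ℝ) (by linarith)
    simp only [Real.rpow_natCast] at h2
    exact h2.isBigO
  have h3 := h1.comp_tendsto tendsto_natCast_atTop_atTop
  refine Asymptotics.IsBigO.trans ?_ h3
  refine Asymptotics.IsBigO.of_bound 1 ?_
  filter_upwards [Filter.eventually_ge_atTop 1] with n hn
  have h4 := hh n (by omega)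
  simp only [Function.comp, one_mul]
  refine h4.trans (le_abs_self _)

lemma ro_mul (y : ℝ) (f : ℕ → ℂ) (hf : CM f) (a b : ℕ) (ha : 1 ≤ a) (hb : 1 ≤ b) :
    ro y f (a * b) = ro y f a * ro y f b := by
  unfold ro
  by_cases h1 : ∀ p : ℕ, p.Prime → p ∣ a → y < p
  · by_cases h2 : ∀ p : ℕ, p.Prime → p ∣ b → y < p
    · have h3 : ∀ p : ℕ, p.Prime → p ∣ a * b → y < p := by
        intro p hp hd
        rcases (Nat.Prime.dvd_mul hp).1 hd with h | h
        · exact h1 p hp h
        · exact h2 p hp h
      have hab : 1 ≤ a * b := Nat.mul_pos ha hb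
      rw [if_pos ⟨hab, h3⟩, if_pos ⟨ha, h1⟩, if_pos ⟨hb, h2⟩, hf.mul a b ha hb]
    · have h3 : ¬ (1 ≤ a * b ∧ ∀ p : ℕ, p.Prime → p ∣ a * b → y < p) := by
        rintro ⟨-, h3⟩
        exact h2 (fun p hp hd => h3 p hp (Dvd.dvd.mul_left hd a))
      rw [if_neg h3, if_neg (fun h : 1 ≤ b ∧ ∀ p : ℕ, p.Prime → p ∣ b → y < p => h2 h.2), mul_zero]
  · have h3 : ¬ (1 ≤ a * b ∧ ∀ p : ℕ, p.Prime → p ∣ a * b → y < p) := by
      rintro ⟨-, h3⟩
      exact h1 (fun p hp hd => h3 p hp (Dvd.dvd.mul_right hd b))
    rw [if_neg h3, if_neg (fun h => h1 h.2), zero_mul]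

lemma ro_norm (y : ℝ) (f : ℕ → ℂ) (hf : CM f) (n : ℕ) : ‖ro y f n‖ ≤ 1 := by
  unfold ro
  split_ifs
  · exact hf.norm_le n
  · simp

lemma log_nn (n : ℕ) : 0 ≤ Real.log n := Real.log_natCast_nonneg n

lemma pointwise (y : ℝ) (f : ℕ → ℂ) (hf : CM f) (j n : ℕ) (hn : n ≠ 0) :
    ro y f n * (((Real.log n) ^ (j + 1) : ℝ) : ℂ) = ∑ i ∈ range (j + 1), (j.choose i : ℂ) *
      ∑ p ∈ n.divisorsAntidiagonal,
        ((ArithmeticFunction.vonMangoldt p.1 : ℂ) * ro y f p.1 * (((Real.log p.1) ^ i : ℝ) : ℂ)) *
        (ro y f p.2 * (((Real.log p.2) ^ (j - i) : ℝ) : ℂ)) := by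
  have h1 : ∀ p ∈ n.divisorsAntidiagonal, ∑ i ∈ range (j + 1), (j.choose i : ℂ) *
        (((ArithmeticFunction.vonMangoldt p.1 : ℂ) * ro y f p.1 * (((Real.log p.1) ^ i : ℝ) : ℂ)) *
        (ro y f p.2 * (((Real.log p.2) ^ (j - i) : ℝ) : ℂ))) =
        (ArithmeticFunction.vonMangoldt p.1 : ℂ) * (ro y f n * (((Real.log n) ^ j : ℝ) : ℂ)) := by
    intro p hp
    obtain ⟨hp1, hp2⟩ := Nat.ne_zero_of_mem_divisorsAntidiagonal hp
    have hpn : p.1 * p.2 = n := (Nat.mem_divisorsAntidiagonal.1 hp).1
    have hlog : Real.log n = Real.log p.1 + Real.log p.2 := by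
      rw [← hpn, Nat.cast_mul, Real.log_mul (Nat.cast_ne_zero.2 hp1) (Nat.cast_ne_zero.2 hp2)]
    have hro : ro y f n = ro y f p.1 * ro y f p.2 := by
      rw [← hpn]; exact ro_mul y f hf _ _ (Nat.pos_of_ne_zero hp1) (Nat.pos_of_ne_zero hp2)
    rw [hro, hlog]
    push_cast
    rw [add_pow, mul_sum, mul_sum]
    refine sum_congr rfl (fun i _ => ?_)
    ring
  have h2 : ∑ p ∈ n.divisorsAntidiagonal, (ArithmeticFunction.vonMangoldt p.1 : ℂ) =
      ((Real.log n : ℝ) : ℂ) := by
    have h3 := ArithmeticFunction.vonMangoldt_sum (n := n)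
    have h4 := Nat.sum_divisorsAntidiagonal (n := n) (fun x _ => (ArithmeticFunction.vonMangoldt x : ℂ))
    rw [h4, ← h3]
    push_cast
    rfl
  simp_rw [mul_sum]
  rw [sum_comm, sum_congr rfl h1, ← sum_mul, h2]
  push_cast
  ring

theorem main : S_CONV := by
  intro y s f j hf hs
  have hA : ∀ i : ℕ, LSeriesSummable
      (fun n => (ArithmeticFunction.vonMangoldt n : ℂ) * ro y f n * (((Real.log n) ^ i : ℝ) : ℂ)) s := by
    intro i
    refine summ hs _ (i + 1) (fun n hn => ?_)
    rw [norm_mul, norm_mul, Complex.norm_real, Complex.norm_real, Real.norm_of_nonneg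
      ArithmeticFunction.vonMangoldt_nonneg, Real.norm_of_nonneg (pow_nonneg (log_nn n) i), pow_succ']
    refine mul_le_mul_of_nonneg_right ?_ (pow_nonneg (log_nn n) i)
    calc ArithmeticFunction.vonMangoldt n * ‖ro y f n‖ ≤ ArithmeticFunction.vonMangoldt n * 1 :=
          mul_le_mul_of_nonneg_left (ro_norm y f hf n) ArithmeticFunction.vonMangoldt_nonneg
      _ ≤ Real.log n := by rw [mul_one]; exact ArithmeticFunction.vonMangoldt_le_log
  have hB : ∀ i : ℕ, LSeriesSummable (fun n => ro y f n * (((Real.log n) ^ i : ℝ) : ℂ)) s := by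
    intro i
    refine summ hs _ i (fun n hn => ?_)
    rw [norm_mul, Complex.norm_real, Real.norm_of_nonneg (pow_nonneg (log_nn n) i)]
    calc ‖ro y f n‖ * Real.log n ^ i ≤ 1 * Real.log n ^ i :=
          mul_le_mul_of_nonneg_right (ro_norm y f hf n) (pow_nonneg (log_nn n) i)
      _ = _ := one_mul _
  set A : ℕ → ℕ → ℂ := fun i n =>
    (ArithmeticFunction.vonMangoldt n : ℂ) * ro y f n * (((Real.log n) ^ i : ℝ) : ℂ) with hAd
  set B : ℕ → ℕ → ℂ := fun i n => ro y f n * (((Real.log n) ^ i : ℝ) : ℂ) with hBd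
  have hterm : ∀ i : ℕ, LSeriesHasSum ((j.choose i : ℂ) • LSeries.convolution (A i) (B (j - i))) s
      ((j.choose i : ℂ) * (LSeries (A i) s * LSeries (B (j - i)) s)) := by
    intro i
    exact LSeriesHasSum.smul _ (LSeriesHasSum.convolution (hA i).LSeriesHasSum (hB (j - i)).LSeriesHasSum)
  have hsum := LSeriesHasSum.sum (S := range (j + 1)) (fun i _ => hterm i)
  have hcongr : LSeries (fun n => ro y f n * (((Real.log n) ^ (j + 1) : ℝ) : ℂ)) s =
      LSeries (∑ i ∈ range (j + 1), (j.choose i : ℂ) • LSeries.convolution (A i) (B (j - i))) s := by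
    refine LSeries_congr (fun {n} hn => ?_) s
    rw [pointwise y f hf j n hn, Finset.sum_apply]
    refine sum_congr rfl (fun i _ => ?_)
    rw [LSeries.convolution_def]
    simp only [Pi.smul_apply, smul_eq_mul, hAd, hBd]
  rw [hcongr, hsum.LSeries_eq]
  refine sum_congr rfl (fun i _ => ?_)
  rw [mul_assoc]

end Pool.Agent.helper24_UT.Conv
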