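import Pool.Agent.H27.G.R_pool_sql_team_seeded_620a6dc7.helper24_UT_.Stm2a
import Pool.Agent.H27.G.R_seed8.H373R2.T7.BilLam

/-!
# Project UT (helper24): primes at almost all systems of polynomials

Part 2: correlations of the primes minus their sieve model along `b n + c + g n`, in mean square over `(b, c)`.
Definitions and statements of the steps.
-/

set_option autoImplicit false

namespace Pool.Agent.helper24_UT

open Finset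
open Pool.Agent.H373R2.T7 (lamI lamzI lamz Vz pz)

/-- the primes minus their sieve model, on all integers -/
noncomputable def Ed (z : ℕ) (m : ℤ) : ℝ := lamI m - lamzI z m

/-- (22) primes minus sieve model in progressions in almost all short intervals -/
def S_SI : Prop := ∀ e A B : ℕ, 4 ≤ e → ∃ E₀ : ℕ, ∀ E₁ : ℕ, ∃ X₀ : ℕ, ∀ X : ℕ, X₀ ≤ X → ∀ z : ℕ,
  (Real.log X) ^ E₀ ≤ z → (z : ℝ) ≤ (Real.log X) ^ E₁ → ∀ q : ℕ, 1 ≤ q → (q : ℝ) ≤ (Real.log X) ^ B →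
  ∀ W : ℕ, (X : ℝ) ^ (1 / 2 + 2 / e : ℝ) ≤ W → W ≤ X →
  ∑ u ∈ range X, NN (Ed z) (u : ℤ) W q ≤ X * (W : ℝ) ^ 2 / (Real.log X) ^ A

/-- (25) no correlation of the primes minus their model along `b n + c + g n` with any bounded weights -/
def S_UT : Prop := ∀ e A : ℕ, 1 ≤ e → ∃ E₀ B : ℕ, ∀ E₁ : ℕ, ∃ H₀ : ℕ, ∀ H : ℕ, H₀ ≤ H → ∀ T : ℕ,
  (Real.log H) ^ B ≤ T → (T : ℝ) ≤ (H : ℝ) ^ (1 - 1 / e : ℝ) → ∀ z : ℕ, (Real.log H) ^ E₀ ≤ z →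
  (z : ℝ) ≤ (Real.log H) ^ E₁ → ∀ g : ℕ → ℤ, (∀ n ∈ Icc 1 T, |g n| ≤ H * n) → ∀ w : ℕ → ℝ, (∀ n, |w n| ≤ 1) →
  ∑ b ∈ Icc 1 H, ∑ c ∈ Icc 1 H, (∑ n ∈ Icc 1 T, w n * Ed z ((b : ℤ) * n + c + g n)) ^ 2 ≤
    (H : ℝ) ^ 2 * (T : ℝ) ^ 2 / (Real.log H) ^ A

end Pool.Agent.helper24_UT
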